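import Pool.Agent.H510.OmegaLogic
set_option autoImplicit false
namespace Pool.Agent.H510.DR
open Pool.Agent.H510.OmegaLogic

theorem primrec_var : Primrec (fun v : ℕ => Fm.var v) := by
  rw [← Primrec.encode_iff]
  have : (fun v : ℕ => Encodable.encode (Fm.var v)) = fun v : ℕ => 3 * v + 1 := by
    funext v; rfl
  rw [this]
  exact Primrec.nat_add.comp (Primrec.nat_mul.comp (Primrec.const 3) Primrec.id) (Primrec.const 1)

theorem primrec_box : Primrec (fun a : Fm => Fm.box a) := by
  rw [← Primrec.encode_iff]
  have : (fun a : Fm => Encodable.encode (Fm.box a)) = fun a : Fm => 3 * Encodable.encode a + 3 := by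
    funext v; rfl
  rw [this]
  exact Primrec.nat_add.comp (Primrec.nat_mul.comp (Primrec.const 3) Primrec.encode) (Primrec.const 3)

theorem primrec_imp : Primrec₂ (fun a b : Fm => Fm.imp a b) := by
  unfold Primrec₂
  rw [← Primrec.encode_iff]
  have : (fun p : Fm × Fm => Encodable.encode (Fm.imp p.1 p.2)) =
      fun p : Fm × Fm => 3 * Nat.pair (Encodable.encode p.1) (Encodable.encode p.2) + 2 := by
    funext v; rfl
  rw [this]
  exact Primrec.nat_add.comp (Primrec.nat_mul.comp (Primrec.const 3)
    (Primrec₂.natPair.comp (Primrec.encode.comp Primrec.fst) (Primrec.encode.comp Primrec.snd)))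
    (Primrec.const 2)

theorem primrec_ofCode : Primrec ofCode := by
  rw [← Primrec.encode_iff]
  have : (fun c : ℕ => Encodable.encode (ofCode c)) = fun c : ℕ => c := by
    funext c; exact code_ofCode c
  rw [this]
  exact Primrec.id

/-- the substitution coded by a finite list -/
def sg (s : List Fm) (v : ℕ) : Fm := s.getD v .bot

/-- one step of the course-of-values recursion computing a substitution -/
def sbStep (s : List Fm) (L : List Fm) : Option Fm :=
  some (if L.length = 0 then .bot
    else if (L.length - 1) % 3 = 0 then s.getD ((L.length - 1) / 3) .bot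
    else if (L.length - 1) % 3 = 1 then
      .imp (L.getD ((L.length - 1) / 3).unpair.1 .bot) (L.getD ((L.length - 1) / 3).unpair.2 .bot)
    else .box (L.getD ((L.length - 1) / 3) .bot))

theorem sbStep_spec (s : List Fm) (c : ℕ) :
    sbStep s ((List.range c).map fun k => (ofCode k).subst (sg s)) =
      some ((ofCode c).subst (sg s)) := by
  unfold sbStep
  rw [List.length_map, List.length_range]
  congr 1
  have hget : ∀ k, k < c → ((List.range c).map fun k => (ofCode k).subst (sg s)).getD k .bot =
      (ofCode k).subst (sg s) := by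
    intro k hk
    rw [List.getD_eq_getElem?_getD]
    simp [hk]
  cases c with
  | zero => rw [if_pos rfl, ofCode, Fm.subst]
  | succ k =>
    rw [if_neg (Nat.succ_ne_zero k), Nat.add_sub_cancel, ofCode]
    by_cases h0 : k % 3 = 0
    · rw [if_pos h0, if_pos h0, Fm.subst, sg]
    · rw [if_neg h0, if_neg h0]
      by_cases h1 : k % 3 = 1
      · rw [if_pos h1, if_pos h1, Fm.subst, hget _ (unpair1_lt k), hget _ (unpair2_lt k)]
      · rw [if_neg h1, if_neg h1, Fm.subst, hget _ (div3_lt k)]

theorem primrec_sbStep : Primrec₂ sbStep := by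
  classical
  have hlen : Primrec fun p : List Fm × List Fm => p.2.length :=
    Primrec.list_length.comp Primrec.snd
  have hlen1 : Primrec fun p : List Fm × List Fm => p.2.length - 1 :=
    Primrec.nat_sub.comp hlen (Primrec.const 1)
  have hd3 : Primrec fun p : List Fm × List Fm => (p.2.length - 1) / 3 :=
    Primrec.nat_div.comp hlen1 (Primrec.const 3)
  have hm3 : Primrec fun p : List Fm × List Fm => (p.2.length - 1) % 3 :=
    Primrec.nat_mod.comp hlen1 (Primrec.const 3)
  have hget : ∀ {k : List Fm × List Fm → ℕ}, Primrec k →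
      Primrec fun p : List Fm × List Fm => p.2.getD (k p) Fm.bot :=
    fun hk => (Primrec.list_getD Fm.bot).comp Primrec.snd hk
  unfold sbStep
  refine Primrec.option_some.comp ?_
  refine Primrec.ite (Primrec.eq.comp hlen (Primrec.const 0)) (Primrec.const Fm.bot) ?_
  refine Primrec.ite (Primrec.eq.comp hm3 (Primrec.const 0))
    ((Primrec.list_getD Fm.bot).comp Primrec.fst hd3) ?_
  exact Primrec.ite (Primrec.eq.comp hm3 (Primrec.const 1))
    (primrec_imp.comp (hget (Primrec.fst.comp (Primrec.unpair.comp hd3)))
      (hget (Primrec.snd.comp (Primrec.unpair.comp hd3))))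
    (primrec_box.comp (hget hd3))

theorem primrec_sb : Primrec₂ fun (s : List Fm) (c : ℕ) => (ofCode c).subst (sg s) :=
  Primrec.nat_strong_rec _ primrec_sbStep sbStep_spec

theorem primrec_subst : Primrec₂ fun (s : List Fm) (a : Fm) => a.subst (sg s) := by
  have h : Primrec fun p : List Fm × Fm => (ofCode p.2.code).subst (sg p.1) :=
    primrec_sb.comp Primrec.fst (primrec_code.comp Primrec.snd)
  refine Primrec.of_eq h fun p => ?_
  show _ = p.2.subst (sg p.1)
  rw [ofCode_code]

theorem subst_congr {σ τ : ℕ → Fm} : ∀ a : Fm, (∀ v, v ≤ a.code → σ v = τ v) →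
    a.subst σ = a.subst τ
  | .bot, _ => rfl
  | .var n, h => by
    simp only [Fm.subst]
    exact h n (by simp only [Fm.code]; omega)
  | .imp a b, h => by
    simp only [Fm.subst]
    rw [subst_congr a fun v hv => h v (hv.trans (code_imp_left a b)),
      subst_congr b fun v hv => h v (hv.trans (code_imp_right a b))]
  | .box a, h => by
    simp only [Fm.subst]
    rw [subst_congr a fun v hv => h v (hv.trans (code_box a))]

theorem subst_list (σ : ℕ → Fm) (a : Fm) :
    a.subst (sg ((List.range (a.code + 1)).map σ)) = a.subst σ := by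
  refine subst_congr a fun v hv => ?_
  rw [sg, List.getD_eq_getElem?_getD]
  simp [Nat.lt_succ_of_le hv]

/-! ### modus ponens on codes -/

/-- the conclusion of an implication -/
def concl (u : Fm) : Fm := ofCode ((u.code - 2) / 3).unpair.2

theorem concl_imp (a b : Fm) : concl (.imp a b) = b := by
  unfold concl
  have h : ((Fm.imp a b).code - 2) / 3 = Nat.pair a.code b.code := by
    simp only [Fm.code]; omega
  rw [h]
  simp [ofCode_code]

open Classical in
/-- modus ponens -/
noncomputable def mpO (x y : Option Fm) : Option Fm :=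
  x.bind fun u => y.bind fun a => if Fm.imp a (concl u) = u then some (concl u) else none

theorem mpO_imp (a b : Fm) : mpO (some (.imp a b)) (some a) = some b := by
  simp [mpO, concl_imp]

theorem mpO_some {x y : Option Fm} {b : Fm} (h : mpO x y = some b) :
    ∃ a, x = some (.imp a b) ∧ y = some a := by
  classical
  unfold mpO at h
  rcases x with _ | u
  · simp at h
  · rcases y with _ | a
    · simp at h
    · simp only [Option.bind_some] at h
      by_cases h1 : Fm.imp a (concl u) = u
      · rw [if_pos h1] at h
        have h2 : concl u = b := Option.some.inj h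
        refine ⟨a, ?_, rfl⟩
        rw [← h2, h1]
      · rw [if_neg h1] at h
        exact absurd h (by simp)

theorem primrec_concl : Primrec concl := by
  unfold concl
  exact primrec_ofCode.comp (Primrec.snd.comp (Primrec.unpair.comp
    (Primrec.nat_div.comp (Primrec.nat_sub.comp primrec_code (Primrec.const 2)) (Primrec.const 3))))

theorem primrec_mpO : Primrec₂ mpO := by
  classical
  unfold Primrec₂ mpO
  refine Primrec.option_bind Primrec.fst ?_
  unfold Primrec₂
  refine Primrec.option_bind (Primrec.snd.comp Primrec.fst) ?_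
  unfold Primrec₂
  have hu : Primrec fun q : ((Option Fm × Option Fm) × Fm) × Fm => q.1.2 :=
    Primrec.snd.comp Primrec.fst
  have hc : Primrec fun q : ((Option Fm × Option Fm) × Fm) × Fm => concl q.1.2 :=
    primrec_concl.comp hu
  exact Primrec.ite (Primrec.eq.comp (primrec_imp.comp Primrec.snd hc) hu)
    (Primrec.option_some.comp hc) (Primrec.const none)

/-! ### derivations coded by numbers -/

/-- the instance of rule `r`, with parameter `k`; `x` is the axiom of `Γ` coded by `k` if there is
one, and `L` the table of the conclusions of the derivations coded by smaller numbers -/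
noncomputable def G (x : Option Fm) (r k : ℕ) (y1 y2 y3 : Option Fm) : Option Fm :=
  if r = 0 then x
  else if r = 1 then
    some (.imp (ofCode k.unpair.1) (.imp (ofCode k.unpair.2) (ofCode k.unpair.1)))
  else if r = 2 then
    some (.imp (.imp (ofCode k.unpair.1) (.imp (ofCode k.unpair.2.unpair.1)
        (ofCode k.unpair.2.unpair.2)))
      (.imp (.imp (ofCode k.unpair.1) (ofCode k.unpair.2.unpair.1))
        (.imp (ofCode k.unpair.1) (ofCode k.unpair.2.unpair.2))))
  else if r = 3 then some (.imp (.imp (.imp (ofCode k) .bot) .bot) (ofCode k))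
  else if r = 4 then
    some (.imp (.box (.imp (ofCode k.unpair.1) (ofCode k.unpair.2)))
      (.imp (.box (ofCode k.unpair.1)) (.box (ofCode k.unpair.2))))
  else if r = 5 then mpO y1 y2
  else if r = 6 then y1.map fun a => a.subst (sg (Denumerable.ofNat (List Fm) k.unpair.2))
  else y3.map Fm.box

theorem dlt1 (k : ℕ) : (k / 8).unpair.1 < k + 1 :=
  Nat.lt_succ_of_le ((Nat.unpair_left_le _).trans (Nat.div_le_self _ _))

theorem dlt2 (k : ℕ) : (k / 8).unpair.2 < k + 1 :=
  Nat.lt_succ_of_le ((Nat.unpair_right_le _).trans (Nat.div_le_self _ _))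

theorem dlt3 (k : ℕ) : k / 8 < k + 1 :=
  Nat.lt_succ_of_le (Nat.div_le_self _ _)

/-- the axiom of `Γ` coded by `k`, if there is one -/
def axO (f : Fm → Bool) (k : ℕ) : Option Fm := bif f (ofCode k) then some (ofCode k) else none

/-- the conclusion of the derivation coded by `c` -/
noncomputable def D (f : Fm → Bool) : ℕ → Option Fm
  | 0 => none
  | c + 1 => G (axO f (c / 8)) (c % 8) (c / 8) (D f (c / 8).unpair.1) (D f (c / 8).unpair.2)
      (D f (c / 8))
  decreasing_by
    · exact dlt1 c
    · exact dlt2 c
    · exact dlt3 c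

/-- one step of the course-of-values recursion computing `D` -/
noncomputable def DStep (f : Fm → Bool) (_ : Unit) (L : List (Option Fm)) : Option (Option Fm) :=
  some (if L.length = 0 then none
    else G (axO f ((L.length - 1) / 8)) ((L.length - 1) % 8) ((L.length - 1) / 8)
      (L.getD ((L.length - 1) / 8).unpair.1 none) (L.getD ((L.length - 1) / 8).unpair.2 none)
      (L.getD ((L.length - 1) / 8) none))

theorem DStep_spec (f : Fm → Bool) (u : Unit) (c : ℕ) :
    DStep f u ((List.range c).map (D f)) = some (D f c) := by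
  unfold DStep
  rw [List.length_map, List.length_range]
  congr 1
  have hget : ∀ k, k < c → ((List.range c).map (D f)).getD k none = D f k := by
    intro k hk
    rw [List.getD_eq_getElem?_getD]
    simp [hk]
  cases c with
  | zero => rw [if_pos rfl, D]
  | succ k =>
    rw [if_neg (Nat.succ_ne_zero k), Nat.add_sub_cancel, D, hget _ (dlt1 k), hget _ (dlt2 k),
      hget _ (dlt3 k)]

theorem primrec_G : Primrec fun p : Option Fm × ℕ × ℕ × Option Fm × Option Fm × Option Fm =>
    G p.1 p.2.1 p.2.2.1 p.2.2.2.1 p.2.2.2.2.1 p.2.2.2.2.2 := by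
  classical
  have hx : Primrec fun p : Option Fm × ℕ × ℕ × Option Fm × Option Fm × Option Fm => p.1 :=
    Primrec.fst
  have hr : Primrec fun p : Option Fm × ℕ × ℕ × Option Fm × Option Fm × Option Fm => p.2.1 :=
    Primrec.fst.comp Primrec.snd
  have h2 : Primrec fun p : Option Fm × ℕ × ℕ × Option Fm × Option Fm × Option Fm => p.2.2 :=
    Primrec.snd.comp Primrec.snd
  have hk : Primrec fun p : Option Fm × ℕ × ℕ × Option Fm × Option Fm × Option Fm => p.2.2.1 :=
    Primrec.fst.comp h2
  have h3 : Primrec fun p : Option Fm × ℕ × ℕ × Option Fm × Option Fm × Option Fm => p.2.2.2 :=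
    Primrec.snd.comp h2
  have hy1 : Primrec fun p : Option Fm × ℕ × ℕ × Option Fm × Option Fm × Option Fm => p.2.2.2.1 :=
    Primrec.fst.comp h3
  have h4 : Primrec fun p : Option Fm × ℕ × ℕ × Option Fm × Option Fm × Option Fm => p.2.2.2.2 :=
    Primrec.snd.comp h3
  have hy2 : Primrec fun p : Option Fm × ℕ × ℕ × Option Fm × Option Fm × Option Fm =>
      p.2.2.2.2.1 := Primrec.fst.comp h4
  have hy3 : Primrec fun p : Option Fm × ℕ × ℕ × Option Fm × Option Fm × Option Fm =>
      p.2.2.2.2.2 := Primrec.snd.comp h4
  have hu := Primrec.unpair.comp hk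
  have hu1 : Primrec fun p : Option Fm × ℕ × ℕ × Option Fm × Option Fm × Option Fm =>
      p.2.2.1.unpair.1 := Primrec.fst.comp hu
  have hu2 : Primrec fun p : Option Fm × ℕ × ℕ × Option Fm × Option Fm × Option Fm =>
      p.2.2.1.unpair.2 := Primrec.snd.comp hu
  have hu21 : Primrec fun p : Option Fm × ℕ × ℕ × Option Fm × Option Fm × Option Fm =>
      p.2.2.1.unpair.2.unpair.1 := Primrec.fst.comp (Primrec.unpair.comp hu2)
  have hu22 : Primrec fun p : Option Fm × ℕ × ℕ × Option Fm × Option Fm × Option Fm =>
      p.2.2.1.unpair.2.unpair.2 := Primrec.snd.comp (Primrec.unpair.comp hu2)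
  have a := primrec_ofCode.comp hk
  have a1 := primrec_ofCode.comp hu1
  have a2 := primrec_ofCode.comp hu2
  have a21 := primrec_ofCode.comp hu21
  have a22 := primrec_ofCode.comp hu22
  have hb : Primrec fun _ : Option Fm × ℕ × ℕ × Option Fm × Option Fm × Option Fm => Fm.bot :=
    Primrec.const Fm.bot
  unfold G
  refine Primrec.ite (Primrec.eq.comp hr (Primrec.const 0)) hx ?_
  refine Primrec.ite (Primrec.eq.comp hr (Primrec.const 1))
    (Primrec.option_some.comp (primrec_imp.comp a1 (primrec_imp.comp a2 a1))) ?_
  refine Primrec.ite (Primrec.eq.comp hr (Primrec.const 2))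
    (Primrec.option_some.comp (primrec_imp.comp (primrec_imp.comp a1 (primrec_imp.comp a21 a22))
      (primrec_imp.comp (primrec_imp.comp a1 a21) (primrec_imp.comp a1 a22)))) ?_
  refine Primrec.ite (Primrec.eq.comp hr (Primrec.const 3))
    (Primrec.option_some.comp (primrec_imp.comp (primrec_imp.comp (primrec_imp.comp a hb) hb) a)) ?_
  refine Primrec.ite (Primrec.eq.comp hr (Primrec.const 4))
    (Primrec.option_some.comp (primrec_imp.comp (primrec_box.comp (primrec_imp.comp a1 a2))
      (primrec_imp.comp (primrec_box.comp a1) (primrec_box.comp a2)))) ?_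
  refine Primrec.ite (Primrec.eq.comp hr (Primrec.const 5)) (primrec_mpO.comp hy1 hy2) ?_
  refine Primrec.ite (Primrec.eq.comp hr (Primrec.const 6)) ?_ ?_
  · refine Primrec.option_map hy1 ?_
    exact primrec_subst.comp ((Primrec.ofNat (List Fm)).comp (hu2.comp Primrec.fst)) Primrec.snd
  · exact Primrec.option_map hy3 (primrec_box.comp Primrec.snd)

theorem computable_axO {f : Fm → Bool} (hf : Computable f) : Computable (axO f) := by
  unfold axO
  exact Computable.cond (hf.comp primrec_ofCode.to_comp)
    (Computable.option_some.comp primrec_ofCode.to_comp) (Computable.const none)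

theorem computable_DStep {f : Fm → Bool} (hf : Computable f) : Computable₂ (DStep f) := by
  classical
  have hlen : Primrec fun L : List (Option Fm) => L.length := Primrec.list_length
  have hlen1 : Primrec fun L : List (Option Fm) => L.length - 1 :=
    Primrec.nat_sub.comp hlen (Primrec.const 1)
  have hd : Primrec fun L : List (Option Fm) => (L.length - 1) / 8 :=
    Primrec.nat_div.comp hlen1 (Primrec.const 8)
  have hm : Primrec fun L : List (Option Fm) => (L.length - 1) % 8 :=
    Primrec.nat_mod.comp hlen1 (Primrec.const 8)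
  have hget : ∀ {k : List (Option Fm) → ℕ}, Primrec k →
      Primrec fun L : List (Option Fm) => L.getD (k L) none :=
    fun hk => (Primrec.list_getD none).comp Primrec.id hk
  -- a primitive recursive function of `(axO f k, L)`
  have hG : Primrec fun p : Option Fm × List (Option Fm) =>
      (some (if p.2.length = 0 then none
        else G p.1 ((p.2.length - 1) % 8) ((p.2.length - 1) / 8)
          (p.2.getD ((p.2.length - 1) / 8).unpair.1 none)
          (p.2.getD ((p.2.length - 1) / 8).unpair.2 none)
          (p.2.getD ((p.2.length - 1) / 8) none)) : Option (Option Fm)) := by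
    refine Primrec.option_some.comp ?_
    refine Primrec.ite (Primrec.eq.comp (hlen.comp Primrec.snd) (Primrec.const 0))
      (Primrec.const none) ?_
    exact primrec_G.comp (Primrec.pair Primrec.fst (Primrec.pair (hm.comp Primrec.snd)
      (Primrec.pair (hd.comp Primrec.snd) (Primrec.pair
        ((hget (Primrec.fst.comp (Primrec.unpair.comp hd))).comp Primrec.snd)
        (Primrec.pair ((hget (Primrec.snd.comp (Primrec.unpair.comp hd))).comp Primrec.snd)
          ((hget hd).comp Primrec.snd))))))
  have hx : Computable fun q : Unit × List (Option Fm) => axO f ((q.2.length - 1) / 8) :=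
    (computable_axO hf).comp (hd.to_comp.comp Computable.snd)
  exact hG.to_comp.comp (Computable.pair hx Computable.snd)

theorem computable_D {f : Fm → Bool} (hf : Computable f) : Computable (D f) := by
  have h : Computable₂ fun (_ : Unit) (c : ℕ) => D f c :=
    Computable.nat_strong_rec (fun (_ : Unit) (c : ℕ) => D f c) (computable_DStep hf)
      (DStep_spec f)
  exact h.comp (Computable.const ()) Computable.id

theorem D_code (f : Fm → Bool) (r k : ℕ) (hr : r < 8) :
    D f (8 * k + r + 1) =
      G (axO f k) r k (D f k.unpair.1) (D f k.unpair.2) (D f k) := by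
  have h1 : (8 * k + r) % 8 = r := by omega
  have h2 : (8 * k + r) / 8 = k := by omega
  rw [D, h1, h2]

theorem complete {Γ : Set Fm} {f : Fm → Bool} (hf : ∀ φ, φ ∈ Γ → f φ = true) {φ : Fm}
    (h : Derives Γ φ) : ∃ c, D f c = some φ := by
  induction h with
  | ax a ha =>
    refine ⟨8 * a.code + 0 + 1, ?_⟩
    rw [D_code f 0 _ (by norm_num)]
    simp [G, axO, ofCode_code, hf a ha]
  | k1 a b =>
    refine ⟨8 * Nat.pair a.code b.code + 1 + 1, ?_⟩
    rw [D_code f 1 _ (by norm_num)]
    simp [G, ofCode_code]
  | k2 a b c =>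
    refine ⟨8 * Nat.pair a.code (Nat.pair b.code c.code) + 2 + 1, ?_⟩
    rw [D_code f 2 _ (by norm_num)]
    simp [G, ofCode_code]
  | k3 a =>
    refine ⟨8 * a.code + 3 + 1, ?_⟩
    rw [D_code f 3 _ (by norm_num)]
    simp [G, ofCode_code]
  | kbox a b =>
    refine ⟨8 * Nat.pair a.code b.code + 4 + 1, ?_⟩
    rw [D_code f 4 _ (by norm_num)]
    simp [G, ofCode_code]
  | mp a b _ _ h1 h2 =>
    obtain ⟨c1, h1⟩ := h1
    obtain ⟨c2, h2⟩ := h2
    refine ⟨8 * Nat.pair c1 c2 + 5 + 1, ?_⟩
    rw [D_code f 5 _ (by norm_num)]
    simp [G, h1, h2, mpO_imp]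
  | sub a σ _ h1 =>
    obtain ⟨c1, h1⟩ := h1
    refine ⟨8 * Nat.pair c1 (Encodable.encode ((List.range (a.code + 1)).map σ)) + 6 + 1, ?_⟩
    rw [D_code f 6 _ (by norm_num)]
    have := subst_list σ a
    simp only [G, Nat.unpair_pair, h1, Denumerable.ofNat_encode, Option.map_some, this]
    simp
  | nec a _ h1 =>
    obtain ⟨c1, h1⟩ := h1
    refine ⟨8 * c1 + 7 + 1, ?_⟩
    rw [D_code f 7 _ (by norm_num)]
    simp [G, h1]

theorem sound {Γ : Set Fm} {f : Fm → Bool} (hf : ∀ φ, f φ = true → φ ∈ Γ) (c : ℕ) :
    ∀ φ, D f c = some φ → Derives Γ φ := by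
  induction c using Nat.strong_induction_on with
  | _ c ih =>
    intro φ h
    cases c with
    | zero => rw [D] at h; exact absurd h (by simp)
    | succ k =>
      rw [D, G] at h
      have i1 := ih _ (dlt1 k)
      have i2 := ih _ (dlt2 k)
      have i3 := ih _ (dlt3 k)
      split_ifs at h
      · unfold axO at h
        cases hfa : f (ofCode (k / 8)) with
        | false => rw [hfa] at h; exact absurd h (by simp)
        | true =>
          rw [hfa] at h
          simp only [cond_true, Option.some.injEq] at h
          rw [← h]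
          exact Derives.ax _ (hf _ hfa)
      · rw [← Option.some.inj h]; exact Derives.k1 _ _
      · rw [← Option.some.inj h]; exact Derives.k2 _ _ _
      · rw [← Option.some.inj h]; exact Derives.k3 _
      · rw [← Option.some.inj h]; exact Derives.kbox _ _
      · obtain ⟨a, h1, h2⟩ := mpO_some h
        exact Derives.mp a φ (i1 _ h1) (i2 _ h2)
      · obtain ⟨a, h1, h2⟩ := Option.map_eq_some_iff.1 h
        rw [← h2]
        exact Derives.sub a _ (i1 _ h1)
      · obtain ⟨a, h1, h2⟩ := Option.map_eq_some_iff.1 h
        rw [← h2]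
        exact Derives.nec a (i3 _ h1)

theorem derives_re (Γ : Set Fm) (hΓ : ComputablePred fun φ : Fm => φ ∈ Γ) :
    REPred fun φ : Fm => Derives Γ φ := by
  classical
  obtain ⟨f, hf, he⟩ := ComputablePred.computable_iff.1 hΓ
  have he' : ∀ φ, φ ∈ Γ ↔ f φ = true := fun φ => by
    have := congrFun he φ
    simp only [eq_iff_iff] at this
    exact this
  have hc : Computable₂ fun (φ : Fm) (c : ℕ) => decide (D f c = some φ) := by
    have hd : Primrec fun p : Option Fm × Option Fm => decide (p.1 = p.2) :=
      PrimrecPred.decide (Primrec.eq (α := Option Fm))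
    exact hd.to_comp.comp (Computable.pair ((computable_D hf).comp Computable.snd)
      (Computable.option_some.comp Computable.fst))
  have hp : Partrec fun φ : Fm => Nat.rfind fun c => Part.some (decide (D f c = some φ)) :=
    Partrec.rfind (Computable₂.partrec₂ hc)
  refine hp.dom_re.of_eq fun φ => ?_
  constructor
  · intro h
    obtain ⟨N, hN⟩ := Part.dom_iff_mem.1 h
    have := Nat.rfind_spec hN
    simp only [Part.mem_some_iff] at this
    exact sound (fun ψ hψ => (he' ψ).2 hψ) N φ (of_decide_eq_true this.symm)
  · intro h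
    obtain ⟨N, hN⟩ := complete (fun ψ hψ => (he' ψ).1 hψ) h
    refine Nat.rfind_dom'.2 ⟨N, ?_, fun _ => trivial⟩
    simp only [Part.mem_some_iff]
    exact (decide_eq_true hN).symm

end Pool.Agent.H510.DR
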