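import Mathlib
set_option autoImplicit false

/-! Job A: holonomy of the stepped surface of a finite down-set `E0 ⊆ ℕ³` is trivial. -/

namespace Pool.Agent.H510.JA

/-- the abstract sheet lemma -/
theorem sheet {G : Type} [Group G] (R N : ℕ → ℕ → Prop) (Bh Bv f : ℕ → ℕ → G) (Ha Hb : ℕ → G)
    (Rd : ∀ i j i' j', i' ≤ i → j' ≤ j → R i j → R i' j')
    (RN : ∀ i j, R i j → N (i + 1) (j + 1))
    (sq : ∀ i j, R i j → Bh i j * Bv (i + 1) j = Bv i j * Bh i (j + 1))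
    (fh : ∀ i j, ¬ R i j → N (i + 1) j → Bh i j = (f i j)⁻¹ * f (i + 1) j)
    (fv : ∀ i j, ¬ R i j → N i (j + 1) → Bv i j = (f i j)⁻¹ * f i (j + 1))
    (Ha0 : Ha 0 = 1) (Has : ∀ i, Ha (i + 1) = Ha i * Bh i 0)
    (Hb0 : Hb 0 = 1) (Hbs : ∀ j, Hb (j + 1) = Hb j * Bv 0 j)
    (na nb : ℕ) (ha1 : ¬ R na 0) (ha2 : ∀ i < na, R i 0) (hb1 : ¬ R 0 nb) (hb2 : ∀ j < nb, R 0 j) :
    Ha na * (f na 0)⁻¹ = Hb nb * (f 0 nb)⁻¹ := by
  classical
  obtain ⟨H, H0, Hs⟩ : ∃ H : ℕ → ℕ → G, (∀ j, H 0 j = Hb j) ∧ (∀ i j, H (i + 1) j = H i j * Bh i j) :=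
    ⟨fun i j => Nat.rec (Hb j) (fun i h => h * Bh i j) i, fun j => rfl, fun i j => rfl⟩
  have HA : ∀ i, H i 0 = Ha i := by
    intro i
    induction i with
    | zero => rw [H0, Hb0, Ha0]
    | succ i ih => rw [Hs, ih, Has]
  have V : ∀ j i, (∀ i' < i, R i' j) → H i j * Bv i j = H i (j + 1) := by
    intro j i
    induction i with
    | zero => intro _; rw [H0, H0, Hbs]
    | succ i ih =>
      intro h
      have h1 := ih fun i' hi' => h i' (by omega)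
      have h2 := sq i j (h i (by omega))
      rw [Hs, mul_assoc, h2, ← mul_assoc, h1, Hs]
  have key : ∀ j, j ≤ nb → ∀ i, ¬ R i j → (∀ i' < i, R i' j) →
      H i j * (f i j)⁻¹ = Ha na * (f na 0)⁻¹ := by
    intro j
    induction j with
    | zero =>
      intro _ i hi1 hi2
      have : i = na := by
        rcases lt_trichotomy i na with h | h | h
        · exact absurd (ha2 i h) hi1
        · exact h
        · exact absurd (hi2 na h) ha1
      rw [this, HA]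
    | succ j ih =>
      intro hj i hi1 hi2
      have hex : ∃ r, ¬ R r j := ⟨na, fun h => ha1 (Rd na j na 0 le_rfl (Nat.zero_le _) h)⟩
      obtain ⟨r, hr1, hr2⟩ : ∃ r, ¬ R r j ∧ ∀ i' < r, R i' j :=
        ⟨Nat.find hex, Nat.find_spec hex, fun i' hi' => by
          have := Nat.find_min hex hi'
          push Not at this
          exact this⟩
      have h1 := ih (by omega) r hr1 hr2
      have hr0 : r ≠ 0 := by
        rintro rfl
        exact hr1 (hb2 j (by omega))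
      have hir : i ≤ r := by
        by_contra hcon
        push Not at hcon
        exact hr1 (Rd r (j + 1) r j le_rfl (Nat.le_succ _) (hi2 r hcon))
      obtain ⟨r', rfl⟩ := Nat.exists_eq_succ_of_ne_zero hr0
      have h2 := V j (r' + 1) hr2
      have h3 := fv (r' + 1) j hr1 (RN r' j (hr2 r' (Nat.lt_succ_self _)))
      have h4 : H (r' + 1) (j + 1) * (f (r' + 1) (j + 1))⁻¹ = H (r' + 1) j * (f (r' + 1) j)⁻¹ := by
        rw [← h2, h3]; group
      have h5 : ∀ k, i + k ≤ r' + 1 →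
          H (i + k) (j + 1) * (f (i + k) (j + 1))⁻¹ = H i (j + 1) * (f i (j + 1))⁻¹ := by
        intro k
        induction k with
        | zero => intro _; rfl
        | succ k ihk =>
          intro hk
          have h6 := ihk (by omega)
          have h7 : ¬ R (i + k) (j + 1) := fun h => hi1 (Rd _ _ _ _ (Nat.le_add_right _ _) le_rfl h)
          have h8 := fh (i + k) (j + 1) h7 (RN (i + k) j (hr2 (i + k) (by omega)))
          rw [← h6]
          show H (i + k + 1) (j + 1) * (f (i + k + 1) (j + 1))⁻¹ = _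
          rw [Hs, h8]; group
      obtain ⟨k, hk⟩ := Nat.exists_eq_add_of_le hir
      have h9 := h5 k (by omega)
      rw [← h9, ← hk, ← h1, ← h4]
  have h := key nb le_rfl 0 hb1 (fun i' hi' => absurd hi' (Nat.not_lt_zero _))
  rw [← h, H0]

theorem le3 (p q : ℕ × ℕ × ℕ) : p ≤ q ↔ p.1 ≤ q.1 ∧ p.2.1 ≤ q.2.1 ∧ p.2.2 ≤ q.2.2 := by
  rw [Prod.le_def, Prod.le_def]

theorem core {G : Type} [Group G] (E0 E3 : ℕ × ℕ × ℕ → Prop)
    (d0 : ∀ x y, x ≤ y → E0 y → E0 x) (d3 : ∀ x y, x ≤ y → E3 y → E3 x)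
    (h111 : ∀ x, E0 x → E3 (x + (1, 1, 1)))
    (Bd : ℕ) (hb : ∀ x, E3 x → x.1 < Bd ∧ x.2.1 < Bd ∧ x.2.2 < Bd)
    (h0 : E0 0)
    (A : ℕ × ℕ × ℕ → ℕ × ℕ × ℕ → G)
    (hA : ∀ m x y z, E3 m → ¬ E0 m → E3 x → E3 y → E3 z → m ≤ x → m ≤ y → m ≤ z →
      A x y * A y z = A x z)
    (h01 : ∀ m x y, E3 m → ¬ E0 m → E3 x → E3 y → m ≤ x → m ≤ y → (m.1 = 0 ∨ m.2.1 = 0) →
      A x y = 1)
    (F : ℕ × ℕ × ℕ → G)
    (h2 : ∀ m x y, E3 m → ¬ E0 m → E3 x → E3 y → m ≤ x → m ≤ y → m.2.2 = 0 →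
      A x y = (F x)⁻¹ * F y)
    (w : G) (hF0 : ∀ i, E3 (i, 0, 0) → ¬ E0 (i, 0, 0) → F (i, 0, 0) = 1)
    (hF1 : ∀ j, E3 (0, j, 0) → ¬ E0 (0, j, 0) → F (0, j, 0) = w) : w = 1 := by
  classical
  have hex : ∀ p : ℕ × ℕ × ℕ, ∃ t : ℕ, ¬ E0 (p + (t, t, t)) := fun p => ⟨Bd, fun h => by
    have h1 := (hb _ (h111 _ h)).1
    simp only [Prod.fst_add] at h1
    omega⟩
  obtain ⟨t, ht1, ht2⟩ : ∃ t : ℕ × ℕ × ℕ → ℕ, (∀ p, ¬ E0 (p + (t p, t p, t p))) ∧
      (∀ p k, ¬ E0 (p + (k, k, k)) → t p ≤ k) :=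
    ⟨fun p => Nat.find (hex p), fun p => Nat.find_spec (hex p), fun p k hk => Nat.find_min' (hex p) hk⟩
  obtain ⟨s, hs⟩ : ∃ s : ℕ × ℕ × ℕ → ℕ × ℕ × ℕ, ∀ p, s p = p + (t p, t p, t p) := ⟨_, fun _ => rfl⟩
  have hz : ∀ p : ℕ × ℕ × ℕ, p + (0, 0, 0) = p := fun p => add_zero p
  have hs0 : ∀ p, ¬ E0 (s p) := fun p => by rw [hs]; exact ht1 p
  have hsid : ∀ p, ¬ E0 p → s p = p := by
    intro p hp
    have h1 : t p = 0 := by
      have := ht2 p 0 (by rw [hz]; exact hp)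
      omega
    rw [hs, h1, hz]
  have hs3 : ∀ p, E3 p → E3 (s p) := by
    intro p hp
    rcases Nat.eq_zero_or_pos (t p) with h | h
    · rw [hs, h, hz]
      exact hp
    · obtain ⟨k, hk⟩ := Nat.exists_eq_succ_of_ne_zero h.ne'
      have h1 : E0 (p + (k, k, k)) := by
        by_contra hcon
        have := ht2 p k hcon
        omega
      have h3 := h111 _ h1
      rw [hs, hk]
      have e : p + (k.succ, k.succ, k.succ) = p + (k, k, k) + (1, 1, 1) := by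
        ext <;> simp <;> omega
      rw [e]
      exact h3
  have tmono : ∀ p q, p ≤ q → t q ≤ t p := by
    intro p q hpq
    refine ht2 q (t p) fun h => ht1 p (d0 _ _ ?_ h)
    exact add_le_add_left hpq _
  have tstep : ∀ p q, q ≤ p + (1, 1, 1) → t p ≤ t q + 1 := by
    intro p q hpq
    refine ht2 p (t q + 1) fun h => ht1 q (d0 _ _ ?_ h)
    rw [le3] at hpq ⊢
    simp only [Prod.fst_add, Prod.snd_add] at hpq ⊢
    omega
  have three : ∀ p q r, p ≤ q → q ≤ r → r ≤ p + (1, 1, 1) → E3 r →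
      A (s p) (s q) * A (s q) (s r) = A (s p) (s r) := by
    intro p q r hpq hqr hrp hr
    have hq3 := d3 q r hqr hr
    have hp3 := d3 p q hpq hq3
    have a1 := tmono p q hpq
    have a2 := tmono q r hqr
    have a3 := tstep p r hrp
    have hp' := hs p
    have hq' := hs q
    have hr' := hs r
    rw [le3] at hpq hqr hrp
    simp only [Prod.fst_add, Prod.snd_add] at hpq hqr hrp
    by_cases c1 : t p = t r
    · refine hA (s p) _ _ _ (hs3 p hp3) (hs0 p) (hs3 p hp3) (hs3 q hq3) (hs3 r hr) le_rfl ?_ ?_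
      · rw [hp', hq', le3]
        simp only [Prod.fst_add, Prod.snd_add]
        omega
      · rw [hp', hr', le3]
        simp only [Prod.fst_add, Prod.snd_add]
        omega
    by_cases c2 : t q = t r
    · refine hA (s q) _ _ _ (hs3 q hq3) (hs0 q) (hs3 p hp3) (hs3 q hq3) (hs3 r hr) ?_ le_rfl ?_
      · rw [hp', hq', le3]
        simp only [Prod.fst_add, Prod.snd_add]
        omega
      · rw [hq', hr', le3]
        simp only [Prod.fst_add, Prod.snd_add]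
        omega
    · refine hA (s r) _ _ _ (hs3 r hr) (hs0 r) (hs3 p hp3) (hs3 q hq3) (hs3 r hr) ?_ ?_ le_rfl
      · rw [hp', hr', le3]
        simp only [Prod.fst_add, Prod.snd_add]
        omega
      · rw [hq', hr', le3]
        simp only [Prod.fst_add, Prod.snd_add]
        omega
  -- products along a sequence of points
  obtain ⟨C, hC0, hCs⟩ : ∃ C : (ℕ → ℕ × ℕ × ℕ) → ℕ → G, (∀ a, C a 0 = 1) ∧
      (∀ a n, C a (n + 1) = C a n * A (s (a n)) (s (a (n + 1)))) :=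
    ⟨fun a n => Nat.rec 1 (fun n h => h * A (s (a n)) (s (a (n + 1)))) n, fun a => rfl, fun a n => rfl⟩
  have app : ∀ (P : ℕ → ℕ → ℕ × ℕ × ℕ) (f : ℕ → ℕ → G),
      (∀ i j i' j', i' ≤ i → j' ≤ j → P i' j' ≤ P i j) →
      (∀ i j, P (i + 1) (j + 1) ≤ P i j + (1, 1, 1)) →
      (∀ i j, ¬ E0 (P i j) → E3 (P (i + 1) j) → A (P i j) (P (i + 1) j) = (f i j)⁻¹ * f (i + 1) j) →
      (∀ i j, ¬ E0 (P i j) → E3 (P i (j + 1)) → A (P i j) (P i (j + 1)) = (f i j)⁻¹ * f i (j + 1)) →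
      ∀ na nb, ¬ E0 (P na 0) → (∀ i < na, E0 (P i 0)) → ¬ E0 (P 0 nb) → (∀ j < nb, E0 (P 0 j)) →
      C (fun i => P i 0) na * (f na 0)⁻¹ = C (fun j => P 0 j) nb * (f 0 nb)⁻¹ := by
    intro P f hPm hst hf1 hf2 na nb ha1 ha2 hb1 hb2
    refine sheet (fun i j => E0 (P i j)) (fun i j => E3 (P i j))
      (fun i j => A (s (P i j)) (s (P (i + 1) j))) (fun i j => A (s (P i j)) (s (P i (j + 1)))) f
      (C fun i => P i 0) (C fun j => P 0 j) ?_ ?_ ?_ ?_ ?_ (hC0 _) (hCs _) (hC0 _) (hCs _) na nb ha1 ha2 hb1 hb2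
    · intro i j i' j' hi hj h
      exact d0 _ _ (hPm i j i' j' hi hj) h
    · intro i j h
      exact d3 _ _ (hst i j) (h111 _ h)
    · intro i j h
      have h3 : E3 (P (i + 1) (j + 1)) := d3 _ _ (hst i j) (h111 _ h)
      have e1 := three (P i j) (P (i + 1) j) (P (i + 1) (j + 1))
        (hPm _ _ _ _ (Nat.le_succ _) le_rfl) (hPm _ _ _ _ le_rfl (Nat.le_succ _)) (hst i j) h3
      have e2 := three (P i j) (P i (j + 1)) (P (i + 1) (j + 1))
        (hPm _ _ _ _ le_rfl (Nat.le_succ _)) (hPm _ _ _ _ (Nat.le_succ _) le_rfl) (hst i j) h3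
      exact e1.trans e2.symm
    · intro i j h h3
      have h' : ¬ E0 (P (i + 1) j) := fun hh => h (d0 _ _ (hPm _ _ _ _ (Nat.le_succ _) le_rfl) hh)
      show A (s (P i j)) (s (P (i + 1) j)) = _
      rw [hsid _ h, hsid _ h']
      exact hf1 i j h h3
    · intro i j h h3
      have h' : ¬ E0 (P i (j + 1)) := fun hh => h (d0 _ _ (hPm _ _ _ _ le_rfl (Nat.le_succ _)) hh)
      show A (s (P i j)) (s (P i (j + 1))) = _
      rw [hsid _ h, hsid _ h']
      exact hf2 i j h h3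
  -- the lengths of the axes
  have axex : ∀ a : ℕ → ℕ × ℕ × ℕ, (∀ n, n ≤ (a n).1 ∨ n ≤ (a n).2.1 ∨ n ≤ (a n).2.2) →
      ∃ n, ¬ E0 (a n) ∧ ∀ i < n, E0 (a i) := by
    intro a ha
    have h1 : ∃ n, ¬ E0 (a n) := ⟨Bd, fun h => by
      have h2 := hb _ (h111 _ h)
      simp only [Prod.fst_add, Prod.snd_add] at h2
      have h3 := ha Bd
      omega⟩
    refine ⟨Nat.find h1, Nat.find_spec h1, fun i hi => ?_⟩
    have := Nat.find_min h1 hi
    push Not at this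
    exact this
  obtain ⟨n0, hn0, hn0'⟩ := axex (fun i => (i, 0, 0)) (fun n => Or.inl le_rfl)
  obtain ⟨n1, hn1, hn1'⟩ := axex (fun i => (0, i, 0)) (fun n => Or.inr (Or.inl le_rfl))
  obtain ⟨n2, hn2, hn2'⟩ := axex (fun i => (0, 0, i)) (fun n => Or.inr (Or.inr le_rfl))
  have S01 := app (fun i j => (i, j, 0)) (fun i j => F (i, j, 0))
    (fun i j i' j' hi hj => by rw [le3]; exact ⟨hi, hj, le_rfl⟩)
    (fun i j => by rw [le3]; simp)
    (fun i j h h3 => by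
      have hle : ((i, j, 0) : ℕ × ℕ × ℕ) ≤ (i + 1, j, 0) := by rw [le3]; simp
      exact h2 (i, j, 0) _ _ (d3 _ _ hle h3) h (d3 _ _ hle h3) h3 le_rfl hle rfl)
    (fun i j h h3 => by
      have hle : ((i, j, 0) : ℕ × ℕ × ℕ) ≤ (i, j + 1, 0) := by rw [le3]; simp
      exact h2 (i, j, 0) _ _ (d3 _ _ hle h3) h (d3 _ _ hle h3) h3 le_rfl hle rfl)
    n0 n1 hn0 hn0' hn1 hn1'
  have S12 := app (fun i j => (0, i, j)) (fun _ _ => 1)
    (fun i j i' j' hi hj => by rw [le3]; exact ⟨le_rfl, hi, hj⟩)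
    (fun i j => by rw [le3]; simp)
    (fun i j h h3 => by
      have hle : ((0, i, j) : ℕ × ℕ × ℕ) ≤ (0, i + 1, j) := by rw [le3]; simp
      rw [inv_one, one_mul]
      exact h01 (0, i, j) _ _ (d3 _ _ hle h3) h (d3 _ _ hle h3) h3 le_rfl hle (Or.inl rfl))
    (fun i j h h3 => by
      have hle : ((0, i, j) : ℕ × ℕ × ℕ) ≤ (0, i, j + 1) := by rw [le3]; simp
      rw [inv_one, one_mul]
      exact h01 (0, i, j) _ _ (d3 _ _ hle h3) h (d3 _ _ hle h3) h3 le_rfl hle (Or.inl rfl))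
    n1 n2 hn1 hn1' hn2 hn2'
  have S20 := app (fun i j => (j, 0, i)) (fun _ _ => 1)
    (fun i j i' j' hi hj => by rw [le3]; exact ⟨hj, le_rfl, hi⟩)
    (fun i j => by rw [le3]; simp)
    (fun i j h h3 => by
      have hle : ((j, 0, i) : ℕ × ℕ × ℕ) ≤ (j, 0, i + 1) := by rw [le3]; simp
      rw [inv_one, one_mul]
      exact h01 (j, 0, i) _ _ (d3 _ _ hle h3) h (d3 _ _ hle h3) h3 le_rfl hle (Or.inr rfl))
    (fun i j h h3 => by
      have hle : ((j, 0, i) : ℕ × ℕ × ℕ) ≤ (j + 1, 0, i) := by rw [le3]; simp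
      rw [inv_one, one_mul]
      exact h01 (j, 0, i) _ _ (d3 _ _ hle h3) h (d3 _ _ hle h3) h3 le_rfl hle (Or.inr rfl))
    n2 n0 hn2 hn2' hn0 hn0'
  have hpos : ∀ a : ℕ → ℕ × ℕ × ℕ, a 0 = 0 → (∀ n, a (n + 1) ≤ a n + (1, 1, 1)) → ∀ n, ¬ E0 (a n) →
      (∀ i < n, E0 (a i)) → E3 (a n) := by
    intro a ha0 has n hn hn'
    rcases Nat.eq_zero_or_pos n with h | h
    · rw [h, ha0] at hn
      exact absurd h0 hn
    · obtain ⟨k, rfl⟩ := Nat.exists_eq_succ_of_ne_zero h.ne'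
      exact d3 _ _ (has k) (h111 _ (hn' k (Nat.lt_succ_self _)))
  have e0 : F (n0, 0, 0) = 1 := hF0 n0 (hpos (fun i => (i, 0, 0)) rfl (fun n => by rw [le3]; simp) n0 hn0 hn0') hn0
  have e1 : F (0, n1, 0) = w := hF1 n1 (hpos (fun i => (0, i, 0)) rfl (fun n => by rw [le3]; simp) n1 hn1 hn1') hn1
  simp only [e0, e1, inv_one, mul_one] at S01 S12 S20
  rw [S12, S20] at S01
  have h9 : w⁻¹ = 1 := by
    have := S01.symm
    exact mul_eq_left.1 this
  exact inv_eq_one.1 h9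

end Pool.Agent.H510.JA
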