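-- corner proved; statement unchanged; no extra lemmas
import Mathlib
set_option autoImplicit false

/-
PROOF. Let O = {x | x sees o}. J(x) = {i | for all k, x + k e_i in O}. J is antitone. Choose x >= x0 in O with |J(x)| minimal, J := J(x). For y >= x in O: J(y) = J.
Hence y in O, y >= x implies y + k e_i in O for i in J, so y + (any vector supported in J) in O (induction).  For j not in J there is k_j with x + k_j e_j not in O, so the j-th coordinates
of the points of O above x are bounded. Choose y in O, y >= x, with sum over j not in J of y_j maximal.  y in O; let y' >= y be a point labelled o; then y' in O and so y'_j = y_j for j not in J; y' is also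
maximal, so replace y by y' (so o y).  By h2 there are z_a >= y labelled al a; z_a not in O (h4).  z_a is not in y + N^J, so z_a >= y + e_{j(a)} for some j(a) not in J; y + e_{j(a)} is not in O
by maximality of the sum. By h3 a -> j(a) is injective. So |complement of J| >= n, J empty, j is a bijection, and y is a maximal point: no y + e_i is in O.  m0 = y, pi = j.
-/

namespace Pool.Agent.H510.JB

/-- Let `O` be the down-set of the points which see a point labelled `o`. -/
theorem corner {n : ℕ} (o : (Fin n → ℕ) → Prop) (al : Fin n → (Fin n → ℕ) → Prop)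
    (x0 : Fin n → ℕ) (ho : o x0)
    (h2 : ∀ x, x0 ≤ x → o x → ∀ a, ∃ y, x ≤ y ∧ al a y)
    (h3 : ∀ x, x0 ≤ x → (¬ ∃ y, x ≤ y ∧ o y) →
      ∀ a b, (∃ y, x ≤ y ∧ al a y) → (∃ y, x ≤ y ∧ al b y) → a = b)
    (h4 : ∀ x, x0 ≤ x → ∀ a, al a x → ¬ ∃ y, x ≤ y ∧ o y) :
    ∃ (m0 : Fin n → ℕ) (π : Fin n ≃ Fin n), x0 ≤ m0 ∧ o m0 ∧
      (∀ i, ¬ ∃ y, m0 + Pi.single i 1 ≤ y ∧ o y) ∧
      (∀ a, ∃ y, m0 + Pi.single (π a) 1 ≤ y ∧ al a y) := by
  classical
  set O : (Fin n → ℕ) → Prop := fun x => ∃ y, x ≤ y ∧ o y with hO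
  have Odown : ∀ x x', x ≤ x' → O x' → O x := fun x x' h ⟨y, hy, hoy⟩ => ⟨y, h.trans hy, hoy⟩
  let J : (Fin n → ℕ) → Finset (Fin n) := fun x =>
    Finset.univ.filter fun i => ∀ k : ℕ, O (x + Pi.single i k)
  have memJ : ∀ x i, i ∈ J x ↔ ∀ k : ℕ, O (x + Pi.single i k) := by
    intro x i
    simp [J]
  have Janti : ∀ x x', x ≤ x' → J x' ⊆ J x := by
    intro x x' h i hi
    rw [memJ] at hi ⊢
    intro k
    exact Odown _ _ (add_le_add h le_rfl) (hi k)
  have hne : ∃ m : ℕ, ∃ x, x0 ≤ x ∧ O x ∧ (J x).card = m :=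
    ⟨_, x0, le_rfl, ⟨x0, le_rfl, ho⟩, rfl⟩
  obtain ⟨x, hx0, hOx, hxm⟩ := Nat.find_spec hne
  have hmin : ∀ y, x0 ≤ y → O y → (J x).card ≤ (J y).card := by
    intro y hy hOy
    rw [hxm]
    exact Nat.find_min' hne ⟨y, hy, hOy, rfl⟩
  have hJ : ∀ y, x ≤ y → O y → J y = J x := fun y hy hOy =>
    Finset.eq_of_subset_of_card_le (Janti _ _ hy) (hmin y (hx0.trans hy) hOy)
  have claimA : ∀ s : ℕ, ∀ y z : Fin n → ℕ, x ≤ y → O y → y ≤ z →
      (∀ j, j ∉ J x → z j = y j) → ∑ i, z i = ∑ i, y i + s → O z := by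
    intro s
    induction s with
    | zero =>
      intro y z hxy hOy hyz _ hsum
      have hzy : z = y := by
        funext i
        by_contra hne
        have h1 : y i < z i := lt_of_le_of_ne (hyz i) (Ne.symm hne)
        have h2 : ∑ i, y i < ∑ i, z i :=
          Finset.sum_lt_sum (fun i _ => hyz i) ⟨i, Finset.mem_univ _, h1⟩
        omega
      rw [hzy]
      exact hOy
    | succ s ih =>
      intro y z hxy hOy hyz hj hsum
      obtain ⟨i, hi⟩ : ∃ i, y i < z i := by
        by_contra hcon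
        push Not at hcon
        have h2 : ∑ i, z i ≤ ∑ i, y i := Finset.sum_le_sum fun i _ => hcon i
        omega
      have hiJ : i ∈ J x := by
        by_contra h
        have := hj i h
        omega
      obtain ⟨z', hz'⟩ : ∃ z' : Fin n → ℕ, z = z' + Pi.single i 1 := by
        refine ⟨Function.update z i (z i - 1), ?_⟩
        funext l
        by_cases hl : l = i
        · subst hl
          simp only [Pi.add_apply, Function.update_self, Pi.single_eq_same]
          omega
        · simp [Function.update_of_ne hl, Pi.single_eq_of_ne hl]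
      have hzl : ∀ l, z l = z' l + (Pi.single i 1 : Fin n → ℕ) l := fun l => by
        rw [hz']
        rfl
      have hyz' : y ≤ z' := by
        intro l
        show y l ≤ z' l
        have h3 := hzl l
        have h4 : y l ≤ z l := hyz l
        by_cases hl : l = i
        · subst hl
          rw [Pi.single_eq_same] at h3
          omega
        · rw [Pi.single_eq_of_ne hl] at h3
          omega
      have hsum' : ∑ l, z' l = ∑ l, y l + s := by
        have h3 : ∑ l, z l = ∑ l, z' l + 1 := by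
          simp only [hzl, Finset.sum_add_distrib]
          rw [Finset.sum_pi_single']
          simp
        omega
      have hOz' : O z' := by
        refine ih y z' hxy hOy hyz' (fun j hjJ => ?_) hsum'
        have h3 := hzl j
        have h4 := hj j hjJ
        have hji : j ≠ i := fun h => hjJ (h ▸ hiJ)
        rw [Pi.single_eq_of_ne hji] at h3
        omega
      have h1 : i ∈ J z' := by
        rw [hJ z' (hxy.trans hyz') hOz']
        exact hiJ
      rw [memJ] at h1
      rw [hz']
      exact h1 1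
  have hk : ∀ j, ∃ k : ℕ, j ∉ J x → ¬ O (x + Pi.single j k) := by
    intro j
    by_cases h : j ∈ J x
    · exact ⟨0, fun h' => absurd h h'⟩
    · have h' := h
      rw [memJ] at h'
      push Not at h'
      obtain ⟨k, hk⟩ := h'
      exact ⟨k, fun _ => hk⟩
  choose kk hkk using hk
  let T : Set ℕ := {m | ∃ y, x ≤ y ∧ O y ∧ ∑ j ∈ (J x)ᶜ, y j = m}
  have hTne : T.Nonempty := ⟨_, x, le_rfl, hOx, rfl⟩
  have hTb : BddAbove T := by
    refine ⟨∑ j ∈ (J x)ᶜ, (x j + kk j), ?_⟩
    rintro m ⟨y, hxy, hOy, rfl⟩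
    refine Finset.sum_le_sum fun j hj => ?_
    rw [Finset.mem_compl] at hj
    by_contra hcon
    push Not at hcon
    refine hkk j hj (Odown _ y ?_ hOy)
    intro l
    by_cases hl : l = j
    · subst hl
      rw [Pi.add_apply, Pi.single_eq_same]
      show x l + kk l ≤ y l
      omega
    · rw [Pi.add_apply, Pi.single_eq_of_ne hl]
      exact hxy l
  obtain ⟨y1, hxy1, hOy1, hym1⟩ := Nat.sSup_mem hTne hTb
  have hmax : ∀ y', x ≤ y' → O y' → ∑ j ∈ (J x)ᶜ, y' j ≤ sSup T := fun y' h1 h2 =>
    le_csSup hTb ⟨y', h1, h2, rfl⟩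
  obtain ⟨y, hy1y, hoy⟩ := hOy1
  have hxy : x ≤ y := hxy1.trans hy1y
  have hOy : O y := ⟨y, le_rfl, hoy⟩
  have hym : sSup T ≤ ∑ j ∈ (J x)ᶜ, y j := by
    rw [← hym1]
    exact Finset.sum_le_sum fun j _ => hy1y j
  have hx0y : x0 ≤ y := hx0.trans hxy
  have hle1 : ∀ j, y ≤ y + Pi.single j 1 := fun j l => Nat.le_add_right _ _
  have hup : ∀ j, j ∉ J x → ¬ O (y + Pi.single j 1) := by
    intro j hj hOj
    have h1 := hmax (y + Pi.single j 1) (hxy.trans (hle1 j)) hOj
    have h2 : ∑ l ∈ (J x)ᶜ, (y + Pi.single j 1 : Fin n → ℕ) l = ∑ l ∈ (J x)ᶜ, y l + 1 := by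
      simp only [Pi.add_apply, Finset.sum_add_distrib]
      rw [Finset.sum_pi_single', if_pos (Finset.mem_compl.2 hj)]
    omega
  have hz : ∀ a, ∃ z j, al a z ∧ j ∉ J x ∧ y + Pi.single j 1 ≤ z := by
    intro a
    obtain ⟨z, hyz, haz⟩ := h2 y hx0y hoy a
    have hnz : ¬ O z := h4 z (hx0y.trans hyz) a haz
    have : ∃ j, j ∉ J x ∧ z j ≠ y j := by
      by_contra hcon
      push Not at hcon
      apply hnz
      have hle : ∑ i, y i ≤ ∑ i, z i := Finset.sum_le_sum fun i _ => hyz i
      exact claimA (∑ i, z i - ∑ i, y i) y z hxy hOy hyz hcon (by omega)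
    obtain ⟨j, hj, hne⟩ := this
    refine ⟨z, j, haz, hj, ?_⟩
    intro l
    by_cases hl : l = j
    · subst hl
      rw [Pi.add_apply, Pi.single_eq_same]
      show y l + 1 ≤ z l
      have h6 : y l ≤ z l := hyz l
      omega
    · rw [Pi.add_apply, Pi.single_eq_of_ne hl]
      exact hyz l
  choose z jj hal hjJ hjz using hz
  have hinj : Function.Injective jj := by
    intro a b hab
    refine h3 (y + Pi.single (jj a) 1) (hx0y.trans (hle1 _))
      (hup _ (hjJ a)) a b ⟨z a, hjz a, hal a⟩ ⟨z b, ?_, hal b⟩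
    rw [hab]
    exact hjz b
  have hbij : Function.Bijective jj := Finite.injective_iff_bijective.1 hinj
  refine ⟨y, Equiv.ofBijective jj hbij, hx0y, hoy, fun i => ?_, fun a => ⟨z a, hjz a, hal a⟩⟩
  obtain ⟨a, rfl⟩ := hbij.2 i
  exact hup _ (hjJ a)

end Pool.Agent.H510.JB
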