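import Mathlib
set_option autoImplicit false

namespace Pool.Agent.H510.JC

theorem step {n : ℕ} (e : (Fin n → ℕ) → Prop) (f : Fin 3 → (Fin n → ℕ) → Prop)
    (m0 : Fin n → ℕ) (d : Fin 3 → Fin n) (B : ℕ)
    (h1 : ∀ x, m0 ≤ x → e x → ∀ c, ∃ y, x ≤ y ∧ f c y)
    (h2 : ∀ x, m0 ≤ x → (¬ ∃ y, x ≤ y ∧ e y) →
      ∀ c c', (∃ y, x ≤ y ∧ f c y) → (∃ y, x ≤ y ∧ f c' y) → c = c')
    (h3 : ∀ x, m0 ≤ x → ∀ c, f c x → ¬ ∃ y, x ≤ y ∧ e y)
    (hflat : ∀ x, m0 ≤ x → ∀ c, f c x → ∀ i, i ∉ Set.range d → x i = m0 i)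
    (hbd : ∀ x, m0 ≤ x → e x → ∀ i, x i ≤ B) :
    ∀ x, m0 ≤ x → (∃ y, x ≤ y ∧ e y) → ∀ a : Fin 3, ∃ c y, x + Pi.single (d a) 1 ≤ y ∧ f c y := by
  intro x hx hE a
  -- a maximal element above `x` among the points which see `e`
  have hfin : {y : Fin n → ℕ | x ≤ y ∧ ∃ w, y ≤ w ∧ e w}.Finite := by
    refine (Set.finite_Iic (fun _ : Fin n => B)).subset ?_
    rintro y ⟨hxy, w, hyw, hew⟩
    intro i
    exact (hyw i).trans (hbd w ((hx.trans hxy).trans hyw) hew i)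
  obtain ⟨y, hymax⟩ := hfin.exists_maximal ⟨x, le_refl x, hE⟩
  obtain ⟨⟨hxy, w, hyw, hew⟩, hmax⟩ := hymax
  have hwy : w ≤ y := hmax ⟨hxy.trans hyw, w, le_refl w, hew⟩ hyw
  have hwe : w = y := le_antisymm hwy hyw
  subst hwe
  have hm0 : m0 ≤ w := hx.trans hxy
  have hno : ∀ i : Fin n, ¬ ∃ v, w + Pi.single i 1 ≤ v ∧ e v := by
    rintro i ⟨v, hv, hev⟩
    have h4 : w ≤ w + Pi.single i 1 := le_self_add
    have h5 := hmax (⟨hxy.trans h4, v, hv, hev⟩ :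
      x ≤ w + Pi.single i 1 ∧ ∃ v, w + Pi.single i 1 ≤ v ∧ e v) h4
    have h6 := h5 i
    simp at h6
  have hz : ∀ c, ∃ b : Fin 3, ∃ z, w + Pi.single (d b) 1 ≤ z ∧ f c z := by
    intro c
    obtain ⟨z, hwz, hfz⟩ := h1 w hm0 hew c
    have hnz : ¬ z ≤ w := by
      intro hzw
      exact h3 z (hm0.trans hwz) c hfz ⟨w, hzw, hew⟩
    rw [Pi.le_def] at hnz
    push Not at hnz
    obtain ⟨i, hi⟩ := hnz
    have hir : i ∈ Set.range d := by
      by_contra hir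
      have h7 := hflat z (hm0.trans hwz) c hfz i hir
      have h8 : m0 i ≤ w i := hm0 i
      have h10 : w i < z i := hi
      omega
    obtain ⟨b, hb⟩ := hir
    refine ⟨b, z, ?_, hfz⟩
    intro j
    rw [Pi.add_apply, hb]
    by_cases hj : j = i
    · subst hj
      rw [Pi.single_eq_same]
      exact hi
    · rw [Pi.single_eq_of_ne hj, add_zero]
      exact hwz j
  choose g z hgz hfz using hz
  have hinj : Function.Injective g := by
    intro c c' hcc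
    refine h2 (w + Pi.single (d (g c)) 1) (hm0.trans le_self_add) (hno _) c c'
      ⟨z c, hgz c, hfz c⟩ ⟨z c', ?_, hfz c'⟩
    rw [hcc]
    exact hgz c'
  obtain ⟨c, hc⟩ := (Finite.injective_iff_surjective.1 hinj) a
  refine ⟨c, z c, ?_, hfz c⟩
  have h9 := hgz c
  rw [hc] at h9
  exact (add_le_add_left hxy _).trans h9

end Pool.Agent.H510.JC
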