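import Mathlib
set_option autoImplicit false

namespace Pool.Agent.H510.JD

/-- value of a word in the presented group -/
def val {m : ℕ} (R : Set (FreeGroup (Fin m))) (l : List (Fin m × Bool)) : PresentedGroup R :=
  PresentedGroup.mk R (FreeGroup.mk l)

section
variable {m : ℕ} {R : Set (FreeGroup (Fin m))}

theorem val_nil : val R [] = 1 := by
  unfold val
  rw [← FreeGroup.one_eq_mk, map_one]

theorem val_append (l l' : List (Fin m × Bool)) : val R (l ++ l') = val R l * val R l' := by
  unfold val
  rw [← FreeGroup.mul_mk, map_mul]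

theorem val_invRev (l : List (Fin m × Bool)) : val R (FreeGroup.invRev l) = (val R l)⁻¹ := by
  unfold val
  rw [← FreeGroup.inv_mk, map_inv]

/-- a word of length at most `k` leads from `g` to `g'` -/
def D (R : Set (FreeGroup (Fin m))) (k : ℕ) (g g' : PresentedGroup R) : Prop :=
  ∃ l : List (Fin m × Bool), l.length ≤ k ∧ g * val R l = g'

theorem D_refl (k : ℕ) (g : PresentedGroup R) : D R k g g :=
  ⟨[], Nat.zero_le _, by rw [val_nil, mul_one]⟩

theorem D_symm {k : ℕ} {g g' : PresentedGroup R} (h : D R k g g') : D R k g' g := by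
  obtain ⟨l, h1, h2⟩ := h
  refine ⟨FreeGroup.invRev l, by rw [FreeGroup.invRev_length]; exact h1, ?_⟩
  rw [val_invRev, ← h2, mul_inv_cancel_right]

theorem D_trans {k k' : ℕ} {g g' g'' : PresentedGroup R} (h : D R k g g') (h' : D R k' g' g'') :
    D R (k + k') g g'' := by
  obtain ⟨l, h1, h2⟩ := h
  obtain ⟨l', h3, h4⟩ := h'
  refine ⟨l ++ l', by rw [List.length_append]; omega, ?_⟩
  rw [val_append, ← mul_assoc, h2, h4]

theorem D_mono {k k' : ℕ} {g g' : PresentedGroup R} (h : D R k g g') (hk : k ≤ k') :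
    D R k' g g' := by
  obtain ⟨l, h1, h2⟩ := h
  exact ⟨l, h1.trans hk, h2⟩

theorem D_left {k : ℕ} {g g' : PresentedGroup R} (x : PresentedGroup R) (h : D R k g g') :
    D R k (x * g) (x * g') := by
  obtain ⟨l, h1, h2⟩ := h
  exact ⟨l, h1, by rw [mul_assoc, h2]⟩

theorem D_take' (w : List (Fin m × Bool)) {b c : ℕ} (hbc : b ≤ c) :
    D R (c - b) (val R (w.take b)) (val R (w.take c)) := by
  refine ⟨(w.take c).drop b, ?_, ?_⟩
  · rw [List.length_drop, List.length_take]
    omega
  · rw [← val_append]
    congr 1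
    have h1 : w.take b = (w.take c).take b := by rw [List.take_take, min_eq_left hbc]
    rw [h1, List.take_append_drop]

theorem D_take (w : List (Fin m × Bool)) {b c k : ℕ} (h1 : b ≤ c + k) (h2 : c ≤ b + k) :
    D R k (val R (w.take b)) (val R (w.take c)) := by
  rcases le_total b c with h | h
  · exact D_mono (D_take' w h) (by omega)
  · exact D_symm (D_mono (D_take' w h) (by omega))

/-- one elementary move on words -/
def Step (R : Set (FreeGroup (Fin m))) (K : ℕ) (w w' : List (Fin m × Bool)) : Prop :=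
  ∃ u s s' v : List (Fin m × Bool), w = u ++ (s ++ v) ∧ w' = u ++ (s' ++ v) ∧ s.length ≤ K ∧
    s'.length ≤ K ∧ val R s = val R s'

theorem Step.symm {K : ℕ} {w w' : List (Fin m × Bool)} (h : Step R K w w') : Step R K w' w := by
  obtain ⟨u, s, s', v, h1, h2, h3, h4, h5⟩ := h
  exact ⟨u, s', s, v, h2, h1, h4, h3, h5.symm⟩

theorem Step.val_eq {K : ℕ} {w w' : List (Fin m × Bool)} (h : Step R K w w') :
    val R w = val R w' := by
  obtain ⟨u, s, s', v, h1, h2, h3, h4, h5⟩ := h
  rw [h1, h2, val_append, val_append, val_append, val_append, h5]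

theorem Step.ctx {K : ℕ} {w w' : List (Fin m × Bool)} (h : Step R K w w')
    (p q : List (Fin m × Bool)) : Step R K (p ++ (w ++ q)) (p ++ (w' ++ q)) := by
  obtain ⟨u, s, s', v, h1, h2, h3, h4, h5⟩ := h
  refine ⟨p ++ u, s, s', v ++ q, ?_, ?_, h3, h4, h5⟩
  · rw [h1]; simp only [List.append_assoc]
  · rw [h2]; simp only [List.append_assoc]

/-- the part of a prefix after `u` -/
theorem D_piece {K : ℕ} (s v : List (Fin m × Bool)) (hs : s.length ≤ K) (c : ℕ) :
    D R K (val R ((s ++ v).take c)) (val R s * val R (v.take (c - s.length))) := by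
  rw [List.take_append, val_append]
  rcases le_total s.length c with h | h
  · rw [List.take_of_length_le h]
    exact D_refl _ _
  · have h0 : c - s.length = 0 := by omega
    rw [h0, List.take_zero, val_nil, mul_one, mul_one]
    have h1 := D_take (R := R) s (b := c) (c := s.length) (k := K) (by omega) (by omega)
    rwa [List.take_length] at h1

theorem Step.D {K : ℕ} {w w' : List (Fin m × Bool)} (h : Step R K w w') (b : ℕ) :
    D R (3 * K) (val R (w.take b)) (val R (w'.take b)) := by
  obtain ⟨u, s, s', v, h1, h2, h3, h4, h5⟩ := h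
  rw [h1, h2, List.take_append, val_append, List.take_append (l₁ := u), val_append]
  refine D_left _ ?_
  have e1 := D_piece (R := R) s v h3 (b - u.length)
  have e2 := D_piece (R := R) s' v h4 (b - u.length)
  have e3 : Pool.Agent.H510.JD.D R K (val R s * val R (v.take (b - u.length - s.length)))
      (val R s' * val R (v.take (b - u.length - s'.length))) := by
    rw [h5]
    exact D_left _ (D_take v (by omega) (by omega))
  exact D_mono (D_trans (D_trans e1 e3) (D_symm e2)) (by omega)

/-- equivalence of words -/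
abbrev Eqw (R : Set (FreeGroup (Fin m))) (K : ℕ) : List (Fin m × Bool) → List (Fin m × Bool) → Prop :=
  Relation.ReflTransGen (Step R K)

theorem Eqw_symm {K : ℕ} {w w' : List (Fin m × Bool)} (h : Eqw R K w w') : Eqw R K w' w := by
  induction h with
  | refl => exact Relation.ReflTransGen.refl
  | tail _ h2 ih => exact Relation.ReflTransGen.head h2.symm ih

theorem Eqw_ctx {K : ℕ} {w w' : List (Fin m × Bool)} (h : Eqw R K w w')
    (p q : List (Fin m × Bool)) : Eqw R K (p ++ (w ++ q)) (p ++ (w' ++ q)) := by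
  induction h with
  | refl => exact Relation.ReflTransGen.refl
  | tail _ h2 ih => exact Relation.ReflTransGen.tail ih (h2.ctx p q)

theorem Eqw_red {K : ℕ} (hK : 2 ≤ K) {w w' : List (Fin m × Bool)} (h : FreeGroup.Red w w') :
    Eqw R K w w' := by
  induction h with
  | refl => exact Relation.ReflTransGen.refl
  | tail _ h2 ih =>
    refine Relation.ReflTransGen.tail ih ?_
    obtain @⟨L1, L2, x, b⟩ := h2
    refine ⟨L1, [(x, b), (x, !b)], [], L2, by simp, by simp, by simpa using hK, by simp, ?_⟩
    unfold val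
    congr 1
    exact Quot.sound (by
      have := @FreeGroup.Red.Step.not (Fin m) [] [] x b
      simpa using this)

theorem Eqw_mk {K : ℕ} (hK : 2 ≤ K) {w w' : List (Fin m × Bool)}
    (h : FreeGroup.mk w = FreeGroup.mk w') : Eqw R K w w' := by
  obtain ⟨c, h1, h2⟩ := FreeGroup.Red.exact.1 h
  exact (Eqw_red hK h1).trans (Eqw_symm (Eqw_red hK h2))

theorem Eqw_nil {K : ℕ} (hK : 2 ≤ K) (hR : ∀ r ∈ R, r.toWord.length ≤ K)
    {g : FreeGroup (Fin m)} (hg : g ∈ Subgroup.normalClosure R) :
    ∃ l, FreeGroup.mk l = g ∧ Eqw R K l [] := by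
  have hg' : g ∈ Subgroup.closure (Group.conjugatesOfSet R) := hg
  induction hg' using Subgroup.closure_induction with
  | mem x hx =>
    rw [Group.mem_conjugatesOfSet_iff] at hx
    obtain ⟨r, hr, hx⟩ := hx
    obtain ⟨c, hc⟩ := isConj_iff.1 hx
    refine ⟨c.toWord ++ (r.toWord ++ FreeGroup.invRev c.toWord), ?_, ?_⟩
    · rw [← FreeGroup.mul_mk, ← FreeGroup.mul_mk, ← FreeGroup.inv_mk, FreeGroup.mk_toWord,
        FreeGroup.mk_toWord, ← hc, mul_assoc]
    · have h1 : Step R K (c.toWord ++ (r.toWord ++ FreeGroup.invRev c.toWord))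
          (c.toWord ++ ([] ++ FreeGroup.invRev c.toWord)) := by
        refine ⟨_, r.toWord, [], _, rfl, rfl, hR r hr, by simp, ?_⟩
        rw [val_nil]
        unfold val
        rw [FreeGroup.mk_toWord]
        exact PresentedGroup.one_of_mem hr
      refine Relation.ReflTransGen.head h1 ?_
      refine Eqw_mk hK ?_
      rw [List.nil_append, ← FreeGroup.mul_mk, ← FreeGroup.inv_mk, mul_inv_cancel,
        FreeGroup.one_eq_mk]
  | one => exact ⟨[], FreeGroup.one_eq_mk.symm, Relation.ReflTransGen.refl⟩
  | mul x y _ _ hx hy =>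
    obtain ⟨l, h1, h2⟩ := hx (by assumption)
    obtain ⟨l', h3, h4⟩ := hy (by assumption)
    refine ⟨l ++ l', by rw [← FreeGroup.mul_mk, h1, h3], ?_⟩
    have h5 := Eqw_ctx h2 [] l'
    simp only [List.nil_append] at h5
    exact h5.trans h4
  | inv x _ hx =>
    obtain ⟨l, h1, h2⟩ := hx (by assumption)
    refine ⟨FreeGroup.invRev l, by rw [← FreeGroup.inv_mk, h1], ?_⟩
    have h5 := Eqw_ctx h2 [] (FreeGroup.invRev l)
    simp only [List.nil_append] at h5
    refine (Eqw_symm h5).trans (Eqw_mk hK ?_)
    rw [← FreeGroup.mul_mk, ← FreeGroup.inv_mk, mul_inv_cancel, FreeGroup.one_eq_mk]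

end

/-- a chain as an eventually constant sequence -/
theorem chain_seq {α : Type*} {r : α → α → Prop} {a b : α} (h : Relation.ReflTransGen r a b) :
    ∃ (n : ℕ) (f : ℕ → α), f 0 = a ∧ (∀ i, n ≤ i → f i = b) ∧
      ∀ i, f i = f (i + 1) ∨ r (f i) (f (i + 1)) := by
  induction h using Relation.ReflTransGen.head_induction_on with
  | refl => exact ⟨0, fun _ => b, rfl, fun _ _ => rfl, fun _ => Or.inl rfl⟩
  | head h1 _ ih =>
    obtain ⟨n, f, h2, h3, h4⟩ := ih
    rename_i a c _
    refine ⟨n + 1, fun i => Nat.casesOn i a f, rfl, ?_, ?_⟩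
    · intro i hi
      rcases i with _ | i
      · omega
      · exact h3 i (by omega)
    · intro i
      rcases i with _ | i
      · right
        change r a (f 0)
        rw [h2]
        exact h1
      · exact h4 i

theorem fill (m : ℕ) (R : Finset (FreeGroup (Fin m))) :
    ∃ X : Finset (PresentedGroup (R : Set (FreeGroup (Fin m)))),
      ∀ w : List (Fin m × Bool), FreeGroup.mk w ∈ Subgroup.normalClosure (R : Set (FreeGroup (Fin m))) →
        ∃ (M : ℕ) (h : ℕ → ℕ → PresentedGroup (R : Set (FreeGroup (Fin m)))),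
          (∀ a, h a 0 = 1) ∧ (∀ b, h 0 b = val (R : Set (FreeGroup (Fin m))) (w.take b)) ∧
          (∀ a b a' b', a ≤ a' + 1 → a' ≤ a + 1 → b ≤ b' + 1 → b' ≤ b + 1 →
            (h a b)⁻¹ * h a' b' ∈ X) ∧
          (∀ a b, M ≤ a → h a b = 1) ∧ (∀ a b, M ≤ b → h a b = 1) := by
  classical
  obtain ⟨K, hKd⟩ : ∃ K : ℕ, K = R.sup (fun r => r.toWord.length) + 2 := ⟨_, rfl⟩
  have hK : 2 ≤ K := by omega
  have hR : ∀ r ∈ (R : Set (FreeGroup (Fin m))), r.toWord.length ≤ K := by
    intro r hr
    have h1 : r.toWord.length ≤ R.sup (fun r => r.toWord.length) :=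
      Finset.le_sup (f := fun r : FreeGroup (Fin m) => r.toWord.length) (Finset.mem_coe.1 hr)
    omega
  have hfin : (val (R : Set (FreeGroup (Fin m))) ''
      {l : List (Fin m × Bool) | l.length ≤ 3 * K + 1}).Finite :=
    (List.finite_length_le (Fin m × Bool) (3 * K + 1)).image _
  refine ⟨hfin.toFinset, ?_⟩
  intro w hw
  obtain ⟨l, hl1, hl2⟩ := Eqw_nil hK hR hw
  have hw0 : Eqw (R : Set (FreeGroup (Fin m))) K w [] := (Eqw_mk hK hl1.symm).trans hl2
  obtain ⟨n, f, hf0, hfn, hfs⟩ := chain_seq hw0
  have hval : ∀ i, val (R : Set (FreeGroup (Fin m))) (f i) = 1 := by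
    have h1 : ∀ i, val (R : Set (FreeGroup (Fin m))) (f i) =
        val (R : Set (FreeGroup (Fin m))) (f 0) := by
      intro i
      induction i with
      | zero => rfl
      | succ i ih =>
        rw [← ih]
        rcases hfs i with h | h
        · rw [h]
        · exact h.val_eq.symm
    intro i
    rw [h1 i, ← h1 n, hfn n le_rfl, val_nil]
  refine ⟨n + ∑ i ∈ Finset.range n, (f i).length,
    fun a b => val (R : Set (FreeGroup (Fin m))) ((f a).take b), ?_, ?_, ?_, ?_, ?_⟩
  · intro a
    change val _ ((f a).take 0) = 1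
    rw [List.take_zero, val_nil]
  · intro b
    change val _ ((f 0).take b) = _
    rw [hf0]
  · intro a b a' b' h1 h2 h3 h4
    change (val _ ((f a).take b))⁻¹ * val _ ((f a').take b') ∈ hfin.toFinset
    have hs : ∀ i b, D (R : Set (FreeGroup (Fin m))) (3 * K) (val _ ((f i).take b))
        (val _ ((f (i + 1)).take b)) := by
      intro i b
      rcases hfs i with h | h
      · rw [← h]; exact D_refl _ _
      · exact h.D b
    have hab : D (R : Set (FreeGroup (Fin m))) (3 * K) (val _ ((f a).take b))
        (val _ ((f a').take b)) := by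
      rcases Nat.lt_trichotomy a a' with h | h | h
      · have : a' = a + 1 := by omega
        rw [this]; exact hs a b
      · rw [h]; exact D_refl _ _
      · have : a = a' + 1 := by omega
        rw [this]; exact D_symm (hs a' b)
    have hbb : D (R : Set (FreeGroup (Fin m))) 1 (val _ ((f a').take b))
        (val _ ((f a').take b')) := D_take _ h3 h4
    obtain ⟨l, e1, e2⟩ := D_trans hab hbb
    rw [Set.Finite.mem_toFinset]
    refine ⟨l, e1, ?_⟩
    rw [← e2, inv_mul_cancel_left]
  · intro a b h1
    change val _ ((f a).take b) = 1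
    rw [hfn a (by omega), List.take_nil, val_nil]
  · intro a b h1
    change val _ ((f a).take b) = 1
    rcases lt_or_ge a n with h2 | h2
    · have h3 : (f a).length ≤ ∑ i ∈ Finset.range n, (f i).length :=
        Finset.single_le_sum (f := fun i => (f i).length) (fun _ _ => Nat.zero_le _)
          (Finset.mem_range.2 h2)
      rw [List.take_of_length_le (by omega)]
      exact hval a
    · rw [hfn a h2, List.take_nil, val_nil]

end Pool.Agent.H510.JD
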