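import Pool.Agent.H510.UForm
set_option autoImplicit false

/-
File Pool/Agent/H510/OmegaLogic.lean is on origin/main (copy it into your tree).
PROOF computable_phi: Primrec (fun k => inst M k G) for each fixed G by induction on G (Fm is coded by Fm.code = Encodable.encode; primrec_code; show that (a,b) -> Fm.imp a b and a -> Fm.box a and v -> Fm.var v are primitive recursive
 (Primrec.encode_iff: the code is 3 * Nat.pair a.code b.code + 2 etc.)).  For the finite alphabet use Primrec.dom_finite / dom_fintype or split: fun (k, a) => inst M k (F a) is Primrec2 since alpha is finite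
 (e.g. Primrec.list_getD over the list of the finitely many functions, or Primrec.ite over the finitely many values of a). Then Primrec.list_foldl, and compose with hW (Primrec.to_comp, Computable.comp).
PROOF holds_phi: Holds (andF a b) x <-> Holds a x and Holds b x (classical); generalise the initial state (k0, phi0) of the fold and induct on w.
-/

namespace Pool.Agent.H510.JE
open Pool.Agent.H510.OmegaLogic Pool.Agent.H510.UForm

theorem primrec_var : Primrec (fun v : ℕ => Fm.var v) := by
  rw [← Primrec.encode_iff]
  have : (fun v : ℕ => Encodable.encode (Fm.var v)) = fun v : ℕ => 3 * v + 1 := by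
    funext v; rfl
  rw [this]
  exact Primrec.nat_add.comp (Primrec.nat_mul.comp (Primrec.const 3) Primrec.id) (Primrec.const 1)

theorem primrec_box : Primrec (fun a : Fm => Fm.box a) := by
  rw [← Primrec.encode_iff]
  have : (fun a : Fm => Encodable.encode (Fm.box a)) = fun a : Fm => 3 * Encodable.encode a + 3 := by
    funext v; rfl
  rw [this]
  exact Primrec.nat_add.comp (Primrec.nat_mul.comp (Primrec.const 3) Primrec.encode) (Primrec.const 3)

theorem primrec_imp : Primrec₂ (fun a b : Fm => Fm.imp a b) := by
  unfold Primrec₂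
  rw [← Primrec.encode_iff]
  have : (fun p : Fm × Fm => Encodable.encode (Fm.imp p.1 p.2)) =
      fun p : Fm × Fm => 3 * Nat.pair (Encodable.encode p.1) (Encodable.encode p.2) + 2 := by
    funext v; rfl
  rw [this]
  exact Primrec.nat_add.comp (Primrec.nat_mul.comp (Primrec.const 3)
    (Primrec₂.natPair.comp (Primrec.encode.comp Primrec.fst) (Primrec.encode.comp Primrec.snd)))
    (Primrec.const 2)

theorem primrec_andF : Primrec₂ andF := by
  unfold Primrec₂ andF
  exact primrec_imp.comp (primrec_imp.comp Primrec.fst
    (primrec_imp.comp Primrec.snd (Primrec.const Fm.bot))) (Primrec.const Fm.bot)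

theorem primrec_inst (M : ℕ) : ∀ G : Fm, Primrec (fun k => inst M k G)
  | .bot => by
    simp only [inst]; exact Primrec.const _
  | .var v => by
    by_cases h : v < M
    · simp only [inst, h, if_true]; exact Primrec.const _
    · simp only [inst, h, if_false]
      exact primrec_var.comp (Primrec.nat_add.comp (Primrec.const v) Primrec.id)
  | .imp a b => by
    simp only [inst]
    exact primrec_imp.comp (primrec_inst M a) (primrec_inst M b)
  | .box a => by
    simp only [inst]
    exact primrec_box.comp (primrec_inst M a)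

theorem primrec_fin_aux {α : Type} [Primcodable α] [DecidableEq α] (g : α → ℕ → Fm)
    (hg : ∀ a, Primrec (g a)) : ∀ l : List α, ∃ h : ℕ × α → Fm, Primrec h ∧
      ∀ k, ∀ a ∈ l, h (k, a) = g a k
  | [] => ⟨fun _ => Fm.bot, Primrec.const _, fun k a ha => by simp at ha⟩
  | b :: l => by
    obtain ⟨h, hp, hh⟩ := primrec_fin_aux g hg l
    refine ⟨fun p => if p.2 = b then g b p.1 else h p, ?_, ?_⟩
    · exact Primrec.ite (Primrec.eq.comp Primrec.snd (Primrec.const b))
        ((hg b).comp Primrec.fst) hp
    · intro k a ha
      by_cases hab : a = b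
      · subst hab; simp
      · have : a ∈ l := by
          rcases List.mem_cons.1 ha with h1 | h1
          · exact absurd h1 hab
          · exact h1
        simp only [hab, if_false]
        exact hh k a this

theorem primrec_fin {α : Type} [Primcodable α] [DecidableEq α] [Fintype α] (g : α → ℕ → Fm)
    (hg : ∀ a, Primrec (g a)) : Primrec (fun p : ℕ × α => g p.2 p.1) := by
  obtain ⟨h, hp, hh⟩ := primrec_fin_aux g hg (Finset.univ : Finset α).toList
  have : (fun p : ℕ × α => g p.2 p.1) = h := by
    funext p
    exact (hh p.1 p.2 (by simp)).symm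
  rw [this]; exact hp

theorem primrec_phi {m : ℕ} (M : ℕ) (Base : Fm) (F : Fin m × Bool → Fm) (Fend : Fm) :
    Primrec (fun w : List (Fin m × Bool) => phi M Base F Fend w) := by
  have hF : Primrec (fun p : ℕ × (Fin m × Bool) => inst M p.1 (F p.2)) :=
    primrec_fin (fun a k => inst M k (F a)) (fun a => primrec_inst M (F a))
  have hstep : Primrec₂ (fun (_ : List (Fin m × Bool)) (q : (ℕ × Fm) × (Fin m × Bool)) =>
      ((q.1.1 + 1, andF (inst M q.1.1 (F q.2)) q.1.2) : ℕ × Fm)) := by
    unfold Primrec₂
    have h1 : Primrec (fun p : List (Fin m × Bool) × ((ℕ × Fm) × (Fin m × Bool)) => p.2.1.1) :=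
      Primrec.fst.comp (Primrec.fst.comp Primrec.snd)
    have h2 : Primrec (fun p : List (Fin m × Bool) × ((ℕ × Fm) × (Fin m × Bool)) => p.2.1.2) :=
      Primrec.snd.comp (Primrec.fst.comp Primrec.snd)
    have h3 : Primrec (fun p : List (Fin m × Bool) × ((ℕ × Fm) × (Fin m × Bool)) => p.2.2) :=
      Primrec.snd.comp Primrec.snd
    exact Primrec.pair (Primrec.succ.comp h1)
      (primrec_andF.comp (hF.comp (Primrec.pair h1 h3)) h2)
  have hfold : Primrec (fun w : List (Fin m × Bool) =>
      w.foldl (fun (s : ℕ × Fm) (a : Fin m × Bool) => (s.1 + 1, andF (inst M s.1 (F a)) s.2))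
        ((0, Base) : ℕ × Fm)) :=
    Primrec.list_foldl Primrec.id (Primrec.const ((0, Base) : ℕ × Fm)) hstep
  exact primrec_andF.comp ((primrec_inst M Fend).comp (Primrec.fst.comp hfold))
    (Primrec.snd.comp hfold)

theorem computable_phi {m : ℕ} (M : ℕ) (Base : Fm) (F : Fin m × Bool → Fm) (Fend : Fm)
    (W : ℕ → List (Fin m × Bool)) (hW : Computable W) :
    Computable fun n => phi M Base F Fend (W n) := by
  exact (primrec_phi M Base F Fend).to_comp.comp hW

theorem holds_andF {W : Type} {R : W → W → Prop} {V : ℕ → W → Prop} (a b : Fm) (x : W) :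
    Holds R V (andF a b) x ↔ Holds R V a x ∧ Holds R V b x := by
  classical
  simp only [andF, Holds]
  tauto

theorem holds_fold {α W : Type} {R : W → W → Prop} {V : ℕ → W → Prop} (M : ℕ)
    (F : α → Fm) (x : W) : ∀ (w : List α) (k0 : ℕ) (G : Fm),
    (w.foldl (fun (s : ℕ × Fm) (a : α) => (s.1 + 1, andF (inst M s.1 (F a)) s.2)) (k0, G)).1
      = k0 + w.length ∧
    (Holds R V (w.foldl (fun (s : ℕ × Fm) (a : α) =>
        (s.1 + 1, andF (inst M s.1 (F a)) s.2)) (k0, G)).2 x ↔
      Holds R V G x ∧ ∀ (k : ℕ) (a : α), w[k]? = some a → Holds R V (inst M (k0 + k) (F a)) x)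
  | [], k0, G => by simp
  | b :: w, k0, G => by
    obtain ⟨h1, h2⟩ := holds_fold M F x w (k0 + 1) (andF (inst M k0 (F b)) G)
    refine ⟨?_, ?_⟩
    · rw [List.foldl_cons, h1, List.length_cons]; omega
    · rw [List.foldl_cons, h2, holds_andF]
      constructor
      · rintro ⟨⟨h3, h4⟩, h5⟩
        refine ⟨h4, ?_⟩
        intro k a hk
        cases k with
        | zero =>
          simp only [List.getElem?_cons_zero, Option.some.injEq] at hk
          subst hk; simpa using h3
        | succ k =>
          rw [List.getElem?_cons_succ] at hk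
          have := h5 k a hk
          have e : k0 + 1 + k = k0 + (k + 1) := by omega
          rwa [e] at this
      · rintro ⟨h4, h5⟩
        refine ⟨⟨?_, h4⟩, ?_⟩
        · have := h5 0 b (by simp)
          simpa using this
        · intro k a hk
          have := h5 (k + 1) a (by rw [List.getElem?_cons_succ]; exact hk)
          have e : k0 + 1 + k = k0 + (k + 1) := by omega
          rwa [e]

theorem holds_phi {α W : Type} {R : W → W → Prop} {V : ℕ → W → Prop} (M : ℕ) (Base : Fm)
    (F : α → Fm) (Fend : Fm) (w : List α) (x : W) :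
    Holds R V (phi M Base F Fend w) x ↔
      Holds R V Base x ∧ (∀ (k : ℕ) (a : α), w[k]? = some a → Holds R V (inst M k (F a)) x) ∧
        Holds R V (inst M w.length Fend) x := by
  obtain ⟨h1, h2⟩ := holds_fold (R := R) (V := V) M F x w 0 Base
  simp only [phi]
  rw [holds_andF, h2, h1]
  simp only [Nat.zero_add]
  tauto

end Pool.Agent.H510.JE

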