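import Mathlib
set_option autoImplicit false

namespace Pool.Agent.H510.JH

theorem plane {n : ℕ} (q b0 b1 : (Fin n → ℕ) → Prop) (m0 : Fin n → ℕ) (i1 i2 : Fin n)
    (hB1 : ∀ x, m0 ≤ x → b0 x → ¬ ∃ y, x ≤ y ∧ b1 y)
    (hB1' : ∀ x, m0 ≤ x → b1 x → ¬ ∃ y, x ≤ y ∧ b0 y)
    (hB2 : ∀ x, m0 ≤ x → (∃ y, x ≤ y ∧ (b0 y ∨ b1 y)) → (∃ y, x ≤ y ∧ q y) →
      (∃ y, x ≤ y ∧ b0 y) ∧ (∃ y, x ≤ y ∧ b1 y))
    (hB3 : ∀ y, m0 ≤ y → (b0 y ∨ b1 y) → ∀ i, i ≠ i1 → i ≠ i2 → y i = m0 i)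
    (hB4 : ∃ y, m0 ≤ y ∧ (b0 y ∨ b1 y)) :
    ∀ z, m0 ≤ z → (∀ i, i ≠ i1 → i ≠ i2 → z i = m0 i) → (∃ y, z ≤ y ∧ q y) →
      ∃ y, z ≤ y ∧ (b0 y ∨ b1 y) := by
  intro z
  induction' hN : ∑ i, z i using Nat.strong_induction_on with N ih generalizing z
  intro hz hoff hq
  by_cases hzm : z = m0
  · subst hzm; exact hB4
  obtain ⟨i, hi⟩ : ∃ i, z i ≠ m0 i := by
    by_contra hcon
    push Not at hcon
    exact hzm (funext hcon)
  have hgt : m0 i < z i := lt_of_le_of_ne (hz i) (Ne.symm hi)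
  have hi12 : i = i1 ∨ i = i2 := by
    by_contra hcon
    push Not at hcon
    exact hi (hoff i hcon.1 hcon.2)
  set z' : Fin n → ℕ := Function.update z i (z i - 1) with hz'
  have hz'i : z' i = z i - 1 := by simp [hz']
  have hz'j : ∀ j, j ≠ i → z' j = z j := fun j hj => by simp [hz', hj]
  have hle : z' ≤ z := by
    intro j
    by_cases hj : j = i
    · rw [hj, hz'i]; exact Nat.sub_le _ _
    · exact (hz'j j hj).le
  have hm0 : m0 ≤ z' := by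
    intro j
    by_cases hj : j = i
    · rw [hj, hz'i]; exact Nat.le_sub_one_of_lt hgt
    · rw [hz'j j hj]; exact hz j
  have hlt : ∑ j, z' j < N := by
    rw [← hN]
    exact Finset.sum_lt_sum (fun j _ => hle j) ⟨i, Finset.mem_univ i, by omega⟩
  have hD := ih _ hlt z' rfl hm0 (fun j h1 h2 => by
    have hj : j ≠ i := by rintro rfl; rcases hi12 with h | h <;> contradiction
    rw [hz'j j hj]; exact hoff j h1 h2) (by
    obtain ⟨y, hy, hqy⟩ := hq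
    exact ⟨y, hle.trans hy, hqy⟩)
  have hq' : ∃ y, z' ≤ y ∧ q y := by
    obtain ⟨y, hy, hqy⟩ := hq
    exact ⟨y, hle.trans hy, hqy⟩
  obtain ⟨⟨y0, hy0, hb0⟩, ⟨y1, hy1, hb1⟩⟩ := hB2 z' hm0 hD hq'
  by_contra hno
  have key : ∀ y, z' ≤ y → (b0 y ∨ b1 y) → y i = z' i := by
    intro y hy hb
    by_contra hne
    apply hno
    refine ⟨y, fun j => ?_, hb⟩
    have h1 := hy j
    by_cases hj : j = i
    · rw [hj] at h1 ⊢
      have h2 : z' i ≤ y i := h1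
      have h3 : z i ≤ y i := by omega
      exact h3
    · rw [← hz'j j hj]; exact h1
  have k0 := key y0 hy0 (Or.inl hb0)
  have k1 := key y1 hy1 (Or.inr hb1)
  have o0 := hB3 y0 (hm0.trans hy0) (Or.inl hb0)
  have o1 := hB3 y1 (hm0.trans hy1) (Or.inr hb1)
  obtain ⟨k, hk⟩ : ∃ k, ∀ j, j ≠ i → j ≠ k → j ≠ i1 ∧ j ≠ i2 := by
    rcases hi12 with h | h
    · exact ⟨i2, fun j h1 h2 => ⟨h ▸ h1, h2⟩⟩
    · exact ⟨i1, fun j h1 h2 => ⟨h2, h ▸ h1⟩⟩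
  have hcmp : y0 ≤ y1 ∨ y1 ≤ y0 := by
    rcases le_total (y0 k) (y1 k) with h | h
    · left
      intro j
      by_cases hj : j = i
      · rw [hj, k0, k1]
      · by_cases hjk : j = k
        · rw [hjk]; exact h
        · obtain ⟨h1, h2⟩ := hk j hj hjk
          rw [o0 j h1 h2, o1 j h1 h2]
    · right
      intro j
      by_cases hj : j = i
      · rw [hj, k0, k1]
      · by_cases hjk : j = k
        · rw [hjk]; exact h
        · obtain ⟨h1, h2⟩ := hk j hj hjk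
          rw [o0 j h1 h2, o1 j h1 h2]
  rcases hcmp with h | h
  · exact hB1 y0 (hm0.trans hy0) hb0 ⟨y1, h, hb1⟩
  · exact hB1' y1 (hm0.trans hy1) hb1 ⟨y0, h, hb0⟩

end Pool.Agent.H510.JH
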