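import Pool.Agent.H510.UForm
set_option autoImplicit false

namespace Pool.Agent.H510.K

open Pool.Agent.H510.UForm

theorem prod_succ {G α : Type} [Group G] (val : α → G) (w : List α) (f : ℕ) (hf : f < w.length) :
    ((w.take (f + 1)).map val).prod = ((w.take f).map val).prod * val w[f] := by
  rw [List.take_add_one, List.getElem?_eq_getElem hf, List.map_append, List.prod_append]
  simp

theorem flag_le {n : ℕ} {C G α : Type} [Group G] (T : C → C → G) (val : α → G) (w : List α)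
    (L : Lbl n C) (u : ℕ → (Fin n → ℕ) → Prop) (x : Fin n → ℕ)
    (h0 : ∀ c c', T c c' ≠ 1 →
      ¬ (D (fun y => L.p c y ∧ ¬ u 0 y) x ∧ D (fun y => L.p c' y ∧ ¬ u 0 y) x))
    (hK : ∀ k a, w[k]? = some a →
      (∀ c c', T c c' ≠ val a →
        ¬ (D (fun y => L.p c y ∧ ¬ u k y) x ∧ D (fun y => L.p c' y ∧ u k y) x)) ∧
      ¬ (D (fun y => Pt L y ∧ ¬ u k y) x ∧ D (fun y => Pt L y ∧ u (k + 1) y) x) ∧
      (∀ c c', T c c' ≠ 1 → ¬ (D (fun y => L.p c y ∧ u k y ∧ ¬ u (k + 1) y) x ∧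
        D (fun y => L.p c' y ∧ u k y ∧ ¬ u (k + 1) y) x)))
    (hE : ∀ y, x ≤ y → Pt L y → ¬ u w.length y)
    (c c' : C) (y y' : Fin n → ℕ) (hy : x ≤ y) (hy' : x ≤ y') (hc : L.p c y) (hc' : L.p c' y')
    (f f' : ℕ) (hf : ¬ u f y) (hfk : ∀ k < f, u k y) (hf' : ¬ u f' y') (hfk' : ∀ k < f', u k y')
    (hle : f ≤ f') :
    T c c' = (((w.take f).map val).prod)⁻¹ * ((w.take f').map val).prod := by
  have hlen : f' ≤ w.length := by
    by_contra h
    push Not at h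
    exact hE y' hy' ⟨c', hc'⟩ (hfk' _ h)
  rcases hle.eq_or_lt with rfl | hlt
  · rw [inv_mul_cancel]
    by_contra hne
    rcases f with _ | k
    · exact h0 c c' hne ⟨⟨y, hy, hc, hf⟩, ⟨y', hy', hc', hf'⟩⟩
    · have hk : k < w.length := by omega
      exact (hK k _ (List.getElem?_eq_getElem hk)).2.2 c c' hne
        ⟨⟨y, hy, hc, hfk k (Nat.lt_succ_self k), hf⟩, ⟨y', hy', hc', hfk' k (Nat.lt_succ_self k), hf'⟩⟩
  · have hk : f < w.length := by omega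
    have h := hK f _ (List.getElem?_eq_getElem hk)
    have h1 : T c c' = val w[f] := by
      by_contra hne
      exact h.1 c c' hne ⟨⟨y, hy, hc, hf⟩, ⟨y', hy', hc', hfk' f hlt⟩⟩
    have h2 : f' = f + 1 := by
      by_contra hne
      have : f + 1 < f' := by omega
      exact h.2.1 ⟨⟨y, hy, ⟨c, hc⟩, hf⟩, ⟨y', hy', ⟨c', hc'⟩, hfk' (f + 1) this⟩⟩
    rw [h2, prod_succ val w f hk, inv_mul_cancel_left, h1]

theorem flag_step {n : ℕ} {C G α : Type} [Group G] (T : C → C → G) (val : α → G) (w : List α)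
    (L : Lbl n C) (u : ℕ → (Fin n → ℕ) → Prop) (x : Fin n → ℕ)
    (h0 : ∀ c c', T c c' ≠ 1 →
      ¬ (D (fun y => L.p c y ∧ ¬ u 0 y) x ∧ D (fun y => L.p c' y ∧ ¬ u 0 y) x))
    (hK : ∀ k a, w[k]? = some a →
      (∀ c c', T c c' ≠ val a →
        ¬ (D (fun y => L.p c y ∧ ¬ u k y) x ∧ D (fun y => L.p c' y ∧ u k y) x)) ∧
      ¬ (D (fun y => Pt L y ∧ ¬ u k y) x ∧ D (fun y => Pt L y ∧ u (k + 1) y) x) ∧
      (∀ c c', T c c' ≠ 1 → ¬ (D (fun y => L.p c y ∧ u k y ∧ ¬ u (k + 1) y) x ∧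
        D (fun y => L.p c' y ∧ u k y ∧ ¬ u (k + 1) y) x)))
    (hE : ∀ y, x ≤ y → Pt L y → ¬ u w.length y)
    (hinv : ∀ c c', D (L.p c) x → D (L.p c') x → T c' c = (T c c')⁻¹)
    (c c' : C) (y y' : Fin n → ℕ) (hy : x ≤ y) (hy' : x ≤ y') (hc : L.p c y) (hc' : L.p c' y')
    (f f' : ℕ) (hf : ¬ u f y) (hfk : ∀ k < f, u k y) (hf' : ¬ u f' y') (hfk' : ∀ k < f', u k y') :
    T c c' = (((w.take f).map val).prod)⁻¹ * ((w.take f').map val).prod := by
  rcases le_total f f' with h | h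
  · exact flag_le T val w L u x h0 hK hE c c' y y' hy hy' hc hc' f f' hf hfk hf' hfk' h
  · have h1 := flag_le T val w L u x h0 hK hE c' c y' y hy' hy hc' hc f' f hf' hfk' hf hfk h
    rw [hinv c' c ⟨y', hy', hc'⟩ ⟨y, hy, hc⟩, h1, mul_inv_rev, inv_inv]

end Pool.Agent.H510.K
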