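import Pool.Agent.H510.UModel
set_option autoImplicit false

namespace Pool.Agent.H510.L1RB

open Pool.Agent.H510.UForm Pool.Agent.H510.UModel

theorem lv_mono {n : ℕ} {x y : Fin n → ℕ} (h : x ≤ y) : lv x ≤ lv y :=
  Finset.sum_le_sum fun i _ => h i

theorem eq_of_lv {n : ℕ} {x y : Fin n → ℕ} (h : x ≤ y) (hl : lv x = lv y) : x = y := by
  funext i
  exact (Finset.sum_eq_sum_iff_of_le (fun i _ => h i)).1 hl i (Finset.mem_univ i)

theorem lv_add {n : ℕ} (x y : Fin n → ℕ) : lv (x + y) = lv x + lv y := by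
  simp [lv, Finset.sum_add_distrib]

theorem lv_single {n : ℕ} (a : Fin n) (t : ℕ) : lv (Pi.single a t : Fin n → ℕ) = t := by
  simp [lv]

theorem sup3_single {n : ℕ} (lab : Fin 3 → Fin n) (k : Fin 3) (t : ℕ) :
    Sup3 lab (Pi.single (lab k) t) := by
  intro i hi
  rw [Pi.single_apply, if_neg (hi k)]

theorem sup3_add {n : ℕ} {lab : Fin 3 → Fin n} {x y : Fin n → ℕ} (hx : Sup3 lab x)
    (hy : Sup3 lab y) : Sup3 lab (x + y) := by
  intro i hi
  rw [Pi.add_apply, hx i hi, hy i hi]

theorem sup3_le {n : ℕ} {lab : Fin 3 → Fin n} {x y : Fin n → ℕ} (h : x ≤ y)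
    (hy : Sup3 lab y) : Sup3 lab x := by
  intro i hi
  have h1 := h i
  rw [hy i hi] at h1
  exact Nat.le_zero.1 h1

theorem ne1 (k : Fin 3) : k ≠ k + 1 := by decide +revert
theorem ne2 (k : Fin 3) : k ≠ k + 2 := by decide +revert
theorem ne12 (k : Fin 3) : k + 1 ≠ k + 2 := by decide +revert

theorem model_RB {n : ℕ} (lab : Fin 3 → Fin n) (hlab : Function.Injective lab) {G : Type} [Group G]
    (X : Finset G) (h : ℕ → ℕ → G) (hX : Lip X h) (N : ℕ) (x : Fin n → ℕ) :
    RB lab (model lab X h hX N) x := by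
  intro k
  have n1 : lab k ≠ lab (k + 1) := fun h => ne1 k (hlab h)
  have n2 : lab k ≠ lab (k + 2) := fun h => ne2 k (hlab h)
  have n12 : lab (k + 1) ≠ lab (k + 2) := fun h => ne12 k (hlab h)
  refine ⟨?_, ?_, ?_, ?_⟩
  · rintro c c' hcc ⟨-, -, h3, h4⟩ ⟨y, hxy, -, -, h3', h4'⟩
    have hxy' := eq_of_lv hxy (h3.trans h3'.symm)
    subst hxy'
    exact hcc (Fin.ext (h4.symm.trans h4'))
  · rintro ⟨y, hxy, cy, hy1, hy2, hy3, -⟩ ⟨z, hxz, cz, hz1, hz2, -⟩ c
    have hS : Sup3 lab x := sup3_le hxy hy1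
    have hk0 : x (lab k) = 0 := by
      have := hxy (lab k)
      rw [hy2] at this
      exact Nat.le_zero.1 this
    have hl : lv x ≤ N + 3 := by
      have h1 := lv_mono hxz
      have h2 : lv z = N + 1 + 2 := hz2
      omega
    obtain ⟨s, hs1, hs2⟩ : ∃ s : ℕ, s ≤ 1 ∧ (x (lab (k + 1)) + s) % 2 = (c : ℕ) := by
      have hc := c.2
      rcases Nat.mod_two_eq_zero_or_one (x (lab (k + 1)) + c) with h0 | h0
      · refine ⟨0, by omega, ?_⟩
        omega
      · refine ⟨1, le_rfl, ?_⟩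
        omega
    refine ⟨x + Pi.single (lab (k + 1)) s + Pi.single (lab (k + 2)) (N + 4 - lv x - s), ?_,
      sup3_add (sup3_add hS (sup3_single _ _ _)) (sup3_single _ _ _), ?_, ?_, ?_⟩
    · intro i
      simp only [Pi.add_apply]
      omega
    · simp [Pi.add_apply, Pi.single_apply, if_neg n1, if_neg n2, hk0]
    · rw [lv_add, lv_add, lv_single, lv_single]
      omega
    · simp only [Pi.add_apply, Pi.single_apply, if_neg n12, if_true, add_zero]
      exact hs2
  · rintro a ha ⟨y, hxy, hy⟩ hno ⟨z, hxz, cz, hz1, hz2, -, -⟩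
    apply hno
    refine ⟨0, ?_, rfl⟩
    intro i
    by_cases hia : i = a
    · subst hia
      have h1 := hxz i
      by_cases hik : i = lab k
      · rw [hik, hz2] at h1
        rw [hik]
        exact h1
      · have h2 : z i = 0 := by
          apply hz1
          intro k'
          by_cases hkk : k' = k
          · rw [hkk]; exact hik
          · exact ha k' hkk
        rw [h2] at h1
        exact h1
    · have h1 := hxy i
      have h2 : y = Pi.single a (N + 4) := hy
      rw [h2, Pi.single_apply, if_neg hia] at h1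
      exact h1
  · intro hx
    have hx0 : x = 0 := hx
    subst hx0
    refine ⟨Pi.single (lab (k + 1)) (N + 4), ?_, ⟨(N + 4) % 2, Nat.mod_lt _ (by norm_num)⟩,
      sup3_single _ _ _, ?_, lv_single _ _, ?_⟩
    · intro i
      exact Nat.zero_le _
    · rw [Pi.single_apply, if_neg n1]
    · rw [Pi.single_apply, if_pos rfl]

end Pool.Agent.H510.L1RB
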