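import Pool.Agent.H510.UModel
set_option autoImplicit false

namespace Pool.Agent.H510.L1RO

open Pool.Agent.H510.UForm Pool.Agent.H510.UModel

theorem lv_single {n : ℕ} (a : Fin n) (t : ℕ) : lv (Pi.single a t : Fin n → ℕ) = t := by
  unfold lv
  rw [Finset.sum_pi_single']
  simp

theorem lv_mono {n : ℕ} {x y : Fin n → ℕ} (h : x ≤ y) : lv x ≤ lv y :=
  Finset.sum_le_sum fun i _ => h i

theorem model_RO {n : ℕ} (lab : Fin 3 → Fin n) (hlab : Function.Injective lab) {G : Type} [Group G]
    (X : Finset G) (h : ℕ → ℕ → G) (hX : Lip X h) (N : ℕ) (x : Fin n → ℕ) :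
    RO lab (model lab X h hX N) x := by
  classical
  refine ⟨?_, ?_, ?_, ?_, ?_, ?_⟩
  · intro hx a
    have hx' : x = 0 := hx
    exact ⟨Pi.single a (N + 4), by rw [hx']; exact fun i => Nat.zero_le _, rfl⟩
  · rintro hno a b hab ⟨⟨y, hy, hay⟩, ⟨z, hz, haz⟩⟩
    have hay' : y = Pi.single a (N + 4) := hay
    have haz' : z = Pi.single b (N + 4) := haz
    refine hno ⟨x, le_rfl, ?_⟩
    show x = 0
    funext i
    have h1 := hy i
    have h2 := hz i
    rw [hay'] at h1
    rw [haz'] at h2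
    by_cases hi : i = a
    · subst hi
      rw [Pi.single_eq_of_ne hab] at h2
      exact Nat.le_zero.1 h2
    · rw [Pi.single_eq_of_ne hi] at h1
      exact Nat.le_zero.1 h1
  · rintro a hx ⟨y, hy, hoy⟩
    have hx' : x = Pi.single a (N + 4) := hx
    have hy' : y = 0 := hoy
    have h1 := hy a
    rw [hx', hy', Pi.single_eq_same] at h1
    exact absurd h1 (by simp)
  · rintro a hx ⟨y, hy, c, hc⟩
    have hx' : x = Pi.single a (N + 4) := hx
    have h1 := lv_mono hy
    rw [hx', lv_single] at h1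
    have h2 : lv y = N + 1 + ((2 : Fin 3) : ℕ) := hc.2.1
    have h3 : ((2 : Fin 3) : ℕ) = 2 := rfl
    omega
  · intro hx
    have hx' : x = 0 := hx
    refine ⟨Pi.single (lab 0) N, by rw [hx']; exact fun i => Nat.zero_le _, ?_, lv_single _ _⟩
    intro i hi
    exact Pi.single_eq_of_ne (hi 0) _
  · rintro a ha ⟨y, hy, hay⟩ hno ⟨z, hz, c, hc⟩
    have hay' : y = Pi.single a (N + 4) := hay
    refine hno ⟨x, le_rfl, ?_⟩
    show x = 0
    funext i
    have h1 := hy i
    rw [hay'] at h1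
    by_cases hi : i = a
    · subst hi
      have h2 := hz i
      have h3 : z i = 0 := hc.1 i ha
      rw [h3] at h2
      exact Nat.le_zero.1 h2
    · rw [Pi.single_eq_of_ne hi] at h1
      exact Nat.le_zero.1 h1

end Pool.Agent.H510.L1RO
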