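import Pool.Agent.H510.UModel
set_option autoImplicit false

namespace Pool.Agent.H510.L1RS

open Pool.Agent.H510.UForm Pool.Agent.H510.UModel

theorem L1RS_le {n : ℕ} {x y : Fin n → ℕ} (h : x ≤ y) : lv x ≤ lv y :=
  Finset.sum_le_sum fun i _ => h i

theorem L1RS_eq {n : ℕ} {x y : Fin n → ℕ} (h : x ≤ y) (h2 : lv x = lv y) : x = y := by
  funext i
  exact (Finset.sum_eq_sum_iff_of_le (fun i _ => h i)).1 h2 i (Finset.mem_univ i)

theorem L1RS_lv {n : ℕ} (x : Fin n → ℕ) (a : Fin n) (t : ℕ) :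
    lv (x + Pi.single a t) = lv x + t := by
  unfold lv
  simp only [Pi.add_apply, Finset.sum_add_distrib]
  rw [Finset.sum_pi_single']
  simp

theorem L1RS_sup {n : ℕ} (lab : Fin 3 → Fin n) {x : Fin n → ℕ} (hx : Sup3 lab x) (j : Fin 3)
    (t : ℕ) : Sup3 lab (x + Pi.single (lab j) t) := by
  intro i hi
  rw [Pi.add_apply, hx i hi, Pi.single_eq_of_ne (hi j), add_zero]

theorem L1RS_sup_le {n : ℕ} (lab : Fin 3 → Fin n) {x y : Fin n → ℕ} (h : x ≤ y)
    (hy : Sup3 lab y) : Sup3 lab x := by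
  intro i hi
  have h1 : x i ≤ y i := h i
  rw [hy i hi] at h1
  exact Nat.le_zero.1 h1

theorem L1RS_step {n : ℕ} (lab : Fin 3 → Fin n) (hlab : Function.Injective lab) (m : ℕ)
    (x : Fin n → ℕ) : StepR (fun y => Sup3 lab y ∧ lv y = m)
      (fun (c : Fin 3) y => Sup3 lab y ∧ lv y = m + 1 ∧ (y (lab 0) + 2 * y (lab 1)) % 3 = (c : ℕ))
      x := by
  refine ⟨?_, ?_, ?_⟩
  · rintro ⟨h1, h2⟩ c
    have key : ∀ j : Fin 3, x ≤ x + Pi.single (lab j) 1 := fun j i => Nat.le_add_right _ _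
    have h01 : lab 0 ≠ lab 1 := fun h => absurd (hlab h) (by decide)
    have h02 : lab 0 ≠ lab 2 := fun h => absurd (hlab h) (by decide)
    have h12 : lab 1 ≠ lab 2 := fun h => absurd (hlab h) (by decide)
    have hc := c.2
    have hcases : (x (lab 0) + 2 * x (lab 1)) % 3 = (c : ℕ) ∨
        (x (lab 0) + 1 + 2 * x (lab 1)) % 3 = (c : ℕ) ∨
        (x (lab 0) + 2 * (x (lab 1) + 1)) % 3 = (c : ℕ) := by omega
    rcases hcases with h | h | h
    · refine ⟨x + Pi.single (lab 2) 1, key 2, L1RS_sup lab h1 2 1, ?_, ?_⟩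
      · rw [L1RS_lv, h2]
      · rw [Pi.add_apply, Pi.add_apply, Pi.single_eq_of_ne h02, Pi.single_eq_of_ne h12]
        simpa using h
    · refine ⟨x + Pi.single (lab 0) 1, key 0, L1RS_sup lab h1 0 1, ?_, ?_⟩
      · rw [L1RS_lv, h2]
      · rw [Pi.add_apply, Pi.add_apply, Pi.single_eq_same, Pi.single_eq_of_ne h01.symm]
        simpa using h
    · refine ⟨x + Pi.single (lab 1) 1, key 1, L1RS_sup lab h1 1 1, ?_, ?_⟩
      · rw [L1RS_lv, h2]
      · rw [Pi.add_apply, Pi.add_apply, Pi.single_eq_same, Pi.single_eq_of_ne h01]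
        simpa using h
  · rintro hD c c' hcc ⟨⟨y, hxy, hy1, hy2, hy3⟩, ⟨y', hxy', hy1', hy2', hy3'⟩⟩
    have hx : Sup3 lab x := L1RS_sup_le lab hxy hy1
    have hle := L1RS_le hxy
    rw [hy2] at hle
    have hge : ¬ lv x ≤ m := by
      intro hm
      apply hD
      refine ⟨x + Pi.single (lab 0) (m - lv x), fun i => Nat.le_add_right _ _,
        L1RS_sup lab hx 0 _, ?_⟩
      · show lv (x + Pi.single (lab 0) (m - lv x)) = m
        rw [L1RS_lv]
        omega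
    have hlv : lv x = m + 1 := by omega
    have e1 : x = y := L1RS_eq hxy (by rw [hlv, hy2])
    have e2 : x = y' := L1RS_eq hxy' (by rw [hlv, hy2'])
    apply hcc
    apply Fin.ext
    rw [← hy3, ← hy3', ← e1, ← e2]
  · rintro c ⟨-, h2, -⟩ ⟨y, hxy, -, hy⟩
    have hy' : lv y = m := hy
    have := L1RS_le hxy
    omega

theorem L1RS_any {n : ℕ} (lab : Fin 3 → Fin n) {G : Type} [Group G]
    (X : Finset G) (h : ℕ → ℕ → G) (hX : Lip X h) (N : ℕ) (j : Fin 3) :
    (fun y => ∃ c, (model lab X h hX N).q j c y) =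
      fun y => Sup3 lab y ∧ lv y = N + 1 + (j : ℕ) := by
  funext y
  apply propext
  constructor
  · rintro ⟨c, h1, h2, -⟩
    exact ⟨h1, h2⟩
  · rintro ⟨h1, h2⟩
    exact ⟨⟨(y (lab 0) + 2 * y (lab 1)) % 3, Nat.mod_lt _ (by norm_num)⟩, h1, h2, rfl⟩

theorem model_RS {n : ℕ} (lab : Fin 3 → Fin n) (hlab : Function.Injective lab) {G : Type} [Group G]
    (X : Finset G) (h : ℕ → ℕ → G) (hX : Lip X h) (N : ℕ) (x : Fin n → ℕ) :
    RS (model lab X h hX N) x := by
  refine ⟨?_, ?_, ?_⟩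
  · exact L1RS_step lab hlab N x
  · rw [L1RS_any]
    exact L1RS_step lab hlab (N + 1) x
  · rw [L1RS_any]
    exact L1RS_step lab hlab (N + 1 + 1) x

end Pool.Agent.H510.L1RS
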