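import Pool.Agent.H510.L3TT
set_option autoImplicit false

namespace Pool.Agent.H510.L3RK

open Pool.Agent.H510.UForm Pool.Agent.H510.UModel

-- given, proved elsewhere (keep the sorry)
theorem TT_col {G : Type} [Group G] (X : Finset G) (h : ℕ → ℕ → G) (hX : Lip X h)
    (j k j' k' : ℕ) (h1 : j ≤ j' + 2) (h2 : j' ≤ j + 2) (h3 : k ≤ k' + 2) (h4 : k' ≤ k + 2) :
    TT X (col X h hX j k) (col X h hX j' k') = (hh h j k)⁻¹ * hh h j' k' := by
  exact L3TT.TT_col X h hX j k j' k' h1 h2 h3 h4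

theorem J9849_Z {n : ℕ} (lab : Fin 3 → Fin n) {G : Type} [Group G] (X : Finset G)
    (h : ℕ → ℕ → G) (hX : Lip X h) (N : ℕ) (x : Fin n → ℕ)
    (hz : Z (model lab X h hX N) x) : Sup3 lab x ∧ N + 1 ≤ lv x := by
  obtain ⟨⟨z, hxz, c, hc⟩, hq⟩ := hz
  have hs : Sup3 lab x := by
    intro i hi
    have h1 : z i = 0 := hc.1 i hi
    have h2 : x i ≤ z i := hxz i
    omega
  refine ⟨hs, ?_⟩
  by_contra hlt
  apply hq
  refine ⟨fun i => x i + (if i = lab 0 then N - lv x else 0),
    fun i => Nat.le_add_right _ _, ?_, ?_⟩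
  · intro i hi
    have h1 := hs i hi
    have h2 := hi 0
    simp [h1, h2]
  · show ∑ i, (x i + (if i = lab 0 then N - lv x else 0)) = N
    rw [Finset.sum_add_distrib, Finset.sum_ite_eq' Finset.univ (lab 0) (fun _ => N - lv x),
      if_pos (Finset.mem_univ _)]
    change lv x + (N - lv x) = N
    omega

theorem J9849_le {n : ℕ} (x y : Fin n → ℕ) (hxy : x ≤ y) (h : lv y ≤ lv x + 2) (i : Fin n) :
    y i ≤ x i + 2 := by
  have h1 : ∑ j, (y j - x j) + ∑ j, x j = ∑ j, y j := by
    rw [← Finset.sum_add_distrib]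
    apply Finset.sum_congr rfl
    intro j _
    have : x j ≤ y j := hxy j
    omega
  have h2 : y i - x i ≤ ∑ j, (y j - x j) :=
    Finset.single_le_sum (f := fun j => y j - x j) (fun j _ => Nat.zero_le _) (Finset.mem_univ i)
  unfold lv at h
  omega

-- TARGET
theorem model_RK {n : ℕ} (lab : Fin 3 → Fin n) (hlab : Function.Injective lab) {G α : Type} [Group G]
    (val : α → G) (w : List α) (X : Finset G) (h : ℕ → ℕ → G) (hX : Lip X h) (M N : ℕ)
    (h1 : ∀ a, h a 0 = 1) (h2 : ∀ b, h 0 b = ((w.take b).map val).prod)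
    (h4 : ∀ a b, M ≤ a → h a b = 1) (h5 : ∀ a b, M ≤ b → h a b = 1)
    (hN : 6 * M ≤ N) (hN' : 3 * w.length ≤ N) (x : Fin n → ℕ) (k : ℕ) (a : α) (ha : w[k]? = some a) :
    RK lab (TT X) (model lab X h hX N) (val a) (um lab w.length k) (um lab w.length (k + 1)) x := by
  obtain ⟨hk, hka⟩ := List.getElem?_eq_some_iff.1 ha
  have hstep : ((w.take (k + 1)).map val).prod = ((w.take k).map val).prod * val a := by
    rw [List.take_add_one, ha]
    simp
  refine ⟨?_, ?_⟩
  · rintro _ ⟨h6, h7⟩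
    exact ⟨by omega, by omega⟩
  intro hz
  obtain ⟨hs, hlv⟩ := J9849_Z lab X h hX N x hz
  -- the points above `x`
  have hup : ∀ c y, x ≤ y → (model lab X h hX N).p c y → ∀ i, y i ≤ x i + 2 := by
    intro c y hxy hp i
    have h6 : lv y = N + 3 := hp.2.1
    exact J9849_le x y hxy (by omega) i
  have hup' : ∀ y, x ≤ y → Pt (model lab X h hX N) y → ∀ i, y i ≤ x i + 2 := by
    rintro y hxy ⟨c, hc⟩ i
    exact hup c y hxy hc i
  refine ⟨?_, ?_, ?_⟩
  · rintro ⟨z, hxz, hz1⟩ ⟨y, hxy, hp, hu⟩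
    have hz1' : z = Pi.single (lab 0) (N + 4) := hz1
    have h01 : lab 1 ≠ lab 0 := fun hh0 => by
      have := hlab hh0
      simp at this
    have h6 : x (lab 1) ≤ z (lab 1) := hxz (lab 1)
    rw [hz1', Pi.single_eq_of_ne h01] at h6
    have h7 := hup' y hxy hp (lab 1)
    have h8 : k < y (lab 1) / 3 := hu.2
    omega
  · rintro ⟨z, hxz, hz1⟩ ⟨y, hxy, hp, hu⟩
    have hz1' : z = Pi.single (lab 1) (N + 4) := hz1
    have h6 : lv x = x (lab 1) := by
      unfold lv
      apply Finset.sum_eq_single (lab 1)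
      · intro b _ hb
        have h7 : x b ≤ z b := hxz b
        rw [hz1', Pi.single_eq_of_ne hb] at h7
        omega
      · intro h7
        exact absurd (Finset.mem_univ _) h7
    have h7 : x (lab 1) ≤ y (lab 1) := hxy (lab 1)
    apply hu
    exact ⟨hk, by omega⟩
  · rintro ⟨z, hxz, c0, hz1⟩
    have h20 : z (lab 2) = 0 := hz1.2.1
    have hx2 : x (lab 2) = 0 := by
      have : x (lab 2) ≤ z (lab 2) := hxz (lab 2)
      omega
    -- the value at a point
    have hval : ∀ c y, x ≤ y → (model lab X h hX N).p c y →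
        hh h (y (lab 1)) (y (lab 2)) = ((w.take (y (lab 1) / 3)).map val).prod := by
      intro c y hxy hp
      have h6 := hup c y hxy hp (lab 2)
      have h7 : y (lab 2) / 3 = 0 := by omega
      unfold hh
      rw [h7, h2]
    have hTT : ∀ c c' y y', x ≤ y → x ≤ y' → (model lab X h hX N).p c y →
        (model lab X h hX N).p c' y' →
        TT X c c' = (((w.take (y (lab 1) / 3)).map val).prod)⁻¹ *
          ((w.take (y' (lab 1) / 3)).map val).prod := by
      intro c c' y y' hxy hxy' hp hp'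
      have e1 : col X h hX (y (lab 1)) (y (lab 2)) = c := hp.2.2
      have e2 : col X h hX (y' (lab 1)) (y' (lab 2)) = c' := hp'.2.2
      have a1 := hup c y hxy hp (lab 1)
      have a2 := hup c y hxy hp (lab 2)
      have a3 := hup c' y' hxy' hp' (lab 1)
      have a4 := hup c' y' hxy' hp' (lab 2)
      have b1 : x (lab 1) ≤ y (lab 1) := hxy (lab 1)
      have b2 : x (lab 2) ≤ y (lab 2) := hxy (lab 2)
      have b3 : x (lab 1) ≤ y' (lab 1) := hxy' (lab 1)
      have b4 : x (lab 2) ≤ y' (lab 2) := hxy' (lab 2)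
      rw [← e1, ← e2, TT_col X h hX _ _ _ _ (by omega) (by omega) (by omega) (by omega),
        hval c y hxy hp, hval c' y' hxy' hp']
    refine ⟨?_, ?_, ?_⟩
    · rintro c c' hne ⟨⟨y, hxy, hp, hu⟩, ⟨y', hxy', hp', hu'⟩⟩
      apply hne
      have a1 := hup c y hxy hp (lab 1)
      have a3 := hup c' y' hxy' hp' (lab 1)
      have b1 : x (lab 1) ≤ y (lab 1) := hxy (lab 1)
      have b3 : x (lab 1) ≤ y' (lab 1) := hxy' (lab 1)
      have h6 : y (lab 1) / 3 ≤ k := by
        by_contra h7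
        exact hu ⟨hk, by omega⟩
      have h7 : k < y' (lab 1) / 3 := hu'.2
      have h8 : y (lab 1) / 3 = k := by omega
      have h9 : y' (lab 1) / 3 = k + 1 := by omega
      rw [hTT c c' y y' hxy hxy' hp hp', h8, h9, hstep]
      group
    · rintro ⟨⟨y, hxy, hp, hu⟩, ⟨y', hxy', hp', hu'⟩⟩
      have a1 := hup' y hxy hp (lab 1)
      have a3 := hup' y' hxy' hp' (lab 1)
      have b1 : x (lab 1) ≤ y (lab 1) := hxy (lab 1)
      have b3 : x (lab 1) ≤ y' (lab 1) := hxy' (lab 1)
      have h6 : y (lab 1) / 3 ≤ k := by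
        by_contra h7
        exact hu ⟨hk, by omega⟩
      have h7 : k + 1 < y' (lab 1) / 3 := hu'.2
      omega
    · rintro c c' hne ⟨⟨y, hxy, hp, hu, hu1⟩, ⟨y', hxy', hp', hu', hu1'⟩⟩
      apply hne
      have h6 : k < y (lab 1) / 3 := hu.2
      have h7 : k < y' (lab 1) / 3 := hu'.2
      rw [hTT c c' y y' hxy hxy' hp hp']
      by_cases hl : k + 1 < w.length
      · have h8 : y (lab 1) / 3 = k + 1 := by
          by_contra h9
          exact hu1 ⟨hl, by omega⟩
        have h9 : y' (lab 1) / 3 = k + 1 := by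
          by_contra h10
          exact hu1' ⟨hl, by omega⟩
        rw [h8, h9, inv_mul_cancel]
      · rw [List.take_of_length_le (by omega), List.take_of_length_le (by omega), inv_mul_cancel]

end Pool.Agent.H510.L3RK
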