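import Pool.Agent.H510.L3TT
set_option autoImplicit false

/- Files Pool/Agent/H510/{OmegaLogic,UForm,UModel}.lean are on origin/main: copy them into your tree, then lake build Pool.Agent.H510.UModel. Needed by 18:50 UTC; paste partial progress if you cannot finish. -/

/-
TT_col: (j' : ZMod 5) - j has valMinAbs = j' - j since |j' - j| ≤ 2 (write j' = j + d with d : ℤ, -2 ≤ d ≤ 2, interval_cases d; decide / ZMod.valMinAbs), so nb j (..) = j'.
Facts for x with Z (D (q 2) x, not D q0 x): x is Sup3, N + 1 ≤ lv x ≤ N + 3 (if lv x ≤ N then x + (N - lv x) e_(lab 0) is a q0-point above x). A p-point y ≥ x has lv y = N+3, so y i ≤ x i + 2 for all i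
 (and two p-points y, y' ≥ x satisfy |y i - y' i| ≤ 2), so TT (colour y) (colour y') = hh(y)⁻¹ * hh(y') by TT_col, where hh(y) = hh h (y (lab 1)) (y (lab 2)) = h (y(lab 2)/3) (y(lab 1)/3).
model_RP: D Pt x: the point x + (N+3 - lv x) e_(lab 0).  Cocycle: (a⁻¹ b)(b⁻¹ c) = a⁻¹ c.  D (Bt 0) x: x (lab 0) = 0, so y (lab 0) ≤ 2, y(lab 1) + y(lab 2) = N + 3 - y(lab 0) ≥ N + 1 ≥ 6 M + 2..., so y(lab 1) ≥ 3 M or y(lab 2) ≥ 3 M and
 hh(y) = 1 by h4, h5.  D (Bt 1) x: x(lab 1) = 0, y(lab 1) ≤ 2, y(lab 1)/3 = 0, hh(y) = 1 by h1.  D (Bt 2) x: x(lab 2) = 0, y(lab 2) ≤ 2, hh(y) = h 0 (y(lab 1)/3) = prod of take (y(lab 1)/3); not um 0 y means w.length = 0 or y(lab 1)/3 = 0: product 1.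
model_RK: (Pt: trivial.) axis lab 0: D (al (lab 0)) x implies x is supported on lab 0, so x(lab 1) = 0, y(lab 1) ≤ 2, not um.  axis lab 1: x = single (lab 1) (lv x), y(lab 1) ≥ x(lab 1) = lv x ≥ N + 1 ≥ 3 w.length: um holds.
 D (Bt 2) x: y(lab 2) ≤ 2. First: not um k y (k < w.length) means y(lab 1)/3 ≤ k, um k y' means y'(lab 1)/3 ≥ k+1; |difference| ≤ 2 so they are k and k+1; TT = (prod take k)⁻¹ * prod take (k+1) = val a.
 Second: y(lab 1)/3 ≤ k, y'(lab 1)/3 ≥ k+2 impossible.  Third: um k y, not um (k+1) y: if k+1 < w.length then y(lab 1)/3 = k+1; otherwise k+1 = w.length and take (y(lab 1)/3) w = w; both points have the same value, TT = 1.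
-/

namespace Pool.Agent.H510.L3RP

open Pool.Agent.H510.UForm Pool.Agent.H510.UModel

-- given, proved elsewhere (keep the sorry)
theorem TT_col {G : Type} [Group G] (X : Finset G) (h : ℕ → ℕ → G) (hX : Lip X h)
    (j k j' k' : ℕ) (h1 : j ≤ j' + 2) (h2 : j' ≤ j + 2) (h3 : k ≤ k' + 2) (h4 : k' ≤ k + 2) :
    TT X (col X h hX j k) (col X h hX j' k') = (hh h j k)⁻¹ * hh h j' k' := by
  exact L3TT.TT_col X h hX j k j' k' h1 h2 h3 h4

theorem mrp_sup {n : ℕ} {lab : Fin 3 → Fin n} {x y : Fin n → ℕ} (hxy : x ≤ y)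
    (hy : Sup3 lab y) : Sup3 lab x := by
  intro i hi
  have h1 := hxy i
  rw [hy i hi] at h1
  exact Nat.le_zero.1 h1

theorem mrp_lv {n : ℕ} {lab : Fin 3 → Fin n} (hlab : Function.Injective lab) {x : Fin n → ℕ}
    (hx : Sup3 lab x) : lv x = x (lab 0) + x (lab 1) + x (lab 2) := by
  classical
  unfold lv
  have h1 : ∑ i, x i = ∑ i ∈ Finset.univ.image lab, x i := by
    refine (Finset.sum_subset (Finset.subset_univ _) fun i _ hi => ?_).symm
    refine hx i fun k hk => hi ?_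
    rw [hk]
    exact Finset.mem_image_of_mem _ (Finset.mem_univ _)
  rw [h1, Finset.sum_image (fun a _ b _ h => hlab h), Fin.sum_univ_three]

theorem mrp_mono {n : ℕ} {x y : Fin n → ℕ} (hxy : x ≤ y) : lv x ≤ lv y :=
  Finset.sum_le_sum fun i _ => hxy i

theorem mrp_add {n : ℕ} {lab : Fin 3 → Fin n} {x : Fin n → ℕ} (hx : Sup3 lab x) (t : ℕ) :
    ∃ y, x ≤ y ∧ Sup3 lab y ∧ lv y = lv x + t := by
  classical
  refine ⟨fun i => x i + if i = lab 0 then t else 0, fun i => Nat.le_add_right _ _, ?_, ?_⟩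
  · intro i hi
    simp only
    rw [hx i hi, if_neg (hi 0)]
  · unfold lv
    rw [Finset.sum_add_distrib, Finset.sum_ite_eq']
    simp

theorem mrp_Z {n : ℕ} {lab : Fin 3 → Fin n} {G : Type} [Group G] {X : Finset G}
    {h : ℕ → ℕ → G} {hX : Lip X h} {N : ℕ} {x : Fin n → ℕ} (hZ : Z (model lab X h hX N) x) :
    Sup3 lab x ∧ N + 1 ≤ lv x ∧ lv x ≤ N + 3 := by
  obtain ⟨⟨y, hxy, c, hy⟩, hq⟩ := hZ
  obtain ⟨hy1, hy2, _⟩ := hy
  have hs := mrp_sup hxy hy1
  have hm := mrp_mono hxy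
  have hy3 : lv y = N + 3 := by rw [hy2]; rfl
  refine ⟨hs, ?_, by omega⟩
  by_contra hcon
  apply hq
  obtain ⟨z, hz1, hz2, hz3⟩ := mrp_add hs (N - lv x)
  exact ⟨z, hz1, hz2, by omega⟩

theorem mrp_p {n : ℕ} {lab : Fin 3 → Fin n} (hlab : Function.Injective lab) {G : Type} [Group G]
    {X : Finset G} {h : ℕ → ℕ → G} {hX : Lip X h} {N : ℕ} {x y : Fin n → ℕ}
    (hZ : Z (model lab X h hX N) x) {c : Col X} (hxy : x ≤ y) (hy : (model lab X h hX N).p c y) :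
    (∀ k, y (lab k) ≤ x (lab k) + 2 ∧ x (lab k) ≤ y (lab k)) ∧
      N + 3 = y (lab 0) + y (lab 1) + y (lab 2) ∧ col X h hX (y (lab 1)) (y (lab 2)) = c := by
  obtain ⟨hs, h1, h2⟩ := mrp_Z hZ
  obtain ⟨hy1, hy2, hy3⟩ := hy
  have e1 := mrp_lv hlab hs
  have e2 := mrp_lv hlab hy1
  have a0 : x (lab 0) ≤ y (lab 0) := hxy _
  have a1 : x (lab 1) ≤ y (lab 1) := hxy _
  have a2 : x (lab 2) ≤ y (lab 2) := hxy _
  refine ⟨fun k => ⟨?_, hxy _⟩, by omega, hy3⟩
  fin_cases k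
  · show y (lab 0) ≤ x (lab 0) + 2
    omega
  · show y (lab 1) ≤ x (lab 1) + 2
    omega
  · show y (lab 2) ≤ x (lab 2) + 2
    omega

theorem mrp_TT {n : ℕ} {lab : Fin 3 → Fin n} (hlab : Function.Injective lab) {G : Type} [Group G]
    {X : Finset G} {h : ℕ → ℕ → G} {hX : Lip X h} {N : ℕ} {x y y' : Fin n → ℕ}
    (hZ : Z (model lab X h hX N) x) {c c' : Col X} (hxy : x ≤ y)
    (hy : (model lab X h hX N).p c y) (hxy' : x ≤ y') (hy' : (model lab X h hX N).p c' y') :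
    TT X c c' = (hh h (y (lab 1)) (y (lab 2)))⁻¹ * hh h (y' (lab 1)) (y' (lab 2)) := by
  obtain ⟨b1, _, b3⟩ := mrp_p hlab hZ hxy hy
  obtain ⟨d1, _, d3⟩ := mrp_p hlab hZ hxy' hy'
  have p1 := b1 1
  have p2 := b1 2
  have q1 := d1 1
  have q2 := d1 2
  rw [← b3, ← d3]
  exact TT_col X h hX _ _ _ _ (by omega) (by omega) (by omega) (by omega)

-- TARGET
theorem model_RP {n : ℕ} (lab : Fin 3 → Fin n) (hlab : Function.Injective lab) {G α : Type} [Group G]
    (val : α → G) (w : List α) (X : Finset G) (h : ℕ → ℕ → G) (hX : Lip X h) (M N : ℕ)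
    (h1 : ∀ a, h a 0 = 1) (h2 : ∀ b, h 0 b = ((w.take b).map val).prod)
    (h4 : ∀ a b, M ≤ a → h a b = 1) (h5 : ∀ a b, M ≤ b → h a b = 1)
    (hN : 6 * M ≤ N) (hN' : 3 * w.length ≤ N) (x : Fin n → ℕ) :
    RP (TT X) (model lab X h hX N) (um lab w.length 0) x := by
  intro hZ
  have hZ' := mrp_Z hZ
  obtain ⟨hs, hl1, hl2⟩ := hZ'
  refine ⟨?_, ?_, ?_, ?_⟩
  · obtain ⟨y, hy1, hy2, hy3⟩ := mrp_add hs (N + 3 - lv x)
    exact ⟨y, hy1, col X h hX (y (lab 1)) (y (lab 2)), hy2, by omega, rfl⟩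
  · rintro c c' c'' hne ⟨⟨y, hxy, hy⟩, ⟨y', hxy', hy'⟩, ⟨y'', hxy'', hy''⟩⟩
    apply hne
    rw [mrp_TT hlab hZ hxy hy hxy' hy', mrp_TT hlab hZ hxy' hy' hxy'' hy'',
      mrp_TT hlab hZ hxy hy hxy'' hy'']
    group
  · intro hB
    have key : ∀ (c : Col X) (y : Fin n → ℕ), x ≤ y → (model lab X h hX N).p c y →
        hh h (y (lab 1)) (y (lab 2)) = 1 := by
      intro c y hxy hy
      obtain ⟨b1, b2, _⟩ := mrp_p hlab hZ hxy hy
      have p0 := b1 0
      have p1 := b1 1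
      unfold hh
      rcases hB with ⟨z, hxz, cz, hz⟩ | ⟨z, hxz, cz, hz⟩
      · obtain ⟨_, hz0, _, _⟩ := hz
        have a0 : x (lab 0) ≤ z (lab 0) := hxz _
        rw [hz0] at a0
        by_cases hM : M ≤ y (lab 2) / 3
        · exact h4 _ _ hM
        · exact h5 _ _ (by omega)
      · obtain ⟨_, hz0, _, _⟩ := hz
        have a0 : x (lab 1) ≤ z (lab 1) := hxz _
        rw [hz0] at a0
        have e : y (lab 1) / 3 = 0 := by omega
        rw [e]
        exact h1 _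
    rintro c c' hne ⟨⟨y, hxy, hy⟩, ⟨y', hxy', hy'⟩⟩
    apply hne
    rw [mrp_TT hlab hZ hxy hy hxy' hy', key c y hxy hy, key c' y' hxy' hy']
    simp
  · rintro ⟨z, hxz, cz, hz⟩
    obtain ⟨_, hz0, _, _⟩ := hz
    have a0 : x (lab 2) ≤ z (lab 2) := hxz _
    rw [hz0] at a0
    have key : ∀ (c : Col X) (y : Fin n → ℕ), x ≤ y → (model lab X h hX N).p c y →
        ¬ um lab w.length 0 y → hh h (y (lab 1)) (y (lab 2)) = 1 := by
      intro c y hxy hy hu
      obtain ⟨b1, b2, _⟩ := mrp_p hlab hZ hxy hy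
      have p2 := b1 2
      unfold hh
      have e : y (lab 2) / 3 = 0 := by omega
      rw [e, h2]
      unfold um at hu
      by_cases hw : 0 < w.length
      · have e2 : y (lab 1) / 3 = 0 := by
          by_contra hne
          exact hu ⟨hw, by omega⟩
        rw [e2]
        simp
      · have e3 : w = [] := List.length_eq_zero_iff.1 (by omega)
        rw [e3]
        simp
    rintro c c' hne ⟨⟨y, hxy, hy, hu⟩, ⟨y', hxy', hy', hu'⟩⟩
    apply hne
    rw [mrp_TT hlab hZ hxy hy hxy' hy', key c y hxy hy hu, key c' y' hxy' hy' hu']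
    simp

end Pool.Agent.H510.L3RP

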