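import Pool.Agent.H510.UModel
set_option autoImplicit false

namespace Pool.Agent.H510.L3TT

open Pool.Agent.H510.UForm Pool.Agent.H510.UModel

theorem vma (d : ℤ) (h1 : -2 ≤ d) (h2 : d ≤ 2) : ((d : ℤ) : ZMod 5).valMinAbs = d := by
  interval_cases d <;> decide

theorem nb_eq (j j' : ℕ) (h1 : j ≤ j' + 2) (h2 : j' ≤ j + 2) :
    nb j ((j' : ZMod 5) - (j : ZMod 5)) = j' := by
  have h : ((j' : ZMod 5) - (j : ZMod 5)) = (((j' : ℤ) - (j : ℤ) : ℤ) : ZMod 5) := by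
    push_cast
    rfl
  rw [h]
  unfold nb
  rw [vma _ (by omega) (by omega)]
  omega

theorem TT_col {G : Type} [Group G] (X : Finset G) (h : ℕ → ℕ → G) (hX : Lip X h)
    (j k j' k' : ℕ) (h1 : j ≤ j' + 2) (h2 : j' ≤ j + 2) (h3 : k ≤ k' + 2) (h4 : k' ≤ k + 2) :
    TT X (col X h hX j k) (col X h hX j' k') = (hh h j k)⁻¹ * hh h j' k' := by
  unfold TT col
  simp only [Prod.fst_sub, Prod.snd_sub]
  rw [nb_eq j j' h1 h2, nb_eq k k' h3 h4]

end Pool.Agent.H510.L3TT
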