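import Mathlib

set_option autoImplicit false

namespace Pool.Agent.H510.OmegaLogic

/-- Modal formulas: falsum, variables, implication and box. -/
inductive Fm : Type
  | bot : Fm
  | var : ℕ → Fm
  | imp : Fm → Fm → Fm
  | box : Fm → Fm

/-- Gödel numbering of formulas (a bijection onto `ℕ`). -/
def Fm.code : Fm → ℕ
  | .bot => 0
  | .var n => 3 * n + 1
  | .imp a b => 3 * Nat.pair a.code b.code + 2
  | .box a => 3 * a.code + 3

theorem unpair1_lt (k : ℕ) : (k / 3).unpair.1 < k + 1 :=
  Nat.lt_succ_of_le ((Nat.unpair_left_le _).trans (Nat.div_le_self _ _))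

theorem unpair2_lt (k : ℕ) : (k / 3).unpair.2 < k + 1 :=
  Nat.lt_succ_of_le ((Nat.unpair_right_le _).trans (Nat.div_le_self _ _))

theorem div3_lt (k : ℕ) : k / 3 < k + 1 :=
  Nat.lt_succ_of_le (Nat.div_le_self _ _)

/-- the inverse of `Fm.code` -/
def ofCode : ℕ → Fm
  | 0 => .bot
  | k + 1 =>
    if k % 3 = 0 then .var (k / 3)
    else if k % 3 = 1 then .imp (ofCode (k / 3).unpair.1) (ofCode (k / 3).unpair.2)
    else .box (ofCode (k / 3))
  decreasing_by
    · exact unpair1_lt k
    · exact unpair2_lt k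
    · exact div3_lt k

theorem ofCode_code : ∀ φ : Fm, ofCode φ.code = φ
  | .bot => by simp [Fm.code, ofCode]
  | .var n => by
    have h1 : (3 * n) % 3 = 0 := by omega
    have h2 : (3 * n) / 3 = n := by omega
    simp [Fm.code, ofCode]
  | .imp a b => by
    have h1 : (3 * Nat.pair a.code b.code + 1) % 3 = 1 := by omega
    have h2 : (3 * Nat.pair a.code b.code + 1) / 3 = Nat.pair a.code b.code := by omega
    rw [Fm.code, ofCode, h1, h2]
    simp [ofCode_code a, ofCode_code b]
  | .box a => by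
    have h1 : (3 * a.code + 2) % 3 = 2 := by omega
    have h2 : (3 * a.code + 2) / 3 = a.code := by omega
    rw [Fm.code, ofCode, h1, h2]
    simp [ofCode_code a]

theorem code_ofCode (c : ℕ) : (ofCode c).code = c := by
  induction c using Nat.strong_induction_on with
  | _ c ih =>
    cases c with
    | zero => simp [ofCode, Fm.code]
    | succ k =>
      rw [ofCode]
      split_ifs with h1 h2
      · simp only [Fm.code]; omega
      · simp only [Fm.code]
        rw [ih _ (unpair1_lt k), ih _ (unpair2_lt k), Nat.pair_unpair]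
        omega
      · simp only [Fm.code]
        rw [ih _ (div3_lt k)]
        omega

/-- formulas are coded by natural numbers -/
def Fm.equivNat : Fm ≃ ℕ where
  toFun := Fm.code
  invFun := ofCode
  left_inv := ofCode_code
  right_inv := code_ofCode

instance : Denumerable Fm := Denumerable.mk' Fm.equivNat

theorem encode_eq (φ : Fm) : Encodable.encode φ = φ.code := rfl

/-- Kripke semantics: truth of a formula at a point of the model `(W, R, V)`. -/
def Holds {W : Type} (R : W → W → Prop) (V : ℕ → W → Prop) : Fm → W → Prop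
  | .bot, _ => False
  | .var n, w => V n w
  | .imp a b, w => Holds R V a w → Holds R V b w
  | .box a, w => ∀ u, R w u → Holds R V a u

/-- `L_n`: the set of formulas valid in the frame `(ω^n, ≤)`, the product order. -/
def Logic (n : ℕ) : Set Fm :=
  {φ | ∀ (V : ℕ → (Fin n → ℕ) → Prop) (w : Fin n → ℕ), Holds (fun a b => a ≤ b) V φ w}

/-! ### p-morphisms and label transfer -/

theorem holds_pmorph {W W' : Type} {R : W → W → Prop} {R' : W' → W' → Prop} (ρ : W → W')
    (h1 : ∀ w u, R w u → R' (ρ w) (ρ u)) (h2 : ∀ w v, R' (ρ w) v → ∃ u, R w u ∧ ρ u = v)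
    (V : ℕ → W' → Prop) : ∀ (φ : Fm) (w : W), Holds R (fun n w => V n (ρ w)) φ w ↔ Holds R' V φ (ρ w)
  | .bot, w => Iff.rfl
  | .var n, w => Iff.rfl
  | .imp a b, w => by
    simp only [Holds]
    rw [holds_pmorph ρ h1 h2 V a w, holds_pmorph ρ h1 h2 V b w]
  | .box a, w => by
    simp only [Holds]
    constructor
    · intro h v hv
      obtain ⟨u, hu, rfl⟩ := h2 w v hv
      exact (holds_pmorph ρ h1 h2 V a u).1 (h u hu)
    · intro h u hu
      exact (holds_pmorph ρ h1 h2 V a u).2 (h _ (h1 w u hu))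

open Classical in
/-- codes `≤ c` of the box formulas true at `w` -/
noncomputable def Bx {W : Type} (R : W → W → Prop) (V : ℕ → W → Prop) (c : ℕ) (w : W) : Finset ℕ :=
  (Finset.range (c + 1)).filter fun k => ∃ ψ : Fm, (Fm.box ψ).code = k ∧ Holds R V (.box ψ) w

theorem mem_Bx {W : Type} {R : W → W → Prop} {V : ℕ → W → Prop} {c : ℕ} {w : W} {ψ : Fm}
    (h : (Fm.box ψ).code ≤ c) : (Fm.box ψ).code ∈ Bx R V c w ↔ Holds R V (.box ψ) w := by
  classical
  unfold Bx
  rw [Finset.mem_filter, Finset.mem_range]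
  constructor
  · rintro ⟨_, χ, h1, h2⟩
    have : χ = ψ := by
      have h3 : ofCode (Fm.box χ).code = ofCode (Fm.box ψ).code := by rw [h1]
      rw [ofCode_code, ofCode_code] at h3
      exact Fm.box.inj h3
    rwa [this] at h2
  · intro h2
    exact ⟨by omega, ψ, rfl, h2⟩

theorem Bx_sub {W : Type} {R : W → W → Prop} {V : ℕ → W → Prop} {c : ℕ} {w : W} :
    Bx R V c w ⊆ Finset.range (c + 1) := by
  classical
  exact Finset.filter_subset _ _

theorem Bx_mono {W : Type} {R : W → W → Prop} (htr : ∀ a b c, R a b → R b c → R a c)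
    {V : ℕ → W → Prop} {c : ℕ} {w u : W}
    (h : R w u) : Bx R V c w ⊆ Bx R V c u := by
  classical
  unfold Bx
  intro k hk
  rw [Finset.mem_filter] at hk ⊢
  obtain ⟨h1, ψ, h2, h3⟩ := hk
  exact ⟨h1, ψ, h2, fun v hv => h3 v (htr _ _ _ h hv)⟩

theorem code_imp_left (a b : Fm) : a.code ≤ (Fm.imp a b).code := by
  simp only [Fm.code]
  have := Nat.left_le_pair a.code b.code
  omega

theorem code_imp_right (a b : Fm) : b.code ≤ (Fm.imp a b).code := by
  simp only [Fm.code]
  have := Nat.right_le_pair a.code b.code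
  omega

theorem code_box (a : Fm) : a.code ≤ (Fm.box a).code := by
  simp only [Fm.code]
  omega

theorem holds_transfer {W W' : Type} {R : W → W → Prop} {R' : W' → W' → Prop} (c : ℕ)
    (V : ℕ → W → Prop) (hrefl : ∀ w, R w w) (π : W' → W)
    (h1 : ∀ w u, R' w u → Bx R V c (π w) ⊆ Bx R V c (π u))
    (h2 : ∀ w ψ, (Fm.box ψ).code ≤ c → ¬ Holds R V (.box ψ) (π w) →
      ∃ u, R' w u ∧ ¬ Holds R V ψ (π u)) :
    ∀ (ψ : Fm), ψ.code ≤ c → ∀ w, Holds R' (fun n w => V n (π w)) ψ w ↔ Holds R V ψ (π w)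
  | .bot, _, w => Iff.rfl
  | .var n, _, w => Iff.rfl
  | .imp a b, hc, w => by
    simp only [Holds]
    rw [holds_transfer c V hrefl π h1 h2 a ((code_imp_left a b).trans hc) w,
      holds_transfer c V hrefl π h1 h2 b ((code_imp_right a b).trans hc) w]
  | .box a, hc, w => by
    have ih := holds_transfer c V hrefl π h1 h2 a ((code_box a).trans hc)
    constructor
    · intro h
      by_contra hn
      obtain ⟨u, hu, hu2⟩ := h2 w a hc hn
      exact hu2 ((ih u).1 (h u hu))
    · intro h u hu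
      have h3 : (Fm.box a).code ∈ Bx R V c (π w) := (mem_Bx hc).2 h
      have h4 := (mem_Bx hc).1 (h1 w u hu h3)
      exact (ih u).2 (h4 _ (hrefl _))

theorem Bx_transfer {W W' : Type} {R : W → W → Prop} {R' : W' → W' → Prop} (c : ℕ)
    (V : ℕ → W → Prop) (hrefl : ∀ w, R w w) (π : W' → W)
    (h1 : ∀ w u, R' w u → Bx R V c (π w) ⊆ Bx R V c (π u))
    (h2 : ∀ w ψ, (Fm.box ψ).code ≤ c → ¬ Holds R V (.box ψ) (π w) →
      ∃ u, R' w u ∧ ¬ Holds R V ψ (π u)) (w : W') :
    Bx R' (fun n w => V n (π w)) c w = Bx R V c (π w) := by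
  classical
  ext k
  unfold Bx
  rw [Finset.mem_filter, Finset.mem_filter]
  refine and_congr_right fun hk => exists_congr fun ψ => and_congr_right fun h3 => ?_
  refine holds_transfer c V hrefl π h1 h2 _ ?_ w
  rw [h3]
  exact Nat.lt_succ_iff.1 (Finset.mem_range.1 hk)


/-! ### Aligning two rows -/

theorem surj_of_step {α : ℕ → ℕ} (hs : ∀ i, α (i + 1) ≤ α i + 1) (hm : Monotone α)
    (hu : ∀ i, ∃ k, α i < α k) : ∀ i a, α i ≤ a → ∃ k, i ≤ k ∧ α k = a := by
  intro i a ha
  induction a, ha using Nat.le_induction with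
  | base => exact ⟨i, le_rfl, rfl⟩
  | succ a ha ih =>
    obtain ⟨k, hk, hka⟩ := ih
    have hex : ∃ m, a < α m := by
      obtain ⟨m, hm2⟩ := hu k
      exact ⟨m, by omega⟩
    classical
    have hf := Nat.find_spec hex
    have hkm : k < Nat.find hex := by
      by_contra hc
      have := hm (not_lt.1 hc)
      omega
    obtain ⟨m, hm3⟩ : ∃ m, Nat.find hex = m + 1 := ⟨Nat.find hex - 1, by omega⟩
    have hmin := Nat.find_min hex (show m < Nat.find hex by omega)
    rw [hm3] at hf
    have := hs m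
    exact ⟨m + 1, by omega, by omega⟩

/-- one step of the alignment of two monotone sequences with the same values -/
noncomputable def nxt (g h : ℕ → Finset ℕ) (p : ℕ × ℕ) : ℕ × ℕ := by
  classical
  exact if g (p.1 + 1) = h (p.2 + 1) then (p.1 + 1, p.2 + 1)
    else if g (p.1 + 1) = g p.1 then (p.1 + 1, p.2) else (p.1, p.2 + 1)

/-- the alignment path -/
noncomputable def pth (g h : ℕ → Finset ℕ) : ℕ → ℕ × ℕ
  | 0 => (0, 0)
  | i + 1 => nxt g h (pth g h i)

theorem nxt_cases (g h : ℕ → Finset ℕ) (a b : ℕ) :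
    (g (a + 1) = h (b + 1) ∧ nxt g h (a, b) = (a + 1, b + 1)) ∨
    (g (a + 1) ≠ h (b + 1) ∧ g (a + 1) = g a ∧ nxt g h (a, b) = (a + 1, b)) ∨
    (g (a + 1) ≠ h (b + 1) ∧ g (a + 1) ≠ g a ∧ nxt g h (a, b) = (a, b + 1)) := by
  classical
  unfold nxt
  by_cases h1 : g (a + 1) = h (b + 1)
  · left
    simp [h1]
  · by_cases h2 : g (a + 1) = g a
    · right; left
      refine ⟨h1, h2, ?_⟩
      simp only
      rw [if_neg h1, if_pos h2]
    · right; right
      refine ⟨h1, h2, ?_⟩
      simp only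
      rw [if_neg h1, if_neg h2]

theorem pth_inv {g h : ℕ → Finset ℕ} (hg : Monotone g) (hh : Monotone h)
    (hr : Set.range g = Set.range h) (i : ℕ) : g (pth g h i).1 = h (pth g h i).2 := by
  induction i with
  | zero =>
    simp only [pth]
    apply le_antisymm
    · have : h 0 ∈ Set.range g := by rw [hr]; exact ⟨0, rfl⟩
      obtain ⟨a, ha⟩ := this
      rw [← ha]
      exact hg (Nat.zero_le a)
    · have : g 0 ∈ Set.range h := by rw [← hr]; exact ⟨0, rfl⟩
      obtain ⟨a, ha⟩ := this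
      rw [← ha]
      exact hh (Nat.zero_le a)
  | succ i ih =>
    simp only [pth]
    rcases hp : pth g h i with ⟨a, b⟩
    rw [hp] at ih
    simp only at ih
    rcases nxt_cases g h a b with ⟨h1, h2⟩ | ⟨_, h2, h3⟩ | ⟨h1, h2, h3⟩
    · rw [h2]; exact h1
    · rw [h3]; simp only; rw [h2, ih]
    · rw [h3]
      simp only
      by_contra hne
      apply h1
      have hne' : h (b + 1) ≠ h b := fun he => hne (by rw [he, ih])
      apply le_antisymm
      · have : h (b + 1) ∈ Set.range g := by rw [hr]; exact ⟨_, rfl⟩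
        obtain ⟨a', ha'⟩ := this
        rw [← ha']
        apply hg
        by_contra hc
        have h5 : g a' ≤ g a := hg (by omega)
        rw [ha', ih] at h5
        exact hne' (le_antisymm h5 (hh (Nat.le_succ b)))
      · have : g (a + 1) ∈ Set.range h := by rw [← hr]; exact ⟨_, rfl⟩
        obtain ⟨b', hb'⟩ := this
        rw [← hb']
        apply hh
        by_contra hc
        have h5 : h b' ≤ h b := hh (by omega)
        rw [hb', ← ih] at h5
        exact h2 (le_antisymm h5 (hg (Nat.le_succ a)))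

theorem pth_step (g h : ℕ → Finset ℕ) (i : ℕ) :
    (pth g h i).1 ≤ (pth g h (i + 1)).1 ∧ (pth g h (i + 1)).1 ≤ (pth g h i).1 + 1 ∧
    (pth g h i).2 ≤ (pth g h (i + 1)).2 ∧ (pth g h (i + 1)).2 ≤ (pth g h i).2 + 1 := by
  simp only [pth]
  rcases hp : pth g h i with ⟨a, b⟩
  rcases nxt_cases g h a b with ⟨_, h2⟩ | ⟨_, _, h2⟩ | ⟨_, _, h2⟩ <;> rw [h2] <;> simp

theorem pth_unb1 {g h : ℕ → Finset ℕ} (hg : Monotone g) (hh : Monotone h)
    (hr : Set.range g = Set.range h) (i : ℕ) : ∃ k, (pth g h i).1 < (pth g h k).1 := by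
  by_contra hcon
  push Not at hcon
  have hm : Monotone fun i => (pth g h i).1 := monotone_nat_of_le_succ fun i => (pth_step g h i).1
  have hconst : ∀ n, (pth g h (i + n)).1 = (pth g h i).1 := fun n =>
    le_antisymm (hcon _) (hm (Nat.le_add_right i n))
  have hstep : ∀ n, g ((pth g h i).1 + 1) ≠ g (pth g h i).1 ∧
      (pth g h (i + (n + 1))).2 = (pth g h (i + n)).2 + 1 := by
    intro n
    have e1 : pth g h (i + (n + 1)) = nxt g h (pth g h (i + n)) := rfl
    have c1 := hconst n
    have c2 := hconst (n + 1)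
    rcases hp : pth g h (i + n) with ⟨a, b⟩
    rw [e1, hp] at c2
    rw [hp] at c1
    rw [e1, hp]
    simp only at c1
    rcases nxt_cases g h a b with ⟨_, h2⟩ | ⟨_, _, h2⟩ | ⟨_, h3, h2⟩
    · rw [h2] at c2; simp only at c2; omega
    · rw [h2] at c2; simp only at c2; omega
    · rw [h2]
      refine ⟨?_, rfl⟩
      rw [← c1]
      exact h3
  have hb : ∀ n, (pth g h (i + n)).2 = (pth g h i).2 + n := by
    intro n
    induction n with
    | zero => rfl
    | succ n ih => rw [(hstep n).2, ih]; omega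
  have : g ((pth g h i).1 + 1) ∈ Set.range h := by rw [← hr]; exact ⟨_, rfl⟩
  obtain ⟨b', hb'⟩ := this
  have h6 : h b' ≤ h (pth g h (i + b')).2 := hh (by rw [hb]; omega)
  rw [← pth_inv hg hh hr, hconst, hb'] at h6
  exact (hstep 0).1 (le_antisymm h6 (hg (Nat.le_succ _)))

theorem pth_unb2 {g h : ℕ → Finset ℕ} (hg : Monotone g) (hh : Monotone h)
    (hr : Set.range g = Set.range h) (i : ℕ) : ∃ k, (pth g h i).2 < (pth g h k).2 := by
  by_contra hcon
  push Not at hcon
  have hm : Monotone fun i => (pth g h i).2 := monotone_nat_of_le_succ fun i => (pth_step g h i).2.2.1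
  have hconst : ∀ n, (pth g h (i + n)).2 = (pth g h i).2 := fun n =>
    le_antisymm (hcon _) (hm (Nat.le_add_right i n))
  have hstep : ∀ n, h ((pth g h i).2 + 1) ≠ h (pth g h i).2 ∧
      (pth g h (i + (n + 1))).1 = (pth g h (i + n)).1 + 1 := by
    intro n
    have e1 : pth g h (i + (n + 1)) = nxt g h (pth g h (i + n)) := rfl
    have c1 := hconst n
    have c2 := hconst (n + 1)
    have hinv := pth_inv hg hh hr (i + n)
    rcases hp : pth g h (i + n) with ⟨a, b⟩
    rw [e1, hp] at c2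
    rw [hp] at c1 hinv
    rw [e1, hp]
    simp only at c1 hinv
    rcases nxt_cases g h a b with ⟨_, h2⟩ | ⟨h4, h3, h2⟩ | ⟨_, h3, h2⟩
    · rw [h2] at c2; simp only at c2; omega
    · rw [h2]
      refine ⟨?_, rfl⟩
      rw [← c1]
      intro h5
      exact h4 (by rw [h3, hinv, h5])
    · rw [h2] at c2; simp only at c2; omega
  have hb : ∀ n, (pth g h (i + n)).1 = (pth g h i).1 + n := by
    intro n
    induction n with
    | zero => rfl
    | succ n ih => rw [(hstep n).2, ih]; omega
  have : h ((pth g h i).2 + 1) ∈ Set.range g := by rw [hr]; exact ⟨_, rfl⟩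
  obtain ⟨b', hb'⟩ := this
  have h6 : g b' ≤ g (pth g h (i + b')).1 := hg (by rw [hb]; omega)
  rw [pth_inv hg hh hr, hconst, hb'] at h6
  exact (hstep 0).1 (le_antisymm h6 (hh (Nat.le_succ _)))

theorem align (g h : ℕ → Finset ℕ) (hg : Monotone g) (hh : Monotone h)
    (hr : Set.range g = Set.range h) :
    ∃ α β : ℕ → ℕ, Monotone α ∧ Monotone β ∧ α 0 = 0 ∧ β 0 = 0 ∧
      (∀ i a, α i ≤ a → ∃ k, i ≤ k ∧ α k = a) ∧ (∀ i a, β i ≤ a → ∃ k, i ≤ k ∧ β k = a) ∧
      ∀ i, g (α i) = h (β i) := by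
  have hm1 : Monotone fun i => (pth g h i).1 := monotone_nat_of_le_succ fun i => (pth_step g h i).1
  have hm2 : Monotone fun i => (pth g h i).2 :=
    monotone_nat_of_le_succ fun i => (pth_step g h i).2.2.1
  exact ⟨fun i => (pth g h i).1, fun i => (pth g h i).2, hm1, hm2, rfl, rfl,
    surj_of_step (fun i => (pth_step g h i).2.1) hm1 (pth_unb1 hg hh hr),
    surj_of_step (fun i => (pth_step g h i).2.2.2) hm2 (pth_unb2 hg hh hr), pth_inv hg hh hr⟩


/-! ### Models on `ω × ω`: removing rows and columns -/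

/-- the box theory at a point of a model on `ω × ω` -/
noncomputable abbrev Bq (V : ℕ → ℕ × ℕ → Prop) (c : ℕ) (w : ℕ × ℕ) : Finset ℕ :=
  Bx (fun a b : ℕ × ℕ => a ≤ b) V c w

/-- rows from `J` on have the same box theories -/
def RowStab (V : ℕ → ℕ × ℕ → Prop) (c J : ℕ) : Prop := ∀ i j, J ≤ j → Bq V c (i, j) = Bq V c (i, J)

/-- columns from `I` on have the same box theories -/
def ColStab (V : ℕ → ℕ × ℕ → Prop) (c I : ℕ) : Prop := ∀ i j, I ≤ i → Bq V c (i, j) = Bq V c (I, j)

/-- the formula with code `c` is refuted at the origin -/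
def Red (V : ℕ → ℕ × ℕ → Prop) (c : ℕ) : Prop :=
  ¬ Holds (fun a b : ℕ × ℕ => a ≤ b) V (ofCode c) (0, 0)

theorem Bq_mono (V : ℕ → ℕ × ℕ → Prop) (c : ℕ) {w u : ℕ × ℕ} (h : w ≤ u) : Bq V c w ⊆ Bq V c u :=
  Bx_mono (R := fun a b : ℕ × ℕ => a ≤ b) (fun _ _ _ h1 h2 => le_trans h1 h2) h

theorem not_holds_box {W : Type} {R : W → W → Prop} {V : ℕ → W → Prop} {ψ : Fm} {w : W}
    (h : ¬ Holds R V (.box ψ) w) : ∃ u, R w u ∧ ¬ Holds R V ψ u := by
  simp only [Holds] at h
  push Not at h
  exact h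

theorem rowcut (V : ℕ → ℕ × ℕ → Prop) (c J : ℕ) (hR : Red V c) (hJ : RowStab V c J)
    (hbig : 2 ^ 2 ^ (c + 1) < J) : ∃ V' J', J' < J ∧ Red V' c ∧ RowStab V' c J' := by
  classical
  -- pigeonhole on the sets of values of rows `1, …, J`
  let rng : ℕ → Finset (Finset ℕ) := fun j =>
    (Finset.range (c + 1)).powerset.filter fun S => ∃ i, Bq V c (i, j) = S
  have hmaps : ∀ j ∈ Finset.Icc 1 J, rng j ∈ (Finset.range (c + 1)).powerset.powerset := by
    intro j _
    rw [Finset.mem_powerset]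
    exact Finset.filter_subset _ _
  have hcard : ((Finset.range (c + 1)).powerset.powerset).card < (Finset.Icc 1 J).card := by
    rw [Finset.card_powerset, Finset.card_powerset, Finset.card_range, Nat.card_Icc]
    omega
  obtain ⟨x, hx, y, hy, hxy, hf⟩ := Finset.exists_ne_map_eq_of_card_lt_of_maps_to hcard hmaps
  obtain ⟨j1, j2, h1, h12, h2, hrg⟩ : ∃ j1 j2, 1 ≤ j1 ∧ j1 < j2 ∧ j2 ≤ J ∧ rng j1 = rng j2 := by
    rw [Finset.mem_Icc] at hx hy
    rcases lt_or_gt_of_ne hxy with h | h
    · exact ⟨x, y, hx.1, h, hy.2, hf⟩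
    · exact ⟨y, x, hy.1, h, hx.2, hf.symm⟩
  have hrange : Set.range (fun i => Bq V c (i, j1)) = Set.range (fun i => Bq V c (i, j2)) := by
    have key : ∀ j, Set.range (fun i => Bq V c (i, j)) = {S | S ∈ rng j} := by
      intro j
      ext S
      simp only [Set.mem_range, Set.mem_ofPred_eq, rng, Finset.mem_filter, Finset.mem_powerset]
      constructor
      · rintro ⟨i, hi⟩
        exact ⟨by rw [← hi]; exact Bx_sub, i, hi⟩
      · rintro ⟨_, i, hi⟩
        exact ⟨i, hi⟩
    rw [key, key, hrg]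
  have hrowmono : ∀ j, Monotone (fun i => Bq V c (i, j)) := fun j a b hab =>
    Bq_mono V c (show (a, j) ≤ (b, j) from ⟨hab, le_rfl⟩)
  obtain ⟨α, β, hα, hβ, hα0, hβ0, hαs, hβs, hαβ⟩ := align _ _ (hrowmono j1) (hrowmono j2) hrange
  replace hαβ : ∀ i, Bq V c (α i, j1) = Bq V c (β i, j2) := hαβ
  let s := j2 - j1
  let π : ℕ × ℕ → ℕ × ℕ := fun w => if w.2 < j1 then (α w.1, w.2) else (β w.1, w.2 + s)
  have hπ1 : ∀ i j, j < j1 → π (i, j) = (α i, j) := fun i j h => by simp only [π, if_pos h]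
  have hπ2 : ∀ i j, j1 ≤ j → π (i, j) = (β i, j + s) := fun i j h => by
    simp only [π, if_neg (not_lt.2 h)]
  have c1 : ∀ w u : ℕ × ℕ, w ≤ u → Bq V c (π w) ⊆ Bq V c (π u) := by
    rintro ⟨i, j⟩ ⟨i', j'⟩ ⟨hi, hj⟩
    simp only at hi hj
    by_cases ha : j < j1
    · rw [hπ1 i j ha]
      by_cases hb : j' < j1
      · rw [hπ1 i' j' hb]
        exact Bq_mono V c ⟨hα hi, hj⟩
      · rw [hπ2 i' j' (not_lt.1 hb)]
        have e1 : Bq V c (α i, j) ⊆ Bq V c (α i', j1) := Bq_mono V c ⟨hα hi, ha.le⟩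
        rw [hαβ] at e1
        refine e1.trans (Bq_mono V c ⟨le_rfl, ?_⟩)
        simp only [s]
        omega
    · rw [hπ2 i j (not_lt.1 ha), hπ2 i' j' (by omega)]
      exact Bq_mono V c ⟨hβ hi, by simp only; omega⟩
  have c2u : ∀ i j ψ, j1 ≤ j → ¬ Holds (fun a b : ℕ × ℕ => a ≤ b) V (.box ψ) (β i, j + s) →
      ∃ u : ℕ × ℕ, (i, j) ≤ u ∧ ¬ Holds (fun a b : ℕ × ℕ => a ≤ b) V ψ (π u) := by
    intro i j ψ hj hn
    obtain ⟨⟨a, d⟩, ⟨hle1, hle2⟩, hu2⟩ := not_holds_box hn
    simp only at hle1 hle2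
    obtain ⟨k, hk1, hk2⟩ := hβs i a hle1
    refine ⟨(k, d - s), ⟨hk1, by simp only; omega⟩, ?_⟩
    rw [hπ2 _ _ (by omega), hk2, Nat.sub_add_cancel (by omega)]
    exact hu2
  have c2 : ∀ (w : ℕ × ℕ) ψ, (Fm.box ψ).code ≤ c →
      ¬ Holds (fun a b : ℕ × ℕ => a ≤ b) V (.box ψ) (π w) →
      ∃ u : ℕ × ℕ, w ≤ u ∧ ¬ Holds (fun a b : ℕ × ℕ => a ≤ b) V ψ (π u) := by
    rintro ⟨i, j⟩ ψ hψ hn
    by_cases ha : j < j1
    · rw [hπ1 i j ha] at hn
      obtain ⟨⟨a, d⟩, ⟨hle1, hle2⟩, hu2⟩ := not_holds_box hn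
      simp only at hle1 hle2
      obtain ⟨k, hk1, hk2⟩ := hαs i a hle1
      by_cases hd : d < j1
      · refine ⟨(k, d), ⟨hk1, hle2⟩, ?_⟩
        rw [hπ1 _ _ hd, hk2]
        exact hu2
      · have hn2 : ¬ Holds (fun a b : ℕ × ℕ => a ≤ b) V (.box ψ) (α k, j1) := by
          intro hh
          exact hu2 (hh (a, d) ⟨by rw [hk2], not_lt.1 hd⟩)
        have hn3 : ¬ Holds (fun a b : ℕ × ℕ => a ≤ b) V (.box ψ) (β k, j1 + s) := by
          rw [← mem_Bx hψ] at hn2 ⊢
          have e : j1 + s = j2 := by simp only [s]; omega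
          rw [e]
          have := hαβ k
          unfold Bq at this
          rwa [← this]
        obtain ⟨u, hu1, hu3⟩ := c2u k j1 ψ le_rfl hn3
        exact ⟨u, le_trans ⟨hk1, ha.le⟩ hu1, hu3⟩
    · rw [hπ2 i j (not_lt.1 ha)] at hn
      exact c2u i j ψ (not_lt.1 ha) hn
  have hB : ∀ w, Bq (fun n w => V n (π w)) c w = Bq V c (π w) :=
    fun w => Bx_transfer c V (fun _ => le_rfl) π c1 c2 w
  refine ⟨fun n w => V n (π w), J - s, by simp only [s]; omega, ?_, ?_⟩
  · unfold Red
    rw [holds_transfer c V (fun _ => le_rfl) π c1 c2 (ofCode c) (by rw [code_ofCode]) (0, 0),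
      hπ1 0 0 (by omega), hα0]
    exact hR
  · intro i j hj
    have hs1 : j1 ≤ J - s := by simp only [s]; omega
    rw [hB, hB, hπ2 i j (by omega), hπ2 i (J - s) hs1, hJ (β i) (j + s) (by omega),
      Nat.sub_add_cancel (by simp only [s]; omega)]

theorem colcut (V : ℕ → ℕ × ℕ → Prop) (c I J : ℕ) (hR : Red V c) (hJ : RowStab V c J)
    (hI : ColStab V c I) (hbig : (J + 1) * (c + 1) + 1 < I) :
    ∃ V' I', I' < I ∧ Red V' c ∧ RowStab V' c J ∧ ColStab V' c I' := by
  classical
  -- two adjacent equal columns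
  obtain ⟨i0, hi1, hi2, heq⟩ : ∃ i0, 1 ≤ i0 ∧ i0 < I ∧ ∀ j, Bq V c (i0, j) = Bq V c (i0 + 1, j) := by
    by_contra hcon
    push Not at hcon
    have hex : ∀ i ∈ Finset.Ico 1 I, ∃ p : ℕ × ℕ, p.1 < J + 1 ∧ p.2 < c + 1 ∧
        p.2 ∈ Bq V c (i + 1, p.1) ∧ p.2 ∉ Bq V c (i, p.1) := by
      intro i hi
      rw [Finset.mem_Ico] at hi
      obtain ⟨j, hj⟩ := hcon i hi.1 hi.2
      have hsub : ∀ j, Bq V c (i, j) ⊆ Bq V c (i + 1, j) := fun j =>
        Bq_mono V c ⟨Nat.le_succ i, le_rfl⟩
      have hj' : ∃ j', j' < J + 1 ∧ Bq V c (i, j') ≠ Bq V c (i + 1, j') := by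
        by_cases h : j < J + 1
        · exact ⟨j, h, hj⟩
        · refine ⟨J, by omega, ?_⟩
          rw [hJ i j (by omega), hJ (i + 1) j (by omega)] at hj
          exact hj
      obtain ⟨j', hj1, hj2⟩ := hj'
      have : ¬ Bq V c (i + 1, j') ⊆ Bq V c (i, j') := fun h => hj2 (Finset.Subset.antisymm (hsub j') h)
      rw [Finset.not_subset] at this
      obtain ⟨k, hk1, hk2⟩ := this
      exact ⟨(j', k), hj1, Finset.mem_range.1 (Bx_sub hk1), hk1, hk2⟩
    choose! f hf1 hf2 hf3 hf4 using hex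
    have hmaps : ∀ i ∈ Finset.Ico 1 I, f i ∈ Finset.range (J + 1) ×ˢ Finset.range (c + 1) := by
      intro i hi
      rw [Finset.mem_product, Finset.mem_range, Finset.mem_range]
      exact ⟨hf1 i hi, hf2 i hi⟩
    have hcard : (Finset.range (J + 1) ×ˢ Finset.range (c + 1)).card < (Finset.Ico 1 I).card := by
      rw [Finset.card_product, Finset.card_range, Finset.card_range, Nat.card_Ico]
      omega
    obtain ⟨x, hx, y, hy, hxy, hf⟩ := Finset.exists_ne_map_eq_of_card_lt_of_maps_to hcard hmaps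
    have main : ∀ x ∈ Finset.Ico 1 I, ∀ y ∈ Finset.Ico 1 I, x < y → f x = f y → False := by
      intro x hx y hy hlt he
      have a1 := hf3 x hx
      have a2 := hf4 y hy
      rw [← he] at a2
      exact a2 (Bq_mono V c (show (x + 1, (f x).1) ≤ (y, (f x).1) from ⟨hlt, le_rfl⟩) a1)
    rcases lt_or_gt_of_ne hxy with h | h
    · exact main x hx y hy h hf
    · exact main y hy x hx h hf.symm
  let π : ℕ × ℕ → ℕ × ℕ := fun w => if w.1 < i0 then w else (w.1 + 1, w.2)
  have hπ1 : ∀ i j, i < i0 → π (i, j) = (i, j) := fun i j h => by simp only [π, if_pos h]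
  have hπ2 : ∀ i j, i0 ≤ i → π (i, j) = (i + 1, j) := fun i j h => by
    simp only [π, if_neg (not_lt.2 h)]
  have c1 : ∀ w u : ℕ × ℕ, w ≤ u → Bq V c (π w) ⊆ Bq V c (π u) := by
    rintro ⟨i, j⟩ ⟨i', j'⟩ ⟨hi, hj⟩
    simp only at hi hj
    apply Bq_mono
    by_cases ha : i < i0
    · rw [hπ1 i j ha]
      by_cases hb : i' < i0
      · rw [hπ1 i' j' hb]
        exact ⟨hi, hj⟩
      · rw [hπ2 i' j' (not_lt.1 hb)]
        exact ⟨by simp only; omega, hj⟩
    · rw [hπ2 i j (not_lt.1 ha), hπ2 i' j' (by omega)]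
      exact ⟨by simp only; omega, hj⟩
  have c2 : ∀ (w : ℕ × ℕ) ψ, (Fm.box ψ).code ≤ c →
      ¬ Holds (fun a b : ℕ × ℕ => a ≤ b) V (.box ψ) (π w) →
      ∃ u : ℕ × ℕ, w ≤ u ∧ ¬ Holds (fun a b : ℕ × ℕ => a ≤ b) V ψ (π u) := by
    rintro ⟨i, j⟩ ψ hψ hn
    obtain ⟨⟨a, d⟩, hle, hu2⟩ := not_holds_box hn
    -- a falsifying point outside column `i0`
    have hgen : ∀ a d : ℕ, a ≠ i0 → π (i, j) ≤ (a, d) →
        ¬ Holds (fun a b : ℕ × ℕ => a ≤ b) V ψ (a, d) →
        ∃ u : ℕ × ℕ, (i, j) ≤ u ∧ ¬ Holds (fun a b : ℕ × ℕ => a ≤ b) V ψ (π u) := by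
      intro a d hne hle hu
      by_cases hai : a < i0
      · refine ⟨(a, d), ?_, by rw [hπ1 a d hai]; exact hu⟩
        by_cases hi : i < i0
        · rwa [hπ1 i j hi] at hle
        · rw [hπ2 i j (not_lt.1 hi)] at hle
          have := hle.1
          simp only at this
          omega
      · refine ⟨(a - 1, d), ?_, ?_⟩
        · by_cases hi : i < i0
          · rw [hπ1 i j hi] at hle
            exact ⟨by simp only; omega, hle.2⟩
          · rw [hπ2 i j (not_lt.1 hi)] at hle
            have := hle.1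
            simp only at this
            exact ⟨by simp only; omega, hle.2⟩
        · rw [hπ2 _ _ (by omega), Nat.sub_add_cancel (by omega)]
          exact hu
    by_cases hai : a = i0
    · subst hai
      have hn2 : ¬ Holds (fun a b : ℕ × ℕ => a ≤ b) V (.box ψ) (a, d) := fun hh =>
        hu2 (hh (a, d) le_rfl)
      have hn3 : ¬ Holds (fun a b : ℕ × ℕ => a ≤ b) V (.box ψ) (a + 1, d) := by
        rw [← mem_Bx hψ] at hn2 ⊢
        have := heq d
        unfold Bq at this
        rwa [← this]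
      obtain ⟨⟨a', d'⟩, hle', hu'⟩ := not_holds_box hn3
      have h1 := hle'.1
      simp only at h1
      exact hgen a' d' (by omega)
        (le_trans hle (le_trans (show (a, d) ≤ (a + 1, d) from ⟨Nat.le_succ a, le_rfl⟩) hle')) hu'
    · exact hgen a d hai hle hu2
  have hB : ∀ w, Bq (fun n w => V n (π w)) c w = Bq V c (π w) :=
    fun w => Bx_transfer c V (fun _ => le_rfl) π c1 c2 w
  refine ⟨fun n w => V n (π w), I - 1, by omega, ?_, ?_, ?_⟩
  · unfold Red
    rw [holds_transfer c V (fun _ => le_rfl) π c1 c2 (ofCode c) (by rw [code_ofCode]) (0, 0),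
      hπ1 0 0 (by omega)]
    exact hR
  · intro i j hj
    rw [hB, hB]
    by_cases hi : i < i0
    · rw [hπ1 i j hi, hπ1 i J hi]
      exact hJ i j hj
    · rw [hπ2 i j (not_lt.1 hi), hπ2 i J (not_lt.1 hi)]
      exact hJ _ j hj
  · intro i j hi
    rw [hB, hB, hπ2 i j (by omega), hπ2 (I - 1) j (by omega), hI (i + 1) j (by omega),
      Nat.sub_add_cancel (by omega)]

theorem stab_exists (c : ℕ) (f : ℕ → ℕ → Finset ℕ) (hsub : ∀ i j, f i j ⊆ Finset.range (c + 1))
    (h1 : ∀ i i' j, i ≤ i' → f i j ⊆ f i' j) (h2 : ∀ i j j', j ≤ j' → f i j ⊆ f i j') :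
    ∃ J, ∀ i j, J ≤ j → f i j = f i J := by
  classical
  have hk : ∀ k, ∃ J, ∀ i j, J ≤ j → (k ∈ f i j → k ∈ f i J) := by
    intro k
    by_cases hex : ∃ i, ∃ j, k ∈ f i j
    · obtain ⟨J, hJ⟩ := Nat.find_spec hex
      refine ⟨J, fun i j _ hkj => ?_⟩
      have : Nat.find hex ≤ i := Nat.find_min' hex ⟨j, hkj⟩
      exact h1 _ _ _ this hJ
    · push Not at hex
      exact ⟨0, fun i j _ hkj => absurd hkj (hex i j)⟩
  choose g hg using hk
  refine ⟨(Finset.range (c + 1)).sup g, fun i j hj => Finset.Subset.antisymm ?_ (h2 _ _ _ hj)⟩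
  intro k hkj
  have hkr := hsub _ _ hkj
  have hle : g k ≤ (Finset.range (c + 1)).sup g := Finset.le_sup hkr
  exact h2 _ _ _ hle (hg k i j (hle.trans hj) hkj)

theorem small_model (c : ℕ) (V : ℕ → ℕ × ℕ → Prop) (hR : Red V c) :
    ∃ V' I J, Red V' c ∧ RowStab V' c J ∧ ColStab V' c I ∧ J ≤ 2 ^ 2 ^ (c + 1) ∧
      I ≤ (J + 1) * (c + 1) + 1 := by
  classical
  have s1 : ∀ J V, Red V c → RowStab V c J →
      ∃ V' J', Red V' c ∧ RowStab V' c J' ∧ J' ≤ 2 ^ 2 ^ (c + 1) := by
    intro J
    induction J using Nat.strong_induction_on with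
    | _ J ih =>
      intro V hR hJ
      by_cases hb : J ≤ 2 ^ 2 ^ (c + 1)
      · exact ⟨V, J, hR, hJ, hb⟩
      · obtain ⟨V', J', hlt, hR', hJ'⟩ := rowcut V c J hR hJ (not_le.1 hb)
        exact ih J' hlt V' hR' hJ'
  have s2 : ∀ J I V, Red V c → RowStab V c J → ColStab V c I →
      ∃ V' I', Red V' c ∧ RowStab V' c J ∧ ColStab V' c I' ∧ I' ≤ (J + 1) * (c + 1) + 1 := by
    intro J I
    induction I using Nat.strong_induction_on with
    | _ I ih =>
      intro V hR hJ hI
      by_cases hb : I ≤ (J + 1) * (c + 1) + 1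
      · exact ⟨V, I, hR, hJ, hI, hb⟩
      · obtain ⟨V', I', hlt, hR', hJ', hI'⟩ := colcut V c I J hR hJ hI (not_le.1 hb)
        exact ih I' hlt V' hR' hJ' hI'
  obtain ⟨J, hJ⟩ := stab_exists c (fun i j => Bq V c (i, j)) (fun _ _ => Bx_sub)
    (fun i i' j h => Bq_mono V c ⟨h, le_rfl⟩) (fun i j j' h => Bq_mono V c ⟨le_rfl, h⟩)
  obtain ⟨V1, J1, hR1, hJ1, hb1⟩ := s1 J V hR hJ
  obtain ⟨I, hI⟩ := stab_exists c (fun j i => Bq V1 c (i, j)) (fun _ _ => Bx_sub)
    (fun j j' i h => Bq_mono V1 c ⟨le_rfl, h⟩) (fun j i i' h => Bq_mono V1 c ⟨h, le_rfl⟩)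
  obtain ⟨V2, I2, hR2, hJ2, hI2, hb2⟩ := s2 J1 I V1 hR1 hJ1 (fun i j h => hI j i h)
  exact ⟨V2, I2, J1, hR2, hJ2, hI2, hb1, hb2⟩


/-! ### Finite frames refuting the non-theorems -/

/-- the digits of `q` in base `2 N`, read as a point of the `n`-th power of the lasso
`0 → 1 → ⋯ → 2 N - 1 → N` -/
def dig (N n q : ℕ) : Fin n → ℕ := fun l => q / (2 * N) ^ (l : ℕ) % (2 * N)

/-- accessibility in the finite frame `F_{N, n}` with `(2 N) ^ n` points: the `n`-th power of the
lasso with `N` transient points and a cluster of `N` points -/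
def FR (N n : ℕ) (q r : ℕ) : Prop :=
  r < (2 * N) ^ n ∧ ∀ l : Fin n, dig N n q l ≤ dig N n r l ∨ (N ≤ dig N n q l ∧ N ≤ dig N n r l)

/-- truth at the origin of the finite frame `F_{N, n}` under all valuations -/
def FV (N n : ℕ) (φ : Fm) : Prop := ∀ V : ℕ → ℕ → Prop, Holds (FR N n) V φ 0

theorem dig_lt {N : ℕ} (hN : 0 < N) (n q : ℕ) (l : Fin n) : dig N n q l < 2 * N :=
  Nat.mod_lt _ (by omega)

theorem dig_surj {N n : ℕ} (y : Fin n → ℕ) (hy : ∀ l, y l < 2 * N) :
    ∃ r, r < (2 * N) ^ n ∧ dig N n r = y := by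
  let f : Fin n → Fin (2 * N) := fun l => ⟨y l, hy l⟩
  refine ⟨(finFunctionFinEquiv f : ℕ), (finFunctionFinEquiv f).2, ?_⟩
  funext l
  have h := congrFun (finFunctionFinEquiv.symm_apply_apply f) l
  have h2 : ((finFunctionFinEquiv.symm (finFunctionFinEquiv f) l : Fin (2 * N)) : ℕ) = y l :=
    congrArg Fin.val h
  exact h2

theorem dig_zero (N n : ℕ) : dig N n 0 = 0 := by
  funext l
  simp [dig]

/-- the `n`-th power of the lasso is a p-morphic image of `(ω^n, ≤)` -/
theorem FV_of_logic {n : ℕ} {φ : Fm} (h : φ ∈ Logic n) {N : ℕ} (hN : 0 < N) : FV N n φ := by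
  classical
  intro V
  -- the retraction of `ω` onto the lasso
  let ρ1 : ℕ → ℕ := fun i => if i < N then i else N + (i - N) % N
  have hρ1 : ∀ i, ρ1 i < 2 * N := by
    intro i
    simp only [ρ1]
    split_ifs
    · omega
    · have := Nat.mod_lt (i - N) hN
      omega
  have hmono : ∀ i j, i ≤ j → ρ1 i ≤ ρ1 j ∨ (N ≤ ρ1 i ∧ N ≤ ρ1 j) := by
    intro i j hij
    simp only [ρ1]
    split_ifs with h1 h2
    · left; exact hij
    · left; omega
    · omega
    · right; omega
  have hback : ∀ i v, v < 2 * N → (ρ1 i ≤ v ∨ (N ≤ ρ1 i ∧ N ≤ v)) → ∃ j, i ≤ j ∧ ρ1 j = v := by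
    intro i v hv hr
    by_cases hvN : v < N
    · have h1 : i < N := by
        by_contra hc
        simp only [ρ1, if_neg hc] at hr
        omega
      simp only [ρ1, if_pos h1] at hr
      exact ⟨v, by omega, by simp only [ρ1, if_pos hvN]⟩
    · refine ⟨v + N * i, ?_, ?_⟩
      · have : i ≤ N * i := Nat.le_mul_of_pos_left i hN
        omega
      · have h2 : ¬ (v + N * i < N) := by omega
        simp only [ρ1, if_neg h2]
        have h3 : v + N * i - N = (v - N) + N * i := by omega
        rw [h3, Nat.add_mul_mod_self_left, Nat.mod_eq_of_lt (by omega)]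
        omega
  choose ρ hρ1' hρ2' using fun w : Fin n → ℕ => dig_surj (N := N) (fun l => ρ1 (w l)) (fun l => hρ1 _)
  have key := holds_pmorph (R := fun a b : Fin n → ℕ => a ≤ b) (R' := FR N n) ρ ?_ ?_ V φ
  · -- the origin
    have h0 : dig N n (ρ 0) = 0 := by
      rw [hρ2' 0]
      funext l
      simp [ρ1, hN]
    have h1 : ρ 0 = 0 := by
      -- a number with zero digits below the bound is zero
      have hb := hρ1' 0
      have e : finFunctionFinEquiv.symm (⟨ρ 0, hb⟩ : Fin ((2 * N) ^ n)) =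
          finFunctionFinEquiv.symm (⟨0, by positivity⟩ : Fin ((2 * N) ^ n)) := by
        funext l
        apply Fin.ext
        have := congrFun h0 l
        simp only [dig, Pi.zero_apply] at this
        simpa using this
      have := finFunctionFinEquiv.symm.injective e
      simpa using congrArg Fin.val this
    have := (key 0).1 (h _ _)
    rwa [h1] at this
  · intro w u hwu
    refine ⟨hρ1' u, fun l => ?_⟩
    rw [hρ2' w, hρ2' u]
    exact hmono _ _ (hwu l)
  · intro w v hv
    obtain ⟨hv1, hv2⟩ := hv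
    rw [hρ2' w] at hv2
    have : ∀ l, ∃ j, w l ≤ j ∧ ρ1 j = dig N n v l := fun l =>
      hback (w l) _ (dig_lt hN n v l) (hv2 l)
    choose u hu1 hu2 using this
    refine ⟨u, hu1, ?_⟩
    have e : finFunctionFinEquiv.symm (⟨ρ u, hρ1' u⟩ : Fin ((2 * N) ^ n)) =
        finFunctionFinEquiv.symm (⟨v, hv1⟩ : Fin ((2 * N) ^ n)) := by
      funext l
      apply Fin.ext
      have h1 := congrFun (hρ2' u) l
      simp only [hu2 l, dig] at h1
      simpa using h1
    have := finFunctionFinEquiv.symm.injective e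
    simpa using congrArg Fin.val this

theorem periodize (n c N : ℕ) (V : ℕ → (Fin n → ℕ) → Prop) (I : Fin n → ℕ) (hI : ∀ l, I l ≤ N)
    (hN : c < N)
    (hst : ∀ x, Bx (fun a b : Fin n → ℕ => a ≤ b) V c x =
      Bx (fun a b : Fin n → ℕ => a ≤ b) V c (x ⊓ I))
    (h0 : ¬ Holds (fun a b : Fin n → ℕ => a ≤ b) V (ofCode c) 0) : ¬ FV N n (ofCode c) := by
  classical
  let good : (Fin n → ℕ) → ℕ → (Fin n → ℕ) → Prop := fun x k y =>
    y ⊓ I = x ⊓ I ∧ ∃ ψ : Fm, (Fm.box ψ).code = k ∧ ¬ Holds (fun a b : Fin n → ℕ => a ≤ b) V ψ y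
  let pi : (Fin n → ℕ) → (Fin n → ℕ) := fun x =>
    if ht : ∃ l, N ≤ x l then
      if hg : ∃ y, good x (x ht.choose - N) y then hg.choose else x
    else x
  have hpi_inf : ∀ x, pi x ⊓ I = x ⊓ I := by
    intro x
    simp only [pi]
    split_ifs with ht hg
    · exact hg.choose_spec.1
    · rfl
    · rfl
  have hpi_no : ∀ x, (¬ ∃ l, N ≤ x l) → pi x = x := by
    intro x h
    simp only [pi, dif_neg h]
  have hpi_k : ∀ x k ψ, (∃ l, N ≤ x l) → (∀ l, N ≤ x l → x l = N + k) → (Fm.box ψ).code = k →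
      (∃ a, a ⊓ I = x ⊓ I ∧ ¬ Holds (fun a b : Fin n → ℕ => a ≤ b) V ψ a) →
      ¬ Holds (fun a b : Fin n → ℕ => a ≤ b) V ψ (pi x) := by
    intro x k ψ ht hk hψ ⟨a, ha1, ha2⟩
    have hkk : x ht.choose - N = k := by
      have := hk _ ht.choose_spec
      omega
    have hg : ∃ y, good x (x ht.choose - N) y := ⟨a, ha1, ψ, by rw [hkk, hψ], ha2⟩
    simp only [pi, dif_pos ht, dif_pos hg]
    obtain ⟨_, ψ', h1, h2⟩ := hg.choose_spec
    rw [hkk, ← hψ] at h1
    have e : ψ' = ψ := by
      have h3 : ofCode (Fm.box ψ').code = ofCode (Fm.box ψ).code := by rw [h1]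
      rw [ofCode_code, ofCode_code] at h3
      exact Fm.box.inj h3
    rwa [e] at h2
  intro hFV
  let π : ℕ → (Fin n → ℕ) := fun q => pi (dig N n q)
  have hNpos : 0 < N := by omega
  have hBπ : ∀ q, Bx (fun a b : Fin n → ℕ => a ≤ b) V c (π q) =
      Bx (fun a b : Fin n → ℕ => a ≤ b) V c (dig N n q ⊓ I) := by
    intro q
    rw [hst (π q)]
    simp only [π]
    rw [hpi_inf]
  have c1 : ∀ q r, FR N n q r → Bx (fun a b : Fin n → ℕ => a ≤ b) V c (π q) ⊆
      Bx (fun a b : Fin n → ℕ => a ≤ b) V c (π r) := by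
    intro q r hqr
    rw [hBπ, hBπ]
    apply Bx_mono (R := fun a b : Fin n → ℕ => a ≤ b) (fun _ _ _ h1 h2 => le_trans h1 h2)
    intro l
    simp only [Pi.inf_apply]
    rcases hqr.2 l with h | ⟨h1, h2⟩
    · exact min_le_min_right _ h
    · have := hI l
      rw [min_eq_right (by omega), min_eq_right (by omega)]
  have c2 : ∀ q ψ, (Fm.box ψ).code ≤ c →
      ¬ Holds (fun a b : Fin n → ℕ => a ≤ b) V (.box ψ) (π q) →
      ∃ r, FR N n q r ∧ ¬ Holds (fun a b : Fin n → ℕ => a ≤ b) V ψ (π r) := by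
    intro q ψ hψ hn
    rw [← mem_Bx hψ, hBπ, mem_Bx hψ] at hn
    obtain ⟨a, ha1, ha2⟩ := not_holds_box hn
    set k := (Fm.box ψ).code with hk
    let y : Fin n → ℕ := fun l => if a l < I l then a l else N + k
    have hy : ∀ l, y l < 2 * N := by
      intro l
      have := hI l
      simp only [y]
      split_ifs <;> omega
    obtain ⟨r, hr1, hr2⟩ := dig_surj y hy
    have hyI : y ⊓ I = a ⊓ I := by
      funext l
      have := hI l
      simp only [Pi.inf_apply, y]
      split_ifs
      · rfl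
      · rw [min_eq_right (by omega), min_eq_right (by omega)]
    refine ⟨r, ⟨hr1, fun l => ?_⟩, ?_⟩
    · rw [hr2]
      have h1 := ha1 l
      have h2 := hI l
      simp only [Pi.inf_apply] at h1
      simp only [y]
      split_ifs with h3
      · left
        rcases min_le_iff.1 h1 with h | h
        · exact h
        · omega
      · by_cases h4 : dig N n q l < N
        · left; omega
        · right; omega
    · simp only [π]
      rw [hr2]
      by_cases ht : ∃ l, N ≤ y l
      · refine hpi_k y k ψ ht ?_ hk.symm ⟨a, hyI.symm, ha2⟩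
        intro l hl
        have := hI l
        simp only [y] at hl ⊢
        split_ifs with h3
        · rw [if_pos h3] at hl
          omega
        · rfl
      · rw [hpi_no y ht]
        have : y = a := by
          funext l
          by_contra hne
          apply ht
          refine ⟨l, ?_⟩
          simp only [y] at hne ⊢
          split_ifs with h3
          · rw [if_pos h3] at hne
            exact absurd rfl hne
          · omega
        rw [this]
        exact ha2
  have := (holds_transfer (R := fun a b : Fin n → ℕ => a ≤ b) (R' := FR N n) c V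
    (fun _ => le_rfl) π c1 c2 (ofCode c) (by rw [code_ofCode]) 0).1 (hFV _)
  apply h0
  have e : π 0 = 0 := by
    simp only [π]
    rw [dig_zero]
    apply hpi_no
    rintro ⟨l, hl⟩
    simp only [Pi.zero_apply] at hl
    omega
  rwa [e] at this

theorem upset_stab {n : ℕ} (U : Set (Fin n → ℕ)) (hU : ∀ x y, x ≤ y → x ∈ U → y ∈ U) :
    ∃ M : ℕ, ∀ x ∈ U, x ⊓ (fun _ => M) ∈ U := by
  by_contra hcon
  push Not at hcon
  choose f hf1 hf2 using hcon
  obtain ⟨g, hg⟩ := (wellQuasiOrdered_le (α := Fin n → ℕ)).exists_monotone_subseq f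
  obtain ⟨K, hK⟩ : ∃ K, ∀ l, f (g 0) l ≤ K := by
    refine ⟨Finset.univ.sup (f (g 0)), fun l => ?_⟩
    exact Finset.le_sup (Finset.mem_univ l)
  have h1 : K ≤ g K := g.strictMono.id_le K
  apply hf2 (g K)
  apply hU (f (g 0)) _ _ (hf1 _)
  intro l
  simp only [Pi.inf_apply]
  exact le_min (hg 0 K (Nat.zero_le _) l) ((hK l).trans h1)

theorem stab_general (n c : ℕ) (V : ℕ → (Fin n → ℕ) → Prop) :
    ∃ M : ℕ, ∀ x, Bx (fun a b : Fin n → ℕ => a ≤ b) V c x =
      Bx (fun a b : Fin n → ℕ => a ≤ b) V c (x ⊓ fun _ => M) := by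
  classical
  have hk : ∀ k, ∃ M : ℕ, ∀ x, k ∈ Bx (fun a b : Fin n → ℕ => a ≤ b) V c x →
      k ∈ Bx (fun a b : Fin n → ℕ => a ≤ b) V c (x ⊓ fun _ => M) := fun k =>
    upset_stab {x | k ∈ Bx (fun a b : Fin n → ℕ => a ≤ b) V c x} fun x y hxy hx =>
      Bx_mono (R := fun a b : Fin n → ℕ => a ≤ b) (fun _ _ _ h1 h2 => le_trans h1 h2) hxy hx
  choose g hg using hk
  refine ⟨(Finset.range (c + 1)).sup g, fun x => Finset.Subset.antisymm ?_ ?_⟩
  · intro k hk
    have hkr := Bx_sub hk
    have hle : g k ≤ (Finset.range (c + 1)).sup g := Finset.le_sup hkr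
    refine Bx_mono (R := fun a b : Fin n → ℕ => a ≤ b) (fun _ _ _ h1 h2 => le_trans h1 h2) ?_
      (hg k x hk)
    intro l
    simp only [Pi.inf_apply]
    exact min_le_min_left _ hle
  · exact Bx_mono (R := fun a b : Fin n → ℕ => a ≤ b) (fun _ _ _ h1 h2 => le_trans h1 h2)
      inf_le_left

/-- a non-theorem is refuted at the origin of `ω^n` -/
theorem refute_origin {n : ℕ} {φ : Fm} (h : φ ∉ Logic n) :
    ∃ V : ℕ → (Fin n → ℕ) → Prop, ¬ Holds (fun a b : Fin n → ℕ => a ≤ b) V φ 0 := by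
  simp only [Logic, Set.mem_ofPred_eq] at h
  push Not at h
  obtain ⟨V, w, hw⟩ := h
  refine ⟨fun k x => V k (w + x), ?_⟩
  rw [holds_pmorph (R := fun a b : Fin n → ℕ => a ≤ b) (R' := fun a b : Fin n → ℕ => a ≤ b)
    (fun x => w + x) (fun x u h => add_le_add_right h w) ?_ V φ 0]
  · simpa using hw
  · intro x v hv
    refine ⟨fun l => v l - w l, ?_, ?_⟩
    · intro l
      have := hv l
      simp only [Pi.add_apply] at this
      simp only
      omega
    · funext l
      have := hv l
      simp only [Pi.add_apply] at this ⊢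
      omega

/-- Every non-theorem of `L_n` is refuted in one of the finite frames `F_{N, n}`. -/
theorem logic_iff (n : ℕ) (φ : Fm) : φ ∈ Logic n ↔ ∀ N, FV (N + 1) n φ := by
  constructor
  · intro h N
    exact FV_of_logic h (Nat.succ_pos N)
  · intro h
    by_contra hn
    obtain ⟨V, hV⟩ := refute_origin hn
    obtain ⟨M, hM⟩ := stab_general n φ.code V
    have := periodize n φ.code (M + φ.code + 1) V (fun _ => M) (fun _ => by omega) (by omega) hM
      (by rw [ofCode_code]; exact hV)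
    rw [ofCode_code] at this
    exact this (h _)

/-- the size parameter of the finite frame deciding validity in `ω × ω` -/
def bnd (c : ℕ) : ℕ := (2 ^ 2 ^ (c + 1) + 1) * (c + 1) + 1

theorem logic_two_iff (φ : Fm) : φ ∈ Logic 2 ↔ FV (bnd φ.code) 2 φ := by
  constructor
  · intro h
    exact FV_of_logic h (Nat.succ_pos _)
  · intro h
    by_contra hn
    obtain ⟨V, hV⟩ := refute_origin hn
    -- transport to `ℕ × ℕ`
    set c := φ.code with hc
    let τ : ℕ × ℕ → (Fin 2 → ℕ) := fun p => ![p.1, p.2]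
    let σ : (Fin 2 → ℕ) → ℕ × ℕ := fun x => (x 0, x 1)
    have hστ : ∀ p, σ (τ p) = p := fun p => rfl
    have hτσ : ∀ x, τ (σ x) = x := by
      intro x
      funext l
      fin_cases l <;> rfl
    have hτ : ∀ p q : ℕ × ℕ, p ≤ q → τ p ≤ τ q := by
      intro p q h l
      fin_cases l
      · exact h.1
      · exact h.2
    have hσ : ∀ x y : Fin 2 → ℕ, x ≤ y → σ x ≤ σ y := fun x y h => ⟨h 0, h 1⟩
    have hR : Red (fun k p => V k (τ p)) c := by
      unfold Red
      rw [holds_pmorph (R := fun a b : ℕ × ℕ => a ≤ b) (R' := fun a b : Fin 2 → ℕ => a ≤ b) τ hτ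
        (fun w v hv => ⟨σ v, by have := hσ _ _ hv; rwa [hστ] at this, hτσ v⟩) V]
      rw [hc, ofCode_code]
      have : τ (0, 0) = 0 := by
        funext l
        fin_cases l <;> rfl
      rw [this]
      exact hV
    obtain ⟨V', I, J, hR', hJ, hI, hJb, hIb⟩ := small_model c _ hR
    have hH : ∀ ψ x, Holds (fun a b : Fin 2 → ℕ => a ≤ b) (fun k x => V' k (σ x)) ψ x ↔
        Holds (fun a b : ℕ × ℕ => a ≤ b) V' ψ (σ x) :=
      holds_pmorph (R := fun a b : Fin 2 → ℕ => a ≤ b) (R' := fun a b : ℕ × ℕ => a ≤ b) σ hσ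
        (fun w v hv => ⟨τ v, by have := hτ _ _ hv; rwa [hτσ] at this, hστ v⟩) V'
    have hB : ∀ x, Bx (fun a b : Fin 2 → ℕ => a ≤ b) (fun k x => V' k (σ x)) c x =
        Bq V' c (σ x) := by
      classical
      intro x
      ext k
      unfold Bq Bx
      rw [Finset.mem_filter, Finset.mem_filter]
      simp only [hH]
    have hJ2 : J ≤ bnd c := by
      unfold bnd
      have : 2 ^ 2 ^ (c + 1) * 1 ≤ (2 ^ 2 ^ (c + 1) + 1) * (c + 1) :=
        Nat.mul_le_mul (Nat.le_succ _) (by omega)
      omega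
    have hI2 : I ≤ bnd c := by
      unfold bnd
      have : (J + 1) * (c + 1) ≤ (2 ^ 2 ^ (c + 1) + 1) * (c + 1) :=
        Nat.mul_le_mul (by omega) le_rfl
      omega
    have hcb : c < bnd c := by
      unfold bnd
      have : 1 * (c + 1) ≤ (2 ^ 2 ^ (c + 1) + 1) * (c + 1) :=
        Nat.mul_le_mul (by omega) le_rfl
      omega
    have := periodize 2 c (bnd c) (fun k x => V' k (σ x)) ![I, J] ?_ hcb ?_ ?_
    · apply this
      rw [hc, ofCode_code]
      exact h
    · intro l
      fin_cases l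
      · exact hI2
      · exact hJ2
    · intro x
      rw [hB, hB]
      have e : ∀ i j, Bq V' c (i, j) = Bq V' c (min i I, min j J) := by
        intro i j
        have h1 : Bq V' c (i, j) = Bq V' c (min i I, j) := by
          rcases le_total i I with h | h
          · rw [min_eq_left h]
          · rw [min_eq_right h, hI i j h]
        rw [h1]
        rcases le_total j J with h | h
        · rw [min_eq_left h]
        · rw [min_eq_right h, hJ _ j h]
      exact e (x 0) (x 1)
    · rw [hH]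
      exact hR'


/-! ### The decision procedure is primitive recursive -/

theorem primrec_pow : Primrec₂ (fun a b : ℕ => a ^ b) := Primrec₂.unpaired'.1 Nat.Primrec.pow

/-- the accessibility relation of `F_{N, n}`, with a bounded quantifier over natural numbers -/
def FRn (n : ℕ) (N q r : ℕ) : Prop :=
  r < (2 * N) ^ n ∧ ∀ l ∈ List.range n,
    (q / (2 * N) ^ l % (2 * N) ≤ r / (2 * N) ^ l % (2 * N)) ∨
      (N ≤ q / (2 * N) ^ l % (2 * N) ∧ N ≤ r / (2 * N) ^ l % (2 * N))

theorem FRn_iff (n N q r : ℕ) : FRn n N q r ↔ FR N n q r := by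
  unfold FRn FR dig
  refine and_congr_right fun _ => ?_
  constructor
  · intro h l
    exact h l (List.mem_range.2 l.2)
  · intro h l hl
    exact h ⟨l, List.mem_range.1 hl⟩

theorem primrec_dig {α : Type} [Primcodable α] {N q l : α → ℕ} (hN : Primrec N) (hq : Primrec q)
    (hl : Primrec l) : Primrec fun a => q a / (2 * N a) ^ l a % (2 * N a) :=
  Primrec.nat_mod.comp
    (Primrec.nat_div.comp hq
      (primrec_pow.comp (Primrec.nat_mul.comp (Primrec.const 2) hN) hl))
    (Primrec.nat_mul.comp (Primrec.const 2) hN)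

theorem primrec_FRn (n : ℕ) : PrimrecPred fun p : ℕ × ℕ × ℕ => FRn n p.1 p.2.1 p.2.2 := by
  have hN : Primrec fun p : ℕ × (ℕ × ℕ × ℕ) => p.2.1 := Primrec.fst.comp Primrec.snd
  have hq : Primrec fun p : ℕ × (ℕ × ℕ × ℕ) => p.2.2.1 :=
    Primrec.fst.comp (Primrec.snd.comp Primrec.snd)
  have hr : Primrec fun p : ℕ × (ℕ × ℕ × ℕ) => p.2.2.2 :=
    Primrec.snd.comp (Primrec.snd.comp Primrec.snd)
  have hl : Primrec fun p : ℕ × (ℕ × ℕ × ℕ) => p.1 := Primrec.fst
  have dq := primrec_dig hN hq hl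
  have dr := primrec_dig hN hr hl
  have hrel : PrimrecRel fun (l : ℕ) (p : ℕ × ℕ × ℕ) =>
      (p.2.1 / (2 * p.1) ^ l % (2 * p.1) ≤ p.2.2 / (2 * p.1) ^ l % (2 * p.1)) ∨
      (p.1 ≤ p.2.1 / (2 * p.1) ^ l % (2 * p.1) ∧ p.1 ≤ p.2.2 / (2 * p.1) ^ l % (2 * p.1)) :=
    PrimrecPred.or (Primrec.nat_le.comp dq dr)
      (PrimrecPred.and (Primrec.nat_le.comp hN dq) (Primrec.nat_le.comp hN dr))
  have h2 := (hrel.forall_mem_list).comp (Primrec.const (List.range n))
    (Primrec.id (α := ℕ × ℕ × ℕ))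
  have h1 : PrimrecPred fun p : ℕ × ℕ × ℕ => p.2.2 < (2 * p.1) ^ n :=
    Primrec.nat_lt.comp (Primrec.snd.comp Primrec.snd)
      (primrec_pow.comp (Primrec.nat_mul.comp (Primrec.const 2) Primrec.fst) (Primrec.const n))
  exact PrimrecPred.and h1 h2

open Classical in
/-- truth table of a formula over the points of `F_{N, n}`, the valuation being given by the
binary digits of `v` -/
noncomputable def tt (n N v : ℕ) : Fm → List Bool
  | .bot => (List.range ((2 * N) ^ n)).map fun _ => false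
  | .var x => (List.range ((2 * N) ^ n)).map fun q =>
      decide (v / 2 ^ (x * (2 * N) ^ n + q) % 2 = 1)
  | .imp a b => (List.range ((2 * N) ^ n)).map fun q =>
      decide ((tt n N v a).getD q false = false ∨ (tt n N v b).getD q false = true)
  | .box a => (List.range ((2 * N) ^ n)).map fun q =>
      decide (∀ r ∈ List.range ((2 * N) ^ n), ¬ FRn n N q r ∨ (tt n N v a).getD r false = true)

theorem getD_map_range (P q : ℕ) (f : ℕ → Bool) (hq : q < P) :
    ((List.range P).map f).getD q false = f q := by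
  rw [List.getD_eq_getElem?_getD]
  simp [hq]

/-- the valuation coded by `v` -/
def bitV (n N v : ℕ) : ℕ → ℕ → Prop := fun x q => v / 2 ^ (x * (2 * N) ^ n + q) % 2 = 1

theorem tt_spec (n N v : ℕ) : ∀ (ψ : Fm) (q : ℕ), q < (2 * N) ^ n →
    ((tt n N v ψ).getD q false = true ↔ Holds (FR N n) (bitV n N v) ψ q)
  | .bot, q, hq => by
    rw [tt, getD_map_range _ _ _ hq]
    simp [Holds]
  | .var x, q, hq => by
    classical
    rw [tt, getD_map_range _ _ _ hq]
    simp [Holds, bitV]
  | .imp a b, q, hq => by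
    classical
    rw [tt, getD_map_range _ _ _ hq]
    have h1 := tt_spec n N v a q hq
    have h2 := tt_spec n N v b q hq
    rw [decide_eq_true_iff]
    simp only [Holds]
    rw [← h1, ← h2]
    cases (tt n N v a).getD q false <;> simp
  | .box a, q, hq => by
    classical
    rw [tt, getD_map_range _ _ _ hq]
    have hdec : ∀ (p : Prop) (inst : Decidable p), (@decide p inst = true ↔ p) := fun p inst =>
      @decide_eq_true_iff p inst
    refine (hdec _ _).trans ?_
    simp only [Holds, FRn_iff]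
    constructor
    · intro h u hu
      rcases h u (List.mem_range.2 hu.1) with h3 | h3
      · exact absurd hu h3
      · exact (tt_spec n N v a u hu.1).1 h3
    · intro h r hr
      by_cases h3 : FR N n q r
      · right
        exact (tt_spec n N v a r h3.1).2 (h r h3)
      · left; exact h3

open Classical in
/-- one step of the course-of-values recursion computing `tt` -/
noncomputable def ttStep (n : ℕ) (a : ℕ × ℕ) (L : List (List Bool)) : Option (List Bool) :=
  some (if L.length = 0 then (List.range ((2 * a.1) ^ n)).map fun _ => false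
    else if (L.length - 1) % 3 = 0 then (List.range ((2 * a.1) ^ n)).map fun q =>
      decide (a.2 / 2 ^ ((L.length - 1) / 3 * (2 * a.1) ^ n + q) % 2 = 1)
    else if (L.length - 1) % 3 = 1 then (List.range ((2 * a.1) ^ n)).map fun q =>
      decide ((L.getD ((L.length - 1) / 3).unpair.1 []).getD q false = false ∨
        (L.getD ((L.length - 1) / 3).unpair.2 []).getD q false = true)
    else (List.range ((2 * a.1) ^ n)).map fun q =>
      decide (∀ r ∈ List.range ((2 * a.1) ^ n), ¬ FRn n a.1 q r ∨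
        (L.getD ((L.length - 1) / 3) []).getD r false = true))

theorem ttStep_spec (n : ℕ) (a : ℕ × ℕ) (c : ℕ) :
    ttStep n a ((List.range c).map fun k => tt n a.1 a.2 (ofCode k)) =
      some (tt n a.1 a.2 (ofCode c)) := by
  classical
  unfold ttStep
  rw [List.length_map, List.length_range]
  congr 1
  have hget : ∀ k, k < c → ((List.range c).map fun k => tt n a.1 a.2 (ofCode k)).getD k [] =
      tt n a.1 a.2 (ofCode k) := by
    intro k hk
    rw [List.getD_eq_getElem?_getD]
    simp [hk]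
  cases c with
  | zero => rw [if_pos rfl, ofCode, tt]
  | succ k =>
    rw [if_neg (Nat.succ_ne_zero k), Nat.add_sub_cancel, ofCode]
    by_cases h0 : k % 3 = 0
    · rw [if_pos h0, if_pos h0, tt]
    · rw [if_neg h0, if_neg h0]
      by_cases h1 : k % 3 = 1
      · rw [if_pos h1, if_pos h1, tt, hget _ (unpair1_lt k), hget _ (unpair2_lt k)]
      · rw [if_neg h1, if_neg h1, tt, hget _ (div3_lt k)]

theorem primrec_ttStep (n : ℕ) : Primrec₂ (ttStep n) := by
  classical
  -- context: `p = ((N, v), L)`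
  have hN : Primrec fun p : (ℕ × ℕ) × List (List Bool) => p.1.1 := Primrec.fst.comp Primrec.fst
  have hP : Primrec fun p : (ℕ × ℕ) × List (List Bool) => (2 * p.1.1) ^ n :=
    primrec_pow.comp (Primrec.nat_mul.comp (Primrec.const 2) hN) (Primrec.const n)
  have hrange : Primrec fun p : (ℕ × ℕ) × List (List Bool) => List.range ((2 * p.1.1) ^ n) :=
    Primrec.list_range.comp hP
  have hlen : Primrec fun p : (ℕ × ℕ) × List (List Bool) => p.2.length :=
    Primrec.list_length.comp Primrec.snd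
  have hlen1 : Primrec fun p : (ℕ × ℕ) × List (List Bool) => p.2.length - 1 :=
    Primrec.nat_sub.comp hlen (Primrec.const 1)
  have hd3 : Primrec fun p : (ℕ × ℕ) × List (List Bool) => (p.2.length - 1) / 3 :=
    Primrec.nat_div.comp hlen1 (Primrec.const 3)
  have hm3 : Primrec fun p : (ℕ × ℕ) × List (List Bool) => (p.2.length - 1) % 3 :=
    Primrec.nat_mod.comp hlen1 (Primrec.const 3)
  have hget : ∀ {k : (ℕ × ℕ) × List (List Bool) → ℕ}, Primrec k →
      Primrec fun p : (ℕ × ℕ) × List (List Bool) => p.2.getD (k p) [] :=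
    fun hk => (Primrec.list_getD []).comp Primrec.snd hk
  -- falsum
  have b0 : Primrec fun p : (ℕ × ℕ) × List (List Bool) =>
      (List.range ((2 * p.1.1) ^ n)).map fun _ => false :=
    Primrec.list_map hrange (Primrec.const false).to₂
  -- variables
  have b1 : Primrec fun p : (ℕ × ℕ) × List (List Bool) =>
      (List.range ((2 * p.1.1) ^ n)).map fun q =>
        decide (p.1.2 / 2 ^ ((p.2.length - 1) / 3 * (2 * p.1.1) ^ n + q) % 2 = 1) := by
    refine Primrec.list_map hrange ?_
    have h : PrimrecPred fun s : ((ℕ × ℕ) × List (List Bool)) × ℕ =>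
        s.1.1.2 / 2 ^ ((s.1.2.length - 1) / 3 * (2 * s.1.1.1) ^ n + s.2) % 2 = 1 :=
      Primrec.eq.comp
        (Primrec.nat_mod.comp
          (Primrec.nat_div.comp (Primrec.snd.comp (Primrec.fst.comp Primrec.fst))
            (primrec_pow.comp (Primrec.const 2)
              (Primrec.nat_add.comp
                (Primrec.nat_mul.comp (hd3.comp Primrec.fst) (hP.comp Primrec.fst)) Primrec.snd)))
          (Primrec.const 2)) (Primrec.const 1)
    exact h.decide
  -- implication
  have b2 : Primrec fun p : (ℕ × ℕ) × List (List Bool) =>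
      (List.range ((2 * p.1.1) ^ n)).map fun q =>
        decide ((p.2.getD ((p.2.length - 1) / 3).unpair.1 []).getD q false = false ∨
          (p.2.getD ((p.2.length - 1) / 3).unpair.2 []).getD q false = true) := by
    refine Primrec.list_map hrange ?_
    have g1 := hget (Primrec.fst.comp (Primrec.unpair.comp hd3))
    have g2 := hget (Primrec.snd.comp (Primrec.unpair.comp hd3))
    have h : PrimrecPred fun s : ((ℕ × ℕ) × List (List Bool)) × ℕ =>
        (s.1.2.getD ((s.1.2.length - 1) / 3).unpair.1 []).getD s.2 false = false ∨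
          (s.1.2.getD ((s.1.2.length - 1) / 3).unpair.2 []).getD s.2 false = true :=
      PrimrecPred.or
        (Primrec.eq.comp ((Primrec.list_getD false).comp (g1.comp Primrec.fst) Primrec.snd)
          (Primrec.const false))
        (Primrec.eq.comp ((Primrec.list_getD false).comp (g2.comp Primrec.fst) Primrec.snd)
          (Primrec.const true))
    exact h.decide
  -- box
  have b3 : Primrec fun p : (ℕ × ℕ) × List (List Bool) =>
      (List.range ((2 * p.1.1) ^ n)).map fun q =>
        decide (∀ r ∈ List.range ((2 * p.1.1) ^ n), ¬ FRn n p.1.1 q r ∨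
          (p.2.getD ((p.2.length - 1) / 3) []).getD r false = true) := by
    refine Primrec.list_map hrange ?_
    have g3 := hget hd3
    -- context for the inner quantifier: `(N, S, q)`
    have hrel : PrimrecRel fun (r : ℕ) (b : ℕ × List Bool × ℕ) =>
        ¬ FRn n b.1 b.2.2 r ∨ b.2.1.getD r false = true :=
      PrimrecPred.or
        (PrimrecPred.not ((primrec_FRn n).comp
          (Primrec.pair (Primrec.fst.comp Primrec.snd)
            (Primrec.pair (Primrec.snd.comp (Primrec.snd.comp Primrec.snd)) Primrec.fst))))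
        (Primrec.eq.comp
          ((Primrec.list_getD false).comp (Primrec.fst.comp (Primrec.snd.comp Primrec.snd))
            Primrec.fst) (Primrec.const true))
    have h : PrimrecPred fun s : ((ℕ × ℕ) × List (List Bool)) × ℕ =>
        ∀ r ∈ List.range ((2 * s.1.1.1) ^ n), ¬ FRn n s.1.1.1 s.2 r ∨
          (s.1.2.getD ((s.1.2.length - 1) / 3) []).getD r false = true :=
      (hrel.forall_mem_list).comp (hrange.comp Primrec.fst)
        (Primrec.pair (hN.comp Primrec.fst) (Primrec.pair (g3.comp Primrec.fst) Primrec.snd))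
    exact Primrec.of_eq h.decide fun s => decide_eq_decide.2 Iff.rfl
  unfold ttStep
  refine Primrec.option_some.comp ?_
  refine Primrec.ite (Primrec.eq.comp hlen (Primrec.const 0)) b0 ?_
  refine Primrec.ite (Primrec.eq.comp hm3 (Primrec.const 0)) b1 ?_
  exact Primrec.ite (Primrec.eq.comp hm3 (Primrec.const 1)) b2 b3

theorem primrec_tt (n : ℕ) : Primrec₂ fun (a : ℕ × ℕ) (c : ℕ) => tt n a.1 a.2 (ofCode c) :=
  Primrec.nat_strong_rec _ (primrec_ttStep n) (ttStep_spec n)

/-- truth only depends on the valuation of small variables at the points of the frame -/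
theorem holds_congr (n N c : ℕ) (V V' : ℕ → ℕ → Prop)
    (h : ∀ x q, x ≤ c → q < (2 * N) ^ n → (V x q ↔ V' x q)) : ∀ (ψ : Fm), ψ.code ≤ c →
    ∀ q, q < (2 * N) ^ n → (Holds (FR N n) V ψ q ↔ Holds (FR N n) V' ψ q)
  | .bot, _, q, hq => Iff.rfl
  | .var x, hx, q, hq => by
    simp only [Holds]
    refine h x q ?_ hq
    simp only [Fm.code] at hx
    omega
  | .imp a b, hc, q, hq => by
    simp only [Holds]
    rw [holds_congr n N c V V' h a ((code_imp_left a b).trans hc) q hq,
      holds_congr n N c V V' h b ((code_imp_right a b).trans hc) q hq]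
  | .box a, hc, q, hq => by
    simp only [Holds]
    refine forall_congr' fun u => ?_
    constructor
    · intro h1 hu
      exact (holds_congr n N c V V' h a ((code_box a).trans hc) u hu.1).1 (h1 hu)
    · intro h1 hu
      exact (holds_congr n N c V V' h a ((code_box a).trans hc) u hu.1).2 (h1 hu)

theorem FV_iff (n N : ℕ) (hN : 0 < N) (φ : Fm) : FV N n φ ↔
    ∀ v < 2 ^ ((φ.code + 1) * (2 * N) ^ n), (tt n N v φ).getD 0 false = true := by
  classical
  have hP : 0 < (2 * N) ^ n := by positivity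
  constructor
  · intro h v _
    rw [tt_spec n N v φ 0 hP]
    exact h _
  · intro h V
    let P := (2 * N) ^ n
    let f : Fin ((φ.code + 1) * P) → Bool := fun i => decide (V (i / P) (i % P))
    have hv := h (Nat.ofBits f) (Nat.ofBits_lt_two_pow f)
    rw [tt_spec n N _ φ 0 hP] at hv
    refine (holds_congr n N φ.code (bitV n N (Nat.ofBits f)) V ?_ φ le_rfl 0 hP).1 hv
    intro x q hx hq
    have hlt : x * P + q < (φ.code + 1) * P := by
      calc x * P + q < x * P + P := by simp only [P]; omega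
        _ = (x + 1) * P := by ring
        _ ≤ (φ.code + 1) * P := Nat.mul_le_mul_right _ (by omega)
    have h1 := Nat.testBit_ofBits_lt f (x * P + q) hlt
    rw [Nat.testBit_eq_decide_div_mod_eq] at h1
    have e1 : (x * P + q) / P = x := by
      rw [Nat.mul_comm, Nat.mul_add_div hP, Nat.div_eq_of_lt hq, Nat.add_zero]
    have e2 : (x * P + q) % P = q := by
      rw [Nat.mul_comm, Nat.mul_add_mod, Nat.mod_eq_of_lt hq]
    simp only [f, e1, e2] at h1
    unfold bitV
    exact decide_eq_decide.1 h1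

theorem primrec_code : Primrec Fm.code := by
  have : Primrec (fun φ : Fm => Encodable.encode φ) := Primrec.encode
  exact this

theorem primrecRel_FV (n : ℕ) : PrimrecRel fun (φ : Fm) (N : ℕ) => FV (N + 1) n φ := by
  classical
  -- context `(v, (c, N))`
  have hrel : PrimrecRel fun (v : ℕ) (b : ℕ × ℕ) => (tt n (b.2 + 1) v (ofCode b.1)).getD 0 false = true :=
    Primrec.eq.comp
      ((Primrec.list_getD false).comp
        ((primrec_tt n).comp
          (Primrec.pair (Primrec.succ.comp (Primrec.snd.comp Primrec.snd)) Primrec.fst)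
          (Primrec.fst.comp Primrec.snd)) (Primrec.const 0)) (Primrec.const true)
  have h := (hrel.forall_mem_list).comp
    (f := fun p : Fm × ℕ => List.range (2 ^ ((p.1.code + 1) * (2 * (p.2 + 1)) ^ n)))
    (g := fun p : Fm × ℕ => (p.1.code, p.2))
    (Primrec.list_range.comp (primrec_pow.comp (Primrec.const 2)
      (Primrec.nat_mul.comp (Primrec.succ.comp (primrec_code.comp Primrec.fst))
        (primrec_pow.comp (Primrec.nat_mul.comp (Primrec.const 2)
          (Primrec.succ.comp Primrec.snd)) (Primrec.const n)))))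
    (Primrec.pair (primrec_code.comp Primrec.fst) Primrec.snd)
  refine PrimrecPred.of_eq h fun p => ?_
  show _ ↔ FV (p.2 + 1) n p.1
  rw [FV_iff n (p.2 + 1) (Nat.succ_pos _) p.1]
  simp only [List.mem_range, ofCode_code]

theorem primrec_bnd : Primrec bnd := by
  unfold bnd
  exact Primrec.succ.comp (Primrec.nat_mul.comp
    (Primrec.succ.comp (primrec_pow.comp (Primrec.const 2)
      (primrec_pow.comp (Primrec.const 2) Primrec.succ))) Primrec.succ)

theorem logic_two_computable : ComputablePred fun φ : Fm => φ ∈ Logic 2 := by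
  have h : PrimrecPred fun φ : Fm => FV (bnd φ.code - 1 + 1) 2 φ :=
    (primrecRel_FV 2).comp (Primrec.id (α := Fm))
      (Primrec.nat_sub.comp (primrec_bnd.comp primrec_code) (Primrec.const 1))
  refine (PrimrecPred.computablePred h).of_eq fun φ => ?_
  rw [logic_two_iff]
  have : bnd φ.code - 1 + 1 = bnd φ.code := by
    unfold bnd
    omega
  rw [this]


/-! ### Non-theorems are recursively enumerable, for every `n` -/

theorem non_theorems_re (n : ℕ) : REPred fun φ : Fm => φ ∉ Logic n := by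
  classical
  have hc : Computable₂ fun (φ : Fm) (N : ℕ) => decide (¬ FV (N + 1) n φ) :=
    (PrimrecPred.decide (PrimrecPred.not (primrecRel_FV n))).to_comp
  have hp : Partrec fun φ : Fm => Nat.rfind fun N => Part.some (decide (¬ FV (N + 1) n φ)) :=
    Partrec.rfind (Computable₂.partrec₂ hc)
  refine hp.dom_re.of_eq fun φ => ?_
  rw [logic_iff]
  push Not
  constructor
  · intro h
    obtain ⟨N, hN⟩ := Part.dom_iff_mem.1 h
    have := Nat.rfind_spec hN
    simp only [Part.mem_some_iff] at this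
    exact ⟨N, of_decide_eq_true this.symm⟩
  · rintro ⟨N, hN⟩
    refine Nat.rfind_dom'.2 ⟨N, ?_, fun _ => trivial⟩
    simp only [Part.mem_some_iff]
    exact (decide_eq_true hN).symm

/-! ### Axiomatisation -/

/-- substitution of formulas for variables -/
def Fm.subst (σ : ℕ → Fm) : Fm → Fm
  | .bot => .bot
  | .var n => σ n
  | .imp a b => .imp (a.subst σ) (b.subst σ)
  | .box a => .box (a.subst σ)

/-- Derivability from `Γ`: the closure of `Γ` and the axioms of `K` under modus ponens,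
substitution and necessitation. -/
inductive Derives (Γ : Set Fm) : Fm → Prop
  | ax (a : Fm) : a ∈ Γ → Derives Γ a
  | k1 (a b : Fm) : Derives Γ (.imp a (.imp b a))
  | k2 (a b c : Fm) : Derives Γ (.imp (.imp a (.imp b c)) (.imp (.imp a b) (.imp a c)))
  | k3 (a : Fm) : Derives Γ (.imp (.imp (.imp a .bot) .bot) a)
  | kbox (a b : Fm) : Derives Γ (.imp (.box (.imp a b)) (.imp (.box a) (.box b)))
  | mp (a b : Fm) : Derives Γ (.imp a b) → Derives Γ a → Derives Γ b
  | sub (a : Fm) (σ : ℕ → Fm) : Derives Γ a → Derives Γ (a.subst σ)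
  | nec (a : Fm) : Derives Γ a → Derives Γ (.box a)

theorem holds_subst {W : Type} {R : W → W → Prop} (V : ℕ → W → Prop) (σ : ℕ → Fm) :
    ∀ (φ : Fm) (w : W), Holds R V (φ.subst σ) w ↔ Holds R (fun n w => Holds R V (σ n) w) φ w
  | .bot, w => Iff.rfl
  | .var n, w => Iff.rfl
  | .imp a b, w => by
    simp only [Fm.subst, Holds]
    rw [holds_subst V σ a w, holds_subst V σ b w]
  | .box a, w => by
    simp only [Fm.subst, Holds]
    exact forall_congr' fun u => imp_congr_right fun _ => holds_subst V σ a u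

theorem derives_logic (n : ℕ) (φ : Fm) : Derives (Logic n) φ ↔ φ ∈ Logic n := by
  constructor
  · intro h
    induction h with
    | ax a h => exact h
    | k1 a b =>
      intro V w
      simp only [Holds]
      tauto
    | k2 a b c =>
      intro V w
      simp only [Holds]
      tauto
    | k3 a =>
      intro V w
      simp only [Holds]
      tauto
    | kbox a b =>
      intro V w
      simp only [Holds]
      intro h1 h2 u hu
      exact h1 u hu (h2 u hu)
    | mp a b _ _ h1 h2 =>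
      intro V w
      exact h1 V w (h2 V w)
    | sub a σ _ h1 =>
      intro V w
      rw [holds_subst]
      exact h1 _ w
    | nec a _ h1 =>
      intro V w
      simp only [Holds]
      intro u _
      exact h1 V u
  · exact Derives.ax φ

end Pool.Agent.H510.OmegaLogic
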