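import Pool.Agent.H510.OmegaLogic

set_option autoImplicit false

/-! The formulas used for the undecidability of `L_n`, `n ≥ 3`, and their meaning. -/

namespace Pool.Agent.H510.UForm

open Pool.Agent.H510.OmegaLogic

/-- conjunction -/
def andF (a b : Fm) : Fm := .imp (.imp a (.imp b .bot)) .bot

/-- instance of a template: the variables `v ≥ M` are shifted by `k` -/
def inst (M k : ℕ) : Fm → Fm
  | .bot => .bot
  | .var v => if v < M then .var v else .var (v + k)
  | .imp a b => .imp (inst M k a) (inst M k b)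
  | .box a => .box (inst M k a)

/-- the formula of a word `w` over a finite alphabet -/
def phi {α : Type} (M : ℕ) (Base : Fm) (F : α → Fm) (Fend : Fm) (w : List α) : Fm :=
  let s := w.foldl (fun (s : ℕ × Fm) (a : α) => (s.1 + 1, andF (inst M s.1 (F a)) s.2)) (0, Base)
  andF (inst M s.1 Fend) s.2

def negF (a : Fm) : Fm := .imp a .bot
def topF : Fm := .imp .bot .bot
def orF (a b : Fm) : Fm := .imp (negF a) b
def diaF (a : Fm) : Fm := negF (.box (negF a))
noncomputable def whenF (P : Prop) (a : Fm) : Fm := by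
  classical exact if P then a else topF
def bigAnd (l : List Fm) : Fm := l.foldr andF topF
def bigOr (l : List Fm) : Fm := l.foldr orF .bot
noncomputable def allF {ι : Type} [Fintype ι] (f : ι → Fm) : Fm :=
  bigAnd (Finset.univ.toList.map f)
noncomputable def anyF {ι : Type} [Fintype ι] (f : ι → Fm) : Fm :=
  bigOr (Finset.univ.toList.map f)

section
variable {W : Type} {R : W → W → Prop} {V : ℕ → W → Prop} {x : W}

@[simp] theorem holds_and (a b : Fm) : Holds R V (andF a b) x ↔ Holds R V a x ∧ Holds R V b x := by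
  simp only [andF, Holds]; tauto

@[simp] theorem holds_neg (a : Fm) : Holds R V (negF a) x ↔ ¬ Holds R V a x := by
  simp only [negF, Holds]

@[simp] theorem holds_top : Holds R V topF x ↔ True := by
  simp [topF, Holds]

@[simp] theorem holds_or (a b : Fm) : Holds R V (orF a b) x ↔ Holds R V a x ∨ Holds R V b x := by
  simp only [orF, Holds, holds_neg]; tauto

@[simp] theorem holds_imp (a b : Fm) :
    Holds R V (.imp a b) x ↔ (Holds R V a x → Holds R V b x) := Iff.rfl

@[simp] theorem holds_box (a : Fm) : Holds R V (.box a) x ↔ ∀ u, R x u → Holds R V a u := Iff.rfl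

@[simp] theorem holds_dia (a : Fm) : Holds R V (diaF a) x ↔ ∃ y, R x y ∧ Holds R V a y := by
  simp only [diaF, holds_neg, holds_box, not_forall, not_not, exists_prop]

@[simp] theorem holds_when (P : Prop) (a : Fm) :
    Holds R V (whenF P a) x ↔ (P → Holds R V a x) := by
  classical
  unfold whenF
  split_ifs with h <;> simp [h]

theorem holds_bigAnd (l : List Fm) : Holds R V (bigAnd l) x ↔ ∀ a ∈ l, Holds R V a x := by
  induction l with
  | nil => simp [bigAnd]
  | cons a l ih => 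
    rw [show bigAnd (a :: l) = andF a (bigAnd l) from rfl, holds_and, ih]; simp

theorem holds_bigOr (l : List Fm) : Holds R V (bigOr l) x ↔ ∃ a ∈ l, Holds R V a x := by
  induction l with
  | nil => simp [bigOr, Holds]
  | cons a l ih => 
    rw [show bigOr (a :: l) = orF a (bigOr l) from rfl, holds_or, ih]; simp

@[simp] theorem holds_all {ι : Type} [Fintype ι] (f : ι → Fm) :
    Holds R V (allF f) x ↔ ∀ i, Holds R V (f i) x := by
  simp [allF, holds_bigAnd]

@[simp] theorem holds_any {ι : Type} [Fintype ι] (f : ι → Fm) :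
    Holds R V (anyF f) x ↔ ∃ i, Holds R V (f i) x := by
  simp [anyF, holds_bigOr]

theorem holds_inst (M k : ℕ) : ∀ (a : Fm) (x : W), Holds R V (inst M k a) x ↔
    Holds R (fun v w => if v < M then V v w else V (v + k) w) a x
  | .bot, _ => Iff.rfl
  | .var v, x => by
    simp only [inst, Holds]
    split_ifs <;> rfl
  | .imp a b, x => by simp only [inst, holds_imp, holds_inst M k a x, holds_inst M k b x]
  | .box a, x => by
    simp only [inst, holds_box]
    exact forall_congr' fun u => imp_congr_right fun _ => holds_inst M k a u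

end

/-! ### Names of the propositional variables and the rules -/

/-- the names of the variables other than `u_k` -/
abbrev Nm (n : ℕ) (C : Type) : Type :=
  Option (Fin n) ⊕ (Option (Fin 3 × Fin 3) ⊕ ((Fin 3 × Fin 2) ⊕ C))

/-- the predicates of a labelled structure -/
structure Lbl (n : ℕ) (C : Type) where
  o : (Fin n → ℕ) → Prop
  al : Fin n → (Fin n → ℕ) → Prop
  q0 : (Fin n → ℕ) → Prop
  q : Fin 3 → Fin 3 → (Fin n → ℕ) → Prop
  b : Fin 3 → Fin 2 → (Fin n → ℕ) → Prop
  p : C → (Fin n → ℕ) → Prop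

/-- `x` sees a point with `P` -/
def D {n : ℕ} (P : (Fin n → ℕ) → Prop) (x : Fin n → ℕ) : Prop := ∃ y, x ≤ y ∧ P y

def StepR {n : ℕ} (e : (Fin n → ℕ) → Prop) (f : Fin 3 → (Fin n → ℕ) → Prop) (x : Fin n → ℕ) :
    Prop :=
  (e x → ∀ c, D (f c) x) ∧ (¬ D e x → ∀ c c', c ≠ c' → ¬ (D (f c) x ∧ D (f c') x)) ∧
    ∀ c, f c x → ¬ D e x

noncomputable def stepF (e : Fm) (f : Fin 3 → Fm) : Fm :=
  andF (.imp e (allF fun c => diaF (f c)))
    (andF (.imp (negF (diaF e)) (allF fun c => allF fun c' =>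
      whenF (c ≠ c') (negF (andF (diaF (f c)) (diaF (f c'))))))
    (allF fun c => .imp (f c) (negF (diaF e))))

theorem holds_step {n : ℕ} {V : ℕ → (Fin n → ℕ) → Prop} (e : Fm) (f : Fin 3 → Fm)
    (x : Fin n → ℕ) : Holds (fun a b => a ≤ b) V (stepF e f) x ↔
      StepR (fun y => Holds (fun a b => a ≤ b) V e y)
        (fun c y => Holds (fun a b => a ≤ b) V (f c) y) x := by
  simp only [stepF, StepR, D, holds_and, holds_imp, holds_all, holds_dia, holds_neg, holds_when]

variable {n : ℕ} {C G : Type} [Group G]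

/-- the points of the region between the inner and the outer surface -/
def Z (L : Lbl n C) (x : Fin n → ℕ) : Prop := D (fun y => ∃ c, L.q 2 c y) x ∧ ¬ D L.q0 x

def Pt (L : Lbl n C) (x : Fin n → ℕ) : Prop := ∃ c, L.p c x

def Bt (L : Lbl n C) (k : Fin 3) (x : Fin n → ℕ) : Prop := ∃ c, L.b k c x

/-- the rules for the axes and the origin -/
def RO (lab : Fin 3 → Fin n) (L : Lbl n C) (x : Fin n → ℕ) : Prop :=
  (L.o x → ∀ a, D (L.al a) x) ∧
  (¬ D L.o x → ∀ a b, a ≠ b → ¬ (D (L.al a) x ∧ D (L.al b) x)) ∧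
  (∀ a, L.al a x → ¬ D L.o x) ∧
  (∀ a, L.al a x → ¬ D (fun y => ∃ c, L.q 2 c y) x) ∧
  (L.o x → D L.q0 x) ∧
  (∀ a, (∀ k, a ≠ lab k) → D (L.al a) x → ¬ D L.o x → ¬ D (fun y => ∃ c, L.q 2 c y) x)

/-- the rules for the layers -/
def RS (L : Lbl n C) (x : Fin n → ℕ) : Prop :=
  StepR L.q0 (L.q 0) x ∧ StepR (fun y => ∃ c, L.q 0 c y) (L.q 1) x ∧
    StepR (fun y => ∃ c, L.q 1 c y) (L.q 2) x

/-- the rules for the planes -/
def RB (lab : Fin 3 → Fin n) (L : Lbl n C) (x : Fin n → ℕ) : Prop :=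
  ∀ k, (∀ c c', c ≠ c' → L.b k c x → ¬ D (L.b k c') x) ∧
    (D (Bt L k) x → D (fun y => ∃ c, L.q 2 c y) x → ∀ c, D (L.b k c) x) ∧
    (∀ a, (∀ k', k' ≠ k → a ≠ lab k') → D (L.al a) x → ¬ D L.o x → ¬ D (Bt L k) x) ∧
    (L.o x → D (Bt L k) x)

/-- the rules for the colours -/
def RP (T : C → C → G) (L : Lbl n C) (u : (Fin n → ℕ) → Prop) (x : Fin n → ℕ) : Prop :=
  Z L x → D (Pt L) x ∧
    (∀ c c' c'', T c c' * T c' c'' ≠ T c c'' → ¬ (D (L.p c) x ∧ D (L.p c') x ∧ D (L.p c'') x)) ∧
    (D (Bt L 0) x ∨ D (Bt L 1) x → ∀ c c', T c c' ≠ 1 → ¬ (D (L.p c) x ∧ D (L.p c') x)) ∧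
    (D (Bt L 2) x → ∀ c c', T c c' ≠ 1 →
      ¬ (D (fun y => L.p c y ∧ ¬ u y) x ∧ D (fun y => L.p c' y ∧ ¬ u y) x))

/-- the rules for the `k`-th letter `g` of the word; `u = u_k`, `u' = u_(k+1)` -/
def RK (lab : Fin 3 → Fin n) (T : C → C → G) (L : Lbl n C) (g : G) (u u' : (Fin n → ℕ) → Prop)
    (x : Fin n → ℕ) : Prop :=
  (Pt L x → u' x → u x) ∧
  (Z L x → 
    (D (L.al (lab 0)) x → ¬ D (fun y => Pt L y ∧ u y) x) ∧
    (D (L.al (lab 1)) x → ¬ D (fun y => Pt L y ∧ ¬ u y) x) ∧
    (D (Bt L 2) x →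
      (∀ c c', T c c' ≠ g → ¬ (D (fun y => L.p c y ∧ ¬ u y) x ∧ D (fun y => L.p c' y ∧ u y) x)) ∧
      ¬ (D (fun y => Pt L y ∧ ¬ u y) x ∧ D (fun y => Pt L y ∧ u' y) x) ∧
      (∀ c c', T c c' ≠ 1 → ¬ (D (fun y => L.p c y ∧ u y ∧ ¬ u' y) x ∧
        D (fun y => L.p c' y ∧ u y ∧ ¬ u' y) x))))

section
variable [Fintype C]

/-- the number of the names -/
noncomputable def MM (n : ℕ) (C : Type) [Fintype C] : ℕ := Fintype.card (Nm n C)

noncomputable def vx (a : Nm n C) : ℕ := (Fintype.equivFin (Nm n C) a : ℕ)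

theorem vx_lt (a : Nm n C) : vx a < MM n C := (Fintype.equivFin (Nm n C) a).2

theorem vx_inj {a b : Nm n C} (h : vx a = vx b) : a = b :=
  (Fintype.equivFin (Nm n C)).injective (Fin.ext h)

noncomputable def fo (n : ℕ) (C : Type) [Fintype C] : Fm := .var (vx (Sum.inl none : Nm n C))
noncomputable def fal (C : Type) [Fintype C] (a : Fin n) : Fm := .var (vx (Sum.inl (some a) : Nm n C))
noncomputable def fq0 (n : ℕ) (C : Type) [Fintype C] : Fm := .var (vx (Sum.inr (Sum.inl none) : Nm n C))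
noncomputable def fq (n : ℕ) (C : Type) [Fintype C] (j c : Fin 3) : Fm :=
  .var (vx (Sum.inr (Sum.inl (some (j, c))) : Nm n C))
noncomputable def fb (n : ℕ) (C : Type) [Fintype C] (k : Fin 3) (c : Fin 2) : Fm :=
  .var (vx (Sum.inr (Sum.inr (Sum.inl (k, c))) : Nm n C))
noncomputable def fp (n : ℕ) {C : Type} [Fintype C] (c : C) : Fm :=
  .var (vx (Sum.inr (Sum.inr (Sum.inr c)) : Nm n C))
noncomputable def fu (n : ℕ) (C : Type) [Fintype C] : Fm := .var (MM n C)
noncomputable def fu' (n : ℕ) (C : Type) [Fintype C] : Fm := .var (MM n C + 1)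

/-- the labelled structure of a valuation -/
noncomputable def lbl (V : ℕ → (Fin n → ℕ) → Prop) : Lbl n C where
  o := V (vx (Sum.inl none : Nm n C))
  al a := V (vx (Sum.inl (some a) : Nm n C))
  q0 := V (vx (Sum.inr (Sum.inl none) : Nm n C))
  q j c := V (vx (Sum.inr (Sum.inl (some (j, c))) : Nm n C))
  b k c := V (vx (Sum.inr (Sum.inr (Sum.inl (k, c))) : Nm n C))
  p c := V (vx (Sum.inr (Sum.inr (Sum.inr c)) : Nm n C))

noncomputable def dq2 (n : ℕ) (C : Type) [Fintype C] : Fm := diaF (anyF fun c => fq n C 2 c)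
noncomputable def dB (n : ℕ) (C : Type) [Fintype C] (k : Fin 3) : Fm := diaF (anyF fun c => fb n C k c)
noncomputable def zF (n : ℕ) (C : Type) [Fintype C] : Fm :=
  andF (dq2 n C) (negF (diaF (fq0 n C)))
noncomputable def ptF (n : ℕ) (C : Type) [Fintype C] : Fm := anyF fun c : C => fp n c

noncomputable def roF (C : Type) [Fintype C] (lab : Fin 3 → Fin n) : Fm :=
  andF (.imp (fo n C) (allF fun a : Fin n => diaF (fal C a)))
  (andF (.imp (negF (diaF (fo n C))) (allF fun a : Fin n => allF fun b : Fin n =>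
      whenF (a ≠ b) (negF (andF (diaF (fal C a)) (diaF (fal C b))))))
  (andF (allF fun a : Fin n => .imp (fal C a) (negF (diaF (fo n C))))
  (andF (allF fun a : Fin n => .imp (fal C a) (negF (dq2 n C)))
  (andF (.imp (fo n C) (diaF (fq0 n C)))
  (allF fun a : Fin n => whenF (∀ k, a ≠ lab k) (.imp (diaF (fal C a))
    (.imp (negF (diaF (fo n C))) (negF (dq2 n C)))))))))

theorem holds_ro (V : ℕ → (Fin n → ℕ) → Prop) (lab : Fin 3 → Fin n) (x : Fin n → ℕ) :
    Holds (fun a b => a ≤ b) V (roF C lab) x ↔ RO lab (lbl (C := C) V) x := by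
  simp only [roF, RO, D, dq2, holds_and, holds_imp, holds_all, holds_any, holds_dia, holds_neg,
    holds_when]
  exact Iff.rfl

noncomputable def rsF (n : ℕ) (C : Type) [Fintype C] : Fm :=
  andF (stepF (fq0 n C) (fq n C 0)) (andF (stepF (anyF fun c => fq n C 0 c) (fq n C 1))
    (stepF (anyF fun c => fq n C 1 c) (fq n C 2)))

theorem holds_rs (V : ℕ → (Fin n → ℕ) → Prop) (x : Fin n → ℕ) :
    Holds (fun a b => a ≤ b) V (rsF n C) x ↔ RS (lbl (C := C) V) x := by
  simp only [rsF, RS, holds_and, holds_step, holds_any]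
  exact Iff.rfl

noncomputable def rbF (C : Type) [Fintype C] (lab : Fin 3 → Fin n) : Fm :=
  allF fun k : Fin 3 =>
    andF (allF fun c : Fin 2 => allF fun c' : Fin 2 => whenF (c ≠ c') (.imp (fb n C k c) (negF (diaF (fb n C k c')))))
    (andF (.imp (dB n C k) (.imp (dq2 n C) (allF fun c : Fin 2 => diaF (fb n C k c))))
    (andF (allF fun a : Fin n => whenF (∀ k', k' ≠ k → a ≠ lab k') (.imp (diaF (fal C a))
        (.imp (negF (diaF (fo n C))) (negF (dB n C k)))))
    (.imp (fo n C) (dB n C k))))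

theorem holds_rb (V : ℕ → (Fin n → ℕ) → Prop) (lab : Fin 3 → Fin n) (x : Fin n → ℕ) :
    Holds (fun a b => a ≤ b) V (rbF C lab) x ↔ RB lab (lbl (C := C) V) x := by
  simp only [rbF, RB, D, Bt, dB, dq2, holds_and, holds_imp, holds_all, holds_any, holds_dia,
    holds_neg, holds_when]
  exact Iff.rfl

noncomputable def rpF (n : ℕ) (T : C → C → G) : Fm :=
  .imp (zF n C) (andF (diaF (ptF n C))
    (andF (allF fun c => allF fun c' => allF fun c'' => whenF (T c c' * T c' c'' ≠ T c c'')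
      (negF (andF (diaF (fp n c)) (andF (diaF (fp n c')) (diaF (fp n c''))))))
    (andF (.imp (orF (dB n C 0) (dB n C 1)) (allF fun c => allF fun c' => whenF (T c c' ≠ 1)
      (negF (andF (diaF (fp n c)) (diaF (fp n c'))))))
    (.imp (dB n C 2) (allF fun c => allF fun c' => whenF (T c c' ≠ 1)
      (negF (andF (diaF (andF (fp n c) (negF (fu n C)))) (diaF (andF (fp n c') (negF (fu n C))))))))))) 

theorem holds_rp (V : ℕ → (Fin n → ℕ) → Prop) (T : C → C → G) (x : Fin n → ℕ) :
    Holds (fun a b => a ≤ b) V (rpF n T) x ↔ RP T (lbl (C := C) V) (V (MM n C)) x := by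
  simp only [rpF, RP, D, Bt, Pt, Z, zF, ptF, dB, dq2, holds_and, holds_imp, holds_all, holds_any,
    holds_dia, holds_neg, holds_when, holds_or]
  exact Iff.rfl

noncomputable def rkF1 (n : ℕ) (T : C → C → G) (g : G) : Fm :=
  allF fun c => allF fun c' => whenF (T c c' ≠ g)
    (negF (andF (diaF (andF (fp n c) (negF (fu n C)))) (diaF (andF (fp n c') (fu n C)))))

noncomputable def rkF2 (n : ℕ) (C : Type) [Fintype C] : Fm :=
  negF (andF (diaF (andF (ptF n C) (negF (fu n C)))) (diaF (andF (ptF n C) (fu' n C))))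

noncomputable def rkF3 (n : ℕ) (T : C → C → G) : Fm :=
  allF fun c => allF fun c' => whenF (T c c' ≠ 1)
    (negF (andF (diaF (andF (fp n c) (andF (fu n C) (negF (fu' n C)))))
      (diaF (andF (fp n c') (andF (fu n C) (negF (fu' n C)))))))

noncomputable def rkF (C : Type) [Fintype C] (lab : Fin 3 → Fin n) (T : C → C → G) (g : G) : Fm :=
  andF (.imp (ptF n C) (.imp (fu' n C) (fu n C)))
  (.imp (zF n C)
    (andF (.imp (diaF (fal C (lab 0))) (negF (diaF (andF (ptF n C) (fu n C)))))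
    (andF (.imp (diaF (fal C (lab 1))) (negF (diaF (andF (ptF n C) (negF (fu n C))))))
    (.imp (dB n C 2) (andF (rkF1 n T g) (andF (rkF2 n C) (rkF3 n T)))))))

theorem holds_rk (V : ℕ → (Fin n → ℕ) → Prop) (lab : Fin 3 → Fin n) (T : C → C → G) (g : G)
    (x : Fin n → ℕ) :
    Holds (fun a b => a ≤ b) V (rkF C lab T g) x ↔
      RK lab T (lbl (C := C) V) g (V (MM n C)) (V (MM n C + 1)) x := by
  simp only [rkF, rkF1, rkF2, rkF3, RK, D, Bt, Pt, Z, zF, ptF, dB, dq2, holds_and, holds_imp, holds_all, holds_any,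
    holds_dia, holds_neg, holds_when]
  exact Iff.rfl

/-- the part of the formula which does not depend on the word -/
noncomputable def baseF (lab : Fin 3 → Fin n) (T : C → C → G) : Fm :=
  andF (fo n C) (.box (andF (roF C lab) (andF (rsF n C) (andF (rbF C lab) (rpF n T)))))

noncomputable def letF (C : Type) [Fintype C] (lab : Fin 3 → Fin n) (T : C → C → G) (g : G) : Fm :=
  .box (rkF C lab T g)

noncomputable def endF (n : ℕ) (C : Type) [Fintype C] : Fm :=
  .box (.imp (ptF n C) (negF (fu n C)))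

theorem holds_base (V : ℕ → (Fin n → ℕ) → Prop) (lab : Fin 3 → Fin n) (T : C → C → G)
    (x0 : Fin n → ℕ) :
    Holds (fun a b => a ≤ b) V (baseF lab T) x0 ↔ (lbl (C := C) V).o x0 ∧ ∀ x, x0 ≤ x →
      RO lab (lbl (C := C) V) x ∧ RS (lbl (C := C) V) x ∧ RB lab (lbl (C := C) V) x ∧
        RP T (lbl (C := C) V) (V (MM n C)) x := by
  simp only [baseF, holds_and, holds_box, holds_ro, holds_rs, holds_rb, holds_rp]
  exact Iff.rfl

theorem lbl_shift (V : ℕ → (Fin n → ℕ) → Prop) (k : ℕ) :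
    lbl (C := C) (fun v w => if v < MM n C then V v w else V (v + k) w) = lbl V := by
  simp only [lbl, vx_lt, if_true]

theorem holds_let (V : ℕ → (Fin n → ℕ) → Prop) (lab : Fin 3 → Fin n) (T : C → C → G) (g : G)
    (k : ℕ) (x0 : Fin n → ℕ) :
    Holds (fun a b => a ≤ b) V (inst (MM n C) k (letF C lab T g)) x0 ↔ ∀ x, x0 ≤ x →
      RK lab T (lbl (C := C) V) g (V (MM n C + k)) (V (MM n C + k + 1)) x := by
  rw [holds_inst]
  simp only [letF, holds_box, holds_rk, lbl_shift]
  have h1 : ¬ (MM n C < MM n C) := lt_irrefl _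
  have h2 : ¬ (MM n C + 1 < MM n C) := by omega
  simp only [h1, h2, if_false]
  rw [show MM n C + 1 + k = MM n C + k + 1 by omega]

theorem holds_end (V : ℕ → (Fin n → ℕ) → Prop) (k : ℕ) (x0 : Fin n → ℕ) :
    Holds (fun a b => a ≤ b) V (inst (MM n C) k (endF n C)) x0 ↔ ∀ x, x0 ≤ x →
      Pt (lbl (C := C) V) x → ¬ V (MM n C + k) x := by
  rw [holds_inst]
  simp only [endF, holds_box, holds_imp, ptF, holds_any, holds_neg]
  have h1 : ¬ (MM n C < MM n C) := lt_irrefl _
  refine forall_congr' fun x => imp_congr_right fun _ => ?_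
  have : (∃ i : C, Holds (fun a b => a ≤ b)
      (fun v w => if v < MM n C then V v w else V (v + k) w) (fp n i) x) ↔
      Pt (lbl (C := C) V) x := by
    unfold Pt
    refine exists_congr fun c => ?_
    simp only [fp, Holds, lbl, vx_lt, if_true]
  rw [this]
  refine imp_congr_right fun _ => not_congr ?_
  simp only [fu, Holds, h1, if_false]

end

end Pool.Agent.H510.UForm
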