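import Pool.Agent.H510.USound
import Pool.Agent.H510.JD
import Pool.Agent.H510.JE
import Pool.Agent.H510.L1RO
import Pool.Agent.H510.L1RS
import Pool.Agent.H510.L1RB
import Pool.Agent.H510.L3RP
import Pool.Agent.H510.L3RK
import Pool.Agent.Helper270.WPB

set_option autoImplicit false

namespace Pool.Agent.H510.UMain

open Pool.Agent.H510.OmegaLogic Pool.Agent.H510.UForm Pool.Agent.H510.UModel

theorem val_eq {m : ℕ} (R : Set (FreeGroup (Fin m))) (l : List (Fin m × Bool)) :
    (l.map fun a => JD.val R [a]).prod = JD.val R l := by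
  induction l with
  | nil =>
    simp only [List.map_nil, List.prod_nil, JD.val]
    exact ((PresentedGroup.mk R).map_one).symm
  | cons a l ih =>
    rw [List.map_cons, List.prod_cons, ih]
    unfold JD.val
    rw [← map_mul, FreeGroup.mul_mk]
    rfl

/-- the valuation of a labelled structure and of the sequence `u` -/
noncomputable def valu {n : ℕ} {C : Type} [Fintype C] (L : Lbl n C) (u : ℕ → (Fin n → ℕ) → Prop) :
    ℕ → (Fin n → ℕ) → Prop := fun v =>
  if hv : v < MM n C then
    (match (Fintype.equivFin (Nm n C)).symm ⟨v, hv⟩ with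
      | Sum.inl none => L.o
      | Sum.inl (some a) => L.al a
      | Sum.inr (Sum.inl none) => L.q0
      | Sum.inr (Sum.inl (some (j, c))) => L.q j c
      | Sum.inr (Sum.inr (Sum.inl (k, c))) => L.b k c
      | Sum.inr (Sum.inr (Sum.inr c)) => L.p c)
  else u (v - MM n C)

theorem symm_vx {n : ℕ} {C : Type} [Fintype C] (a : Nm n C) :
    (Fintype.equivFin (Nm n C)).symm ⟨vx a, vx_lt a⟩ = a := by
  have : (⟨vx a, vx_lt a⟩ : Fin (Fintype.card (Nm n C))) = Fintype.equivFin (Nm n C) a := rfl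
  rw [this, Equiv.symm_apply_apply]

theorem lbl_valu {n : ℕ} {C : Type} [Fintype C] (L : Lbl n C) (u : ℕ → (Fin n → ℕ) → Prop) :
    lbl (valu L u) = L := by
  unfold lbl valu
  simp only [vx_lt, dif_pos, symm_vx]

theorem valu_u {n : ℕ} {C : Type} [Fintype C] (L : Lbl n C) (u : ℕ → (Fin n → ℕ) → Prop) (k : ℕ) :
    valu L u (MM n C + k) = u k := by
  unfold valu
  rw [dif_neg (by omega)]
  congr 1
  omega

theorem not_mem_iff {n : ℕ} (φ : Fm) : negF φ ∉ Logic n ↔
    ∃ (V : ℕ → (Fin n → ℕ) → Prop) (x : Fin n → ℕ), Holds (fun a b => a ≤ b) V φ x := by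
  unfold Logic
  simp only [Set.mem_ofPred_eq, holds_neg, not_forall, not_not]

/-- the formula of a word -/
noncomputable def Phi {n m : ℕ} (hn : 3 ≤ n) (R : Finset (FreeGroup (Fin m)))
    (X : Finset (PresentedGroup (R : Set (FreeGroup (Fin m))))) (w : List (Fin m × Bool)) : Fm :=
  phi (MM n (Col X)) (baseF (Fin.castLE hn) (TT X))
    (fun a => letF (Col X) (Fin.castLE hn) (TT X) (JD.val (R : Set (FreeGroup (Fin m))) [a]))
    (endF n (Col X)) w

theorem holds_Phi {n m : ℕ} (hn : 3 ≤ n) (R : Finset (FreeGroup (Fin m)))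
    (X : Finset (PresentedGroup (R : Set (FreeGroup (Fin m))))) (w : List (Fin m × Bool))
    (V : ℕ → (Fin n → ℕ) → Prop) (x0 : Fin n → ℕ) :
    Holds (fun a b => a ≤ b) V (Phi hn R X w) x0 ↔
      ((lbl (C := Col X) V).o x0 ∧ ∀ x, x0 ≤ x →
        RO (Fin.castLE hn) (lbl (C := Col X) V) x ∧ RS (lbl (C := Col X) V) x ∧
        RB (Fin.castLE hn) (lbl (C := Col X) V) x ∧
        RP (TT X) (lbl (C := Col X) V) (V (MM n (Col X) + 0)) x) ∧
      (∀ (k : ℕ) (a : Fin m × Bool), w[k]? = some a → ∀ x, x0 ≤ x →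
        RK (Fin.castLE hn) (TT X) (lbl (C := Col X) V) (JD.val (R : Set (FreeGroup (Fin m))) [a])
          (V (MM n (Col X) + k)) (V (MM n (Col X) + (k + 1))) x) ∧
      (∀ x, x0 ≤ x → Pt (lbl (C := Col X) V) x → ¬ V (MM n (Col X) + w.length) x) := by
  unfold Phi
  rw [JE.holds_phi, holds_base, holds_end]
  simp only [holds_let]
  exact Iff.rfl

theorem key {n m : ℕ} (hn : 3 ≤ n) (R : Finset (FreeGroup (Fin m))) :
    ∃ X : Finset (PresentedGroup (R : Set (FreeGroup (Fin m)))), ∀ w : List (Fin m × Bool),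
      FreeGroup.mk w ∈ Subgroup.normalClosure (R : Set (FreeGroup (Fin m))) ↔
        negF (Phi hn R X w) ∉ Logic n := by
  obtain ⟨X, hX⟩ := JD.fill m R
  refine ⟨X, fun w => ?_⟩
  have hlab : Function.Injective (Fin.castLE hn) := Fin.castLE_injective hn
  rw [not_mem_iff]
  constructor
  · intro hw
    obtain ⟨M, h, h1, h2, hL, h4, h5⟩ := hX w hw
    have h2' : ∀ b, h 0 b =
        ((w.take b).map fun a => JD.val (R : Set (FreeGroup (Fin m))) [a]).prod := by
      intro b
      rw [h2, val_eq]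
    set N := 6 * M + 3 * w.length with hN
    set L := model (Fin.castLE hn) X h hL N with hLdef
    set u := um (Fin.castLE hn) w.length with hu
    refine ⟨valu L u, 0, ?_⟩
    rw [holds_Phi, lbl_valu]
    simp only [valu_u]
    refine ⟨⟨rfl, fun x _ => ⟨L1RO.model_RO _ hlab X h hL N x, L1RS.model_RS _ hlab X h hL N x,
      L1RB.model_RB _ hlab X h hL N x, ?_⟩⟩, ?_, ?_⟩
    · exact L3RP.model_RP _ hlab _ w X h hL M N h1 h2' h4 h5 (by omega) (by omega) x
    · intro k a hk x _
      exact L3RK.model_RK (Fin.castLE hn) hlab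
        (fun a => JD.val (R : Set (FreeGroup (Fin m))) [a]) w X h hL M N h1 h2' h4 h5
        (by omega) (by omega) x k a hk
    · rintro x _ _ ⟨hlt, _⟩
      exact lt_irrefl _ hlt
  · rintro ⟨V, x0, hV⟩
    rw [holds_Phi] at hV
    obtain ⟨⟨ho, hR⟩, hK, hE⟩ := hV
    have hs := USound.soundness (Fin.castLE hn) hlab (TT X)
      (fun a => JD.val (R : Set (FreeGroup (Fin m))) [a]) w (lbl (C := Col X) V)
      (fun k => V (MM n (Col X) + k)) x0 ho hR hK hE
    rw [val_eq] at hs
    unfold JD.val at hs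
    exact (QuotientGroup.eq_one_iff _).1 hs

theorem computable_negF : Computable negF := by
  have h : Primrec (fun a : Fm => Fm.imp a .bot) :=
    JE.primrec_imp.comp Primrec.id (Primrec.const _)
  exact h.to_comp

/-- **`L_n` is undecidable for every `n ≥ 3`.** -/
theorem undecidable {n : ℕ} (hn : 3 ≤ n) : ¬ ComputablePred fun φ : Fm => φ ∈ Logic n := by
  obtain ⟨m, R, W, hW, hund⟩ := Pool.Agent.Helper270.WP.word_problem
  intro hdec
  apply hund
  obtain ⟨X, hX⟩ := key hn R
  have hred : (fun k => FreeGroup.mk (W k) ∈ Subgroup.normalClosure (R : Set (FreeGroup (Fin m)))) ≤₀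
      fun φ : Fm => ¬ (φ ∈ Logic n) :=
    ⟨fun k => negF (Phi hn R X (W k)),
      computable_negF.comp (JE.computable_phi _ _ _ _ W hW), fun k => hX (W k)⟩
  exact ComputablePred.computable_of_manyOneReducible hred hdec.not

/-- **`L_n` is not recursively enumerable for `n ≥ 3`.** -/
theorem not_re {n : ℕ} (hn : 3 ≤ n) : ¬ REPred fun φ : Fm => φ ∈ Logic n := fun h =>
  undecidable hn (ComputablePred.computable_iff_re_compl_re'.2 ⟨h, non_theorems_re n⟩)

end Pool.Agent.H510.UMain
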