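import Pool.Agent.H510.UForm

set_option autoImplicit false

namespace Pool.Agent.H510.UModel

open Pool.Agent.H510.OmegaLogic Pool.Agent.H510.UForm

/-- the colours: a residue class modulo 5 and the differences to the neighbouring points -/
abbrev Col {G : Type} (X : Finset G) : Type :=
  (ZMod 5 × ZMod 5) × (ZMod 5 × ZMod 5 → {g // g ∈ X})

def TT {G : Type} (X : Finset G) (c c' : Col X) : G := (c.2 (c'.1 - c.1)).1

/-- the value at the point with the coordinates `(·, j, k)` -/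
def hh {G : Type} (h : ℕ → ℕ → G) (j k : ℕ) : G := h (k / 3) (j / 3)

def nb (j : ℕ) (δ : ZMod 5) : ℕ := ((j : ℤ) + δ.valMinAbs).toNat

/-- `h` is Lipschitz with respect to `X` -/
def Lip {G : Type} [Group G] (X : Finset G) (h : ℕ → ℕ → G) : Prop :=
  ∀ a b a' b', a ≤ a' + 1 → a' ≤ a + 1 → b ≤ b' + 1 → b' ≤ b + 1 → (h a b)⁻¹ * h a' b' ∈ X

theorem nb_lip (j : ℕ) (δ : ZMod 5) : j / 3 ≤ nb j δ / 3 + 1 ∧ nb j δ / 3 ≤ j / 3 + 1 := by
  have h : δ.valMinAbs.natAbs ≤ 5 / 2 := ZMod.natAbs_valMinAbs_le δ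
  unfold nb
  omega

def col {G : Type} [Group G] (X : Finset G) (h : ℕ → ℕ → G) (hX : Lip X h) (j k : ℕ) : Col X :=
  (((j : ZMod 5), (k : ZMod 5)), fun δ => ⟨(hh h j k)⁻¹ * hh h (nb j δ.1) (nb k δ.2),
    hX _ _ _ _ (nb_lip k δ.2).1 (nb_lip k δ.2).2 (nb_lip j δ.1).1 (nb_lip j δ.1).2⟩)

/-- points of the three-dimensional coordinate subspace -/
def Sup3 {n : ℕ} (lab : Fin 3 → Fin n) (x : Fin n → ℕ) : Prop := ∀ i, (∀ k, i ≠ lab k) → x i = 0

def lv {n : ℕ} (x : Fin n → ℕ) : ℕ := ∑ i, x i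

/-- the intended model -/
def model {n : ℕ} (lab : Fin 3 → Fin n) {G : Type} [Group G] (X : Finset G) (h : ℕ → ℕ → G)
    (hX : Lip X h) (N : ℕ) : Lbl n (Col X) where
  o x := x = 0
  al a x := x = Pi.single a (N + 4)
  q0 x := Sup3 lab x ∧ lv x = N
  q j c x := Sup3 lab x ∧ lv x = N + 1 + (j : ℕ) ∧ (x (lab 0) + 2 * x (lab 1)) % 3 = (c : ℕ)
  b k c x := Sup3 lab x ∧ x (lab k) = 0 ∧ lv x = N + 4 ∧ x (lab (k + 1)) % 2 = (c : ℕ)
  p c x := Sup3 lab x ∧ lv x = N + 3 ∧ col X h hX (x (lab 1)) (x (lab 2)) = c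

/-- the variables `u_k` of the intended model -/
def um {n : ℕ} (lab : Fin 3 → Fin n) (ℓ k : ℕ) (x : Fin n → ℕ) : Prop := k < ℓ ∧ k < x (lab 1) / 3

end Pool.Agent.H510.UModel
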