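import Pool.Agent.H510.UForm
import Pool.Agent.H510.JA
import Pool.Agent.H510.JB
import Pool.Agent.H510.JC
import Pool.Agent.H510.JH
import Pool.Agent.H510.K

set_option autoImplicit false

namespace Pool.Agent.H510.USound

open Pool.Agent.H510.UForm

theorem D_mono {n : ℕ} {P : (Fin n → ℕ) → Prop} {x y : Fin n → ℕ} (h : x ≤ y) (hD : D P y) : D P x := by
  obtain ⟨z, hz, hP⟩ := hD
  exact ⟨z, h.trans hz, hP⟩

theorem ge_of {n : ℕ} {m0 y : Fin n → ℕ} (h : m0 ≤ y) {i : Fin n} (hi : m0 i < y i) :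
    m0 + Pi.single i 1 ≤ y := by
  intro j
  by_cases hj : j = i
  · subst hj
    simp only [Pi.add_apply, Pi.single_eq_same]
    omega
  · simp only [Pi.add_apply, Pi.single_eq_of_ne hj, Nat.add_zero]
    exact h j

theorem fin3 : ∀ k k' : Fin 3, k' ≠ k → k' = k + 1 ∨ k' = k + 2 := by decide

theorem soundness {n : ℕ} {C G α : Type} [Group G] (lab : Fin 3 → Fin n)
    (hlab : Function.Injective lab) (T : C → C → G)
    (val : α → G) (w : List α) (L : Lbl n C) (u : ℕ → (Fin n → ℕ) → Prop) (x0 : Fin n → ℕ)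
    (ho : L.o x0)
    (hR : ∀ x, x0 ≤ x → RO lab L x ∧ RS L x ∧ RB lab L x ∧ RP T L (u 0) x)
    (hK : ∀ (k : ℕ) (a : α), w[k]? = some a → ∀ x, x0 ≤ x →
      RK lab T L (val a) (u k) (u (k + 1)) x)
    (hE : ∀ x, x0 ≤ x → Pt L x → ¬ u w.length x) : (w.map val).prod = 1 := by
  classical
  obtain ⟨m0, π, hm0, hom0, hcor, hax⟩ := JB.corner L.o L.al x0 ho
    (fun x hx hox a => (hR x hx).1.1 hox a)
    (fun x hx hno a b ha hb => by
      by_contra hne
      exact (hR x hx).1.2.1 hno a b hne ⟨ha, hb⟩)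
    (fun x hx a ha => (hR x hx).1.2.2.1 a ha)
  have hup : ∀ i : Fin n, m0 ≤ m0 + Pi.single i 1 := fun i => le_self_add
  have hx0 : ∀ {x : Fin n → ℕ}, m0 ≤ x → x0 ≤ x := fun h => hm0.trans h
  have hnoO : ∀ i : Fin n, ¬ D L.o (m0 + Pi.single i 1) := hcor
  have hax1 : ∀ a, D (L.al a) (m0 + Pi.single (π a) 1) := hax
  have hax2 : ∀ a b, a ≠ b → ¬ D (L.al a) (m0 + Pi.single (π b) 1) := by
    intro a b hab h
    exact (hR _ (hx0 (hup _))).1.2.1 (hnoO _) a b hab ⟨h, hax1 b⟩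
  choose z hz1 hz2 using hax1
  have hmz : ∀ a, m0 ≤ z a := fun a => (hup _).trans (hz1 a)
  have hz3 : ∀ a i, i ≠ π a → z a i = m0 i := by
    intro a i hi
    by_contra hne
    have hlt : m0 i < z a i := lt_of_le_of_ne (hmz a i) (Ne.symm hne)
    have := ge_of (hmz a) hlt
    refine hax2 a (π.symm i) ?_ ?_
    · rintro rfl
      exact hi (by simp)
    · rw [π.apply_symm_apply]
      exact ⟨z a, this, hz2 a⟩
  set q2 : (Fin n → ℕ) → Prop := fun y => ∃ c, L.q 2 c y with hq2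
  have hzE : ∀ a, ¬ D q2 (z a) := fun a => (hR _ (hx0 (hmz a))).1.2.2.2.1 a (hz2 a)
  set d : Fin 3 → Fin n := fun k => π (lab k) with hd
  have hdinj : Function.Injective d := π.injective.comp hlab
  have hflat2 : ∀ x, m0 ≤ x → D q2 x → ∀ i, i ∉ Set.range d → x i = m0 i := by
    intro x hx hDx i hi
    by_contra hne
    have hlt : m0 i < x i := lt_of_le_of_ne (hx i) (Ne.symm hne)
    have hge := ge_of hx hlt
    have h6 := (hR _ (hx0 (hup i))).1.2.2.2.2.2 (π.symm i) (by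
      intro k hk
      exact hi ⟨k, by simp [hd, ← hk]⟩)
    refine h6 ?_ (hnoO i) (D_mono hge hDx)
    have := hax (π.symm i)
    rw [π.apply_symm_apply] at this
    exact this
  set B : ℕ := (∑ i, m0 i) + ∑ k : Fin 3, z (lab k) (d k) with hB
  have hbd2 : ∀ x, m0 ≤ x → D q2 x → ∀ i, x i ≤ B := by
    intro x hx hDx i
    by_cases hi : i ∈ Set.range d
    · obtain ⟨k, rfl⟩ := hi
      have h1 : x (d k) < z (lab k) (d k) := by
        by_contra hge
        push Not at hge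
        refine hzE (lab k) (D_mono ?_ hDx)
        intro j
        by_cases hj : j = d k
        · subst hj; exact hge
        · rw [hz3 (lab k) j hj]; exact hx j
      have h2 : z (lab k) (d k) ≤ ∑ k : Fin 3, z (lab k) (d k) :=
        Finset.single_le_sum (f := fun k : Fin 3 => z (lab k) (d k)) (fun _ _ => Nat.zero_le _) (Finset.mem_univ k)
      omega
    · rw [hflat2 x hx hDx i hi]
      have h2 : m0 i ≤ ∑ i, m0 i :=
        Finset.single_le_sum (f := fun i => m0 i) (fun _ _ => Nat.zero_le _) (Finset.mem_univ i)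
      omega
  -- layers
  have hdn : ∀ (e : (Fin n → ℕ) → Prop) (f : Fin 3 → (Fin n → ℕ) → Prop),
      (∀ x, m0 ≤ x → StepR e f x) → ∀ x, m0 ≤ x → D e x → D (fun y => ∃ c, f c y) x := by
    intro e f hs x hx ⟨y, hy, hey⟩
    obtain ⟨t, ht, hft⟩ := (hs y (hx.trans hy)).1 hey 0
    exact ⟨t, hy.trans ht, 0, hft⟩
  have hS0 : ∀ x, m0 ≤ x → StepR L.q0 (L.q 0) x := fun x hx => (hR x (hx0 hx)).2.1.1
  have hS1 : ∀ x, m0 ≤ x → StepR (fun y => ∃ c, L.q 0 c y) (L.q 1) x :=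
    fun x hx => (hR x (hx0 hx)).2.1.2.1
  have hS2 : ∀ x, m0 ≤ x → StepR (fun y => ∃ c, L.q 1 c y) (L.q 2) x :=
    fun x hx => (hR x (hx0 hx)).2.1.2.2
  have hd2 : ∀ x, m0 ≤ x → D (fun y => ∃ c, L.q 1 c y) x → D q2 x := hdn _ _ hS2
  have hd1 : ∀ x, m0 ≤ x → D (fun y => ∃ c, L.q 0 c y) x → D q2 x :=
    fun x hx h => hd2 x hx (hdn _ _ hS1 x hx h)
  have hd0 : ∀ x, m0 ≤ x → D L.q0 x → D q2 x :=
    fun x hx h => hd1 x hx (hdn _ _ hS0 x hx h)
  have hstep : ∀ (e : (Fin n → ℕ) → Prop) (f : Fin 3 → (Fin n → ℕ) → Prop),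
      (∀ x, m0 ≤ x → StepR e f x) → (∀ x, m0 ≤ x → D e x → D q2 x) →
      (∀ x, m0 ≤ x → D (fun y => ∃ c, f c y) x → D q2 x) →
      ∀ x, m0 ≤ x → D e x → ∀ a : Fin 3, D (fun y => ∃ c, f c y) (x + Pi.single (d a) 1) := by
    intro e f hs h1 h2 x hx hDx a
    obtain ⟨c, y, hy, hf⟩ := JC.step e f m0 d B (fun x hx he c => (hs x hx).1 he c)
      (fun x hx hn c c' hc hc' => by
        by_contra hne
        exact (hs x hx).2.1 hn c c' hne ⟨hc, hc'⟩)
      (fun x hx c hc => (hs x hx).2.2 c hc)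
      (fun x hx c hc i hi => hflat2 x hx (h2 x hx ⟨x, le_refl _, c, hc⟩) i hi)
      (fun x hx he i => hbd2 x hx (h1 x hx ⟨x, le_refl _, he⟩) i)
      x hx hDx a
    exact ⟨y, hy, c, hf⟩
  have h111' : ∀ x, m0 ≤ x → D L.q0 x →
      D q2 (x + Pi.single (d 0) 1 + Pi.single (d 1) 1 + Pi.single (d 2) 1) := by
    intro x hx h
    have a0 := hstep _ _ hS0 hd0 hd1 x hx h 0
    have a1 := hstep _ _ hS1 hd1 hd2 _ (hx.trans le_self_add) a0 1
    exact hstep _ _ hS2 hd2 (fun _ _ h => h) _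
      ((hx.trans le_self_add).trans le_self_add) a1 2
  -- planes
  have hplane : ∀ k : Fin 3, ∀ x, m0 ≤ x → (∀ i, i ≠ d (k + 1) → i ≠ d (k + 2) → x i = m0 i) →
      D q2 x → D (Bt L k) x := by
    intro k x hx hxi hDx
    have hBt : ∀ y, Bt L k y ↔ (L.b k 0 y ∨ L.b k 1 y) := by
      intro y
      unfold Bt
      rw [Fin.exists_fin_two]
    have hDB : ∀ x, D (Bt L k) x ↔ ∃ y, x ≤ y ∧ (L.b k 0 y ∨ L.b k 1 y) := by
      intro x
      unfold D
      exact exists_congr fun y => and_congr_right fun _ => hBt y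
    have hk : ∀ k', k' ≠ k → k' = k + 1 ∨ k' = k + 2 := fun k' h => fin3 k k' h
    rw [hDB]
    refine JH.plane q2 (L.b k 0) (L.b k 1) m0 (d (k + 1)) (d (k + 2))
      (fun x hx h => ((hR x (hx0 hx)).2.2.1 k).1 0 1 (by decide) h)
      (fun x hx h => ((hR x (hx0 hx)).2.2.1 k).1 1 0 (by decide) h)
      (fun x hx h h' => ?_) (fun y hy hby i hi1 hi2 => ?_) ?_ x hx hxi hDx
    · have := ((hR x (hx0 hx)).2.2.1 k).2.1 ((hDB x).2 h) h'
      exact ⟨this 0, this 1⟩
    · by_contra hne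
      have hlt : m0 i < y i := lt_of_le_of_ne (hy i) (Ne.symm hne)
      have hge := ge_of hy hlt
      have h3 := ((hR _ (hx0 (hup i))).2.2.1 k).2.2.1 (π.symm i) (by
        intro k' hk' he
        rcases hk k' hk' with h | h
        · exact hi1 (by rw [← h]; simp [hd, ← he])
        · exact hi2 (by rw [← h]; simp [hd, ← he])) 
      refine h3 ?_ (hnoO i) ⟨y, hge, (hBt y).2 hby⟩
      have := hax (π.symm i)
      rw [π.apply_symm_apply] at this
      exact this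
    · obtain ⟨y, hy, h⟩ := ((hR m0 (hx0 le_rfl)).2.2.1 k).2.2.2 hom0
      exact ⟨y, hy, (hBt y).1 h⟩
  -- the embedding
  set ι : ℕ × ℕ × ℕ → (Fin n → ℕ) := fun v =>
    m0 + Pi.single (d 0) v.1 + Pi.single (d 1) v.2.1 + Pi.single (d 2) v.2.2 with hι
  have hιm : ∀ v, m0 ≤ ι v := fun v => by
    intro i
    simp only [hι, Pi.add_apply]
    omega
  have hιmono : ∀ v v', v ≤ v' → ι v ≤ ι v' := by
    intro v v' h i
    have h1 : v.1 ≤ v'.1 := h.1
    have h2 : v.2.1 ≤ v'.2.1 := h.2.1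
    have h3 : v.2.2 ≤ v'.2.2 := h.2.2
    simp only [hι, Pi.add_apply, Pi.single_apply]
    split_ifs <;> omega
  have n01 : d 0 ≠ d 1 := fun h => absurd (hdinj h) (by decide)
  have n02 : d 0 ≠ d 2 := fun h => absurd (hdinj h) (by decide)
  have n12 : d 1 ≠ d 2 := fun h => absurd (hdinj h) (by decide)
  have hι0 : ∀ v, ι v (d 0) = m0 (d 0) + v.1 := by
    intro v
    simp only [hι, Pi.add_apply, Pi.single_apply, n01, n02, if_true, if_false, Nat.add_zero]
  have hι1 : ∀ v, ι v (d 1) = m0 (d 1) + v.2.1 := by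
    intro v
    simp only [hι, Pi.add_apply, Pi.single_apply, n01.symm, n12, if_true, if_false, Nat.add_zero]
  have hι2 : ∀ v, ι v (d 2) = m0 (d 2) + v.2.2 := by
    intro v
    simp only [hι, Pi.add_apply, Pi.single_apply, n02.symm, n12.symm, if_true, if_false, Nat.add_zero]
  have hιo : ∀ v i, i ≠ d 0 → i ≠ d 1 → i ≠ d 2 → ι v i = m0 i := by
    intro v i h0 h1 h2
    simp only [hι, Pi.add_apply, Pi.single_apply, h0, h1, h2, if_false, Nat.add_zero]
  set E0 : ℕ × ℕ × ℕ → Prop := fun v => D L.q0 (ι v) with hE0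
  set E3 : ℕ × ℕ × ℕ → Prop := fun v => D q2 (ι v) with hE3
  have hd0' : ∀ x y, x ≤ y → E0 y → E0 x := fun x y h => D_mono (hιmono x y h)
  have hd3' : ∀ x y, x ≤ y → E3 y → E3 x := fun x y h => D_mono (hιmono x y h)
  have h111 : ∀ x, E0 x → E3 (x + (1, 1, 1)) := by
    intro x hx
    have h := h111' (ι x) (hιm x) hx
    have he : ι (x + (1, 1, 1)) = ι x + Pi.single (d 0) 1 + Pi.single (d 1) 1 + Pi.single (d 2) 1 := by
      funext i
      simp only [hι, Pi.add_apply, Pi.single_apply, Prod.fst_add, Prod.snd_add]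
      split_ifs <;> omega
    show D q2 (ι (x + (1, 1, 1)))
    rw [he]
    exact h
  have hbE : ∀ x, E3 x → x.1 < B + 1 ∧ x.2.1 < B + 1 ∧ x.2.2 < B + 1 := by
    intro x hx
    have h := hbd2 (ι x) (hιm x) hx
    have a0 := h (d 0)
    have a1 := h (d 1)
    have a2 := h (d 2)
    rw [hι0] at a0
    rw [hι1] at a1
    rw [hι2] at a2
    omega
  have h00 : E0 0 := by
    have he : ι 0 = m0 := by
      funext i
      simp [hι]
    show D L.q0 (ι 0)
    rw [he]
    exact (hR m0 (hx0 le_rfl)).1.2.2.2.2.1 hom0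
  -- choice of the colours
  have hZ : ∀ v, E3 v → ¬ E0 v → Z L (ι v) := fun v h3 h0 => ⟨h3, h0⟩
  have hex : ∀ v, E3 v → ¬ E0 v → ∃ p : (Fin n → ℕ) × C, ι v ≤ p.1 ∧ L.p p.2 p.1 := by
    intro v h3 h0
    obtain ⟨y, hy, c, hc⟩ := ((hR _ (hx0 (hιm v))).2.2.2 (hZ v h3 h0)).1
    exact ⟨(y, c), hy, hc⟩
  have hne : Nonempty ((Fin n → ℕ) × C) := by
    have hx : ∃ t : ℕ, ¬ E0 (t, t, t) := by
      refine ⟨B + 1, fun h => ?_⟩
      have := (hbE _ (hd3' _ _ (by exact ⟨Nat.le_succ _, Nat.le_succ _, Nat.le_succ _⟩) (h111 _ h) : E3 (B + 1, B + 1, B + 1))).1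
      exact lt_irrefl _ this
    have hspec := Nat.find_spec hx
    have hmin := fun t => Nat.find_min (m := t) hx
    set t := Nat.find hx
    have ht : t ≠ 0 := by
      intro h
      rw [h] at hspec
      exact hspec h00
    obtain ⟨s, hs⟩ := Nat.exists_eq_succ_of_ne_zero ht
    have h1 : E0 (s, s, s) := by
      by_contra h
      exact hmin s (by omega) h
    have h2 : E3 (t, t, t) := by
      rw [hs]
      exact h111 _ h1
    obtain ⟨p, _⟩ := hex _ h2 hspec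
    exact ⟨p⟩
  have hex' : ∀ v, ∃ p : (Fin n → ℕ) × C, E3 v → ¬ E0 v → ι v ≤ p.1 ∧ L.p p.2 p.1 := by
    intro v
    by_cases h : E3 v ∧ ¬ E0 v
    · obtain ⟨p, hp⟩ := hex v h.1 h.2
      exact ⟨p, fun _ _ => hp⟩
    · exact ⟨Classical.arbitrary _, fun h1 h2 => absurd ⟨h1, h2⟩ h⟩
  choose pc hpc using hex'
  have hfl : ∀ v, ∃ f : ℕ, E3 v → ¬ E0 v → ¬ u f (pc v).1 ∧ ∀ k < f, u k (pc v).1 := by
    intro v
    by_cases h : E3 v ∧ ¬ E0 v
    · have hp := hpc v h.1 h.2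
      have hx : ∃ f, ¬ u f (pc v).1 :=
        ⟨w.length, hE _ (hx0 ((hιm v).trans hp.1)) ⟨(pc v).2, hp.2⟩⟩
      refine ⟨Nat.find hx, fun _ _ => ⟨Nat.find_spec hx, fun k hk => ?_⟩⟩
      by_contra hc
      exact Nat.find_min hx hk hc
    · exact ⟨0, fun h1 h2 => absurd ⟨h1, h2⟩ h⟩
  choose fl hfl using hfl
  have hQ : ∀ m x, ¬ E0 m → m ≤ x → ¬ E0 x := fun m x h hmx h' => h (hd0' m x hmx h')
  have hvis : ∀ m x, E3 x → ¬ E0 m → m ≤ x → D (L.p (pc x).2) (ι m) := by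
    intro m x h3 h0 hmx
    have := hpc x h3 (hQ m x h0 hmx)
    exact ⟨(pc x).1, (hιmono m x hmx).trans this.1, this.2⟩
  have hcoc : ∀ m, E3 m → ¬ E0 m → ∀ c c' c'', D (L.p c) (ι m) → D (L.p c') (ι m) →
      D (L.p c'') (ι m) → T c c' * T c' c'' = T c c'' := by
    intro m h3 h0 c c' c'' h h' h''
    by_contra hne
    exact ((hR _ (hx0 (hιm m))).2.2.2 (hZ m h3 h0)).2.1 c c' c'' hne ⟨h, h', h''⟩
  have hinv : ∀ m, E3 m → ¬ E0 m → ∀ c c', D (L.p c) (ι m) → D (L.p c') (ι m) →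
      T c' c = (T c c')⁻¹ := by
    intro m h3 h0 c c' h h'
    have h1 := hcoc m h3 h0 c c c h h h
    have h2 := hcoc m h3 h0 c c' c h h' h
    have h3 : T c c = 1 := by simpa using h1
    rw [h3] at h2
    exact eq_inv_of_mul_eq_one_right h2
  -- the axes
  have haxis : ∀ (k : Fin 3) (v : ℕ × ℕ × ℕ), E3 v → (∀ i, i ≠ d k → ι v i = m0 i) →
      D (L.al (lab k)) (ι v) := by
    intro k v h3 hv
    refine ⟨z (lab k), ?_, hz2 _⟩
    intro i
    by_cases hi : i = d k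
    · subst hi
      by_contra hlt
      push Not at hlt
      refine hzE (lab k) (D_mono ?_ h3)
      intro j
      by_cases hj : j = d k
      · subst hj; exact hlt.le
      · rw [hz3 (lab k) j hj]; exact hιm v j
    · rw [hv i hi]; exact hmz _ i
  refine JA.core E0 E3 hd0' hd3' h111 (B + 1) hbE h00 (fun x y => T (pc x).2 (pc y).2)
    ?_ ?_ (fun v => ((w.take (fl v)).map val).prod) ?_ _ ?_ ?_
  · intro m x y t hm hm0 hx hy ht hmx hmy hmt
    exact hcoc m hm hm0 _ _ _ (hvis m x hx hm0 hmx) (hvis m y hy hm0 hmy) (hvis m t ht hm0 hmt)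
  · intro m x y hm hm0' hx hy hmx hmy h01
    by_contra hne
    refine ((hR _ (hx0 (hιm m))).2.2.2 (hZ m hm hm0')).2.2.1 ?_ _ _ hne
      ⟨hvis m x hx hm0' hmx, hvis m y hy hm0' hmy⟩
    rcases h01 with h | h
    · left
      refine hplane 0 (ι m) (hιm m) (fun i h1 h2 => ?_) hm
      by_cases hi : i = d 0
      · subst hi
        rw [hι0, h]; exact Nat.add_zero _
      · exact hιo m i hi h1 h2
    · right
      refine hplane 1 (ι m) (hιm m) (fun i h1 h2 => ?_) hm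
      by_cases hi : i = d 1
      · subst hi
        rw [hι1, h]; exact Nat.add_zero _
      · exact hιo m i h2 hi h1
  · intro m x y hm hm0' hx hy hmx hmy h2
    have hB2 : D (Bt L 2) (ι m) := by
      refine hplane 2 (ι m) (hιm m) (fun i h1' h2' => ?_) hm
      by_cases hi : i = d 2
      · subst hi
        rw [hι2, h2]; exact Nat.add_zero _
      · exact hιo m i h1' h2' hi
    have hx' := hpc x hx (hQ m x hm0' hmx)
    have hy' := hpc y hy (hQ m y hm0' hmy)
    have hfx := hfl x hx (hQ m x hm0' hmx)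
    have hfy := hfl y hy (hQ m y hm0' hmy)
    exact K.flag_step T val w L u (ι m)
      (((hR _ (hx0 (hιm m))).2.2.2 (hZ m hm hm0')).2.2.2 hB2)
      (fun k a hk => ((hK k a hk _ (hx0 (hιm m))).2 (hZ m hm hm0')).2.2 hB2)
      (fun y hy hp => hE y (hx0 ((hιm m).trans hy)) hp)
      (hinv m hm hm0') _ _ _ _ ((hιmono m x hmx).trans hx'.1) ((hιmono m y hmy).trans hy'.1)
      hx'.2 hy'.2 _ _ hfx.1 hfx.2 hfy.1 hfy.2
  · intro i h3 h0
    have hal := haxis 0 (i, 0, 0) h3 (fun j hj => by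
      by_cases h1 : j = d 1
      · subst h1; rw [hι1]; exact Nat.add_zero _
      · by_cases h2 : j = d 2
        · subst h2; rw [hι2]; exact Nat.add_zero _
        · exact hιo _ j hj h1 h2)
    have hf := hfl _ h3 h0
    have hp := hpc _ h3 h0
    show ((w.take (fl (i, 0, 0))).map val).prod = 1
    rcases Nat.eq_zero_or_pos (fl (i, 0, 0)) with h | h
    · rw [h]; simp
    · rcases hw : w with _ | ⟨a, w'⟩
      · simp
      · exfalso
        have hk := ((hK 0 a (by rw [hw]; rfl) _ (hx0 (hιm (i, 0, 0)))).2 (hZ _ h3 h0)).1 hal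
        exact hk ⟨(pc (i, 0, 0)).1, hp.1, ⟨(pc (i, 0, 0)).2, hp.2⟩, hf.2 0 h⟩
  · intro j h3 h0
    have hal := haxis 1 (0, j, 0) h3 (fun i hi => by
      by_cases h1 : i = d 0
      · subst h1; rw [hι0]; exact Nat.add_zero _
      · by_cases h2 : i = d 2
        · subst h2; rw [hι2]; exact Nat.add_zero _
        · exact hιo _ i h1 hi h2)
    have hf := hfl _ h3 h0
    have hp := hpc _ h3 h0
    show ((w.take (fl (0, j, 0))).map val).prod = (w.map val).prod
    have hle : w.length ≤ fl (0, j, 0) := by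
      by_contra hlt
      push Not at hlt
      have hk := ((hK _ w[fl (0, j, 0)] (List.getElem?_eq_getElem hlt) _
        (hx0 (hιm (0, j, 0)))).2 (hZ _ h3 h0)).2.1 hal
      exact hk ⟨(pc (0, j, 0)).1, hp.1, ⟨(pc (0, j, 0)).2, hp.2⟩, hf.1⟩
    rw [List.take_of_length_le hle]

end Pool.Agent.H510.USound
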